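import Pool.Agent.K9h12.SG.Psi

/-!
The pointwise bound for the jet differential along a pair of maps.
-/

set_option autoImplicit false

open Filter Metric Set Topology Polynomial Pool.Agent.W602.NC Pool.Agent.TH152.HY
  Pool.Agent.K9h12.AX

namespace Pool.Agent.K9h12.SG

open Pool.Agent.K9h12.SH

theorem scale_at {u : ℂ → Fin 2 → ℂ} {lam : ℂ → ℂ} {z : ℂ} (hl : AnalyticAt ℂ lam z)
    (h0 : lam z ≠ 0) (hut : ∀ j, AnalyticAt ℂ (fun w => ut u lam w j) z) :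
    (∀ j, u z j = lam z * ut u lam z j) ∧
    deriv (fun w => u w 0) z = deriv lam z * ut u lam z 0 +
      lam z * deriv (fun w => ut u lam w 0) z ∧
    wr u z = lam z ^ 2 * wr (ut u lam) z ∧
    deriv (wr u) z = 2 * lam z * deriv lam z * wr (ut u lam) z +
      lam z ^ 2 * deriv (wr (ut u lam)) z := by
  have hne : ∀ᶠ w in 𝓝 z, lam w ≠ 0 := hl.continuousAt.eventually_ne h0
  have hgood : ∀ᶠ w in 𝓝 z, (∀ᶠ t in 𝓝 w, lam t ≠ 0) ∧ AnalyticAt ℂ lam w ∧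
      AnalyticAt ℂ (fun w => ut u lam w 0) w ∧ AnalyticAt ℂ (fun w => ut u lam w 1) w := by
    filter_upwards [hne.eventually_nhds, hl.eventually_analyticAt, (hut 0).eventually_analyticAt,
      (hut 1).eventually_analyticAt] with w h1 h2 h3 h4 using ⟨h1, h2, h3, h4⟩
  have heq : ∀ j w, lam w ≠ 0 → u w j = lam w * ut u lam w j := by
    intro j w hw
    unfold ut
    field_simp
  have hder : ∀ j w, (∀ᶠ t in 𝓝 w, lam t ≠ 0) → AnalyticAt ℂ lam w →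
      AnalyticAt ℂ (fun w => ut u lam w j) w → deriv (fun w => u w j) w =
        deriv lam w * ut u lam w j + lam w * deriv (fun w => ut u lam w j) w := by
    intro j w h1 h2 h3
    have h4 : (fun w => u w j) =ᶠ[𝓝 w] fun w => lam w * ut u lam w j := by
      filter_upwards [h1] with t ht using heq j t ht
    rw [h4.deriv_eq, deriv_fun_mul h2.differentiableAt h3.differentiableAt]
  have hwr : ∀ᶠ w in 𝓝 z, wr u w = lam w ^ 2 * wr (ut u lam) w := by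
    filter_upwards [hgood] with w hw
    obtain ⟨h1, h2, h3, h4⟩ := hw
    unfold wr
    rw [hder 0 w h1 h2 h3, hder 1 w h1 h2 h4, heq 0 w h1.self_of_nhds,
      heq 1 w h1.self_of_nhds]
    ring
  obtain ⟨h1, h2, h3, h4⟩ := hgood.self_of_nhds
  refine ⟨fun j => heq j z h0, hder 0 z h1 h2 h3, hwr.self_of_nhds, ?_⟩
  rw [Filter.EventuallyEq.deriv_eq hwr, deriv_fun_mul (hl.fun_pow 2).differentiableAt
    (wr_an hut).differentiableAt, deriv_fun_pow hl.differentiableAt]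
  simp only [Nat.add_one_sub_one, pow_one, Nat.cast_ofNat]

/-- the jet differential along a pair of maps -/
noncomputable def Auxf (A B : Dat) (m : ℕ) (u v : ℂ → Fin 2 → ℂ) (z : ℂ) : ℂ :=
  Aux A B m (u z) (v z) (deriv (fun w => u w 0) z) (deriv (fun w => v w 0) z) (wr u z) (wr v z)
    (deriv (wr u) z) (deriv (wr v) z)

/-- the weights -/
def cw {M : ℕ} (c : ℕ) (i : Fin (M + 1)) : ℕ := Fin.cases 0 (fun _ => c) i

@[simp] theorem cw_zero {M : ℕ} (c : ℕ) : cw c (0 : Fin (M + 1)) = 0 := rfl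

@[simp] theorem cw_succ {M : ℕ} (c : ℕ) (i : Fin M) : cw c i.succ = c := rfl

theorem hm_an (d : ℕ) (K : ℂ[X]) {u : ℂ → Fin 2 → ℂ} {z : ℂ}
    (hu : ∀ j, AnalyticAt ℂ (fun w => u w j) z) : AnalyticAt ℂ (fun z => hm d K (u z)) z := by
  unfold hm
  exact Finset.analyticAt_fun_sum _ fun i _ => analyticAt_const.fun_mul
    (((hu 1).fun_pow i).fun_mul ((hu 0).fun_pow _))

theorem Auxf_an (A B : Dat) (m : ℕ) {u v : ℂ → Fin 2 → ℂ} {z : ℂ}
    (hu : ∀ j, AnalyticAt ℂ (fun w => u w j) z) (hv : ∀ j, AnalyticAt ℂ (fun w => v w j) z) :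
    AnalyticAt ℂ (Auxf A B m u v) z := by
  unfold Auxf Aux Jet Dat.chi Dat.phi Chi Phi
  have w1 := wr_an hu
  have w2 := wr_an hv
  have d1 := (hu 0).deriv
  have d2 := (hv 0).deriv
  have e1 := w1.deriv
  have e2 := w2.deriv
  have k1 := hm_an (A.d + 1) A.K hu
  have k2 := hm_an (B.d + 1) B.K hv
  have k3 := hm_an (A.p + 1) A.P hu
  have k4 := hm_an (B.p + 1) B.P hv
  have k5 := hm_an A.d A.N hu
  have k6 := hm_an B.d B.N hv
  have k7 := hm_an A.p (derivative A.P) hu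
  have k8 := hm_an B.p (derivative B.P) hv
  have u0 := hu 0
  have v0 := hv 0
  have x1 : AnalyticAt ℂ (fun z => v z 0 * hm (B.d + 1) B.K (v z) * hm (B.p + 1) B.P (v z) *
      wr v z) z := ((v0.fun_mul k2).fun_mul k4).fun_mul w2
  have x2 : AnalyticAt ℂ (fun z => u z 0 * hm (A.d + 1) A.K (u z) * hm (A.p + 1) A.P (u z) *
      wr u z) z := ((u0.fun_mul k1).fun_mul k3).fun_mul w1
  have c2 : AnalyticAt ℂ (fun _ : ℂ => (2 : ℂ)) z := analyticAt_const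
  have x3 : AnalyticAt ℂ (fun z => u z 0 * hm (A.d + 1) A.K (u z) * hm (A.p + 1) A.P (u z) *
      deriv (wr u) z - 2 * deriv (fun w => u w 0) z * hm (A.d + 1) A.K (u z) *
      hm (A.p + 1) A.P (u z) * wr u z + (hm A.d A.N (u z) * hm (A.p + 1) A.P (u z) -
      2 * hm (A.d + 1) A.K (u z) * hm A.p (derivative A.P) (u z)) * wr u z ^ 2) z :=
    ((((u0.fun_mul k1).fun_mul k3).fun_mul e1).fun_sub
      ((((c2.fun_mul d1).fun_mul k1).fun_mul k3).fun_mul w1)).fun_add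
      (((k5.fun_mul k3).fun_sub ((c2.fun_mul k1).fun_mul k7)).fun_mul (w1.fun_pow 2))
  have x4 : AnalyticAt ℂ (fun z => v z 0 * hm (B.d + 1) B.K (v z) * hm (B.p + 1) B.P (v z) *
      deriv (wr v) z - 2 * deriv (fun w => v w 0) z * hm (B.d + 1) B.K (v z) *
      hm (B.p + 1) B.P (v z) * wr v z + (hm B.d B.N (v z) * hm (B.p + 1) B.P (v z) -
      2 * hm (B.d + 1) B.K (v z) * hm B.p (derivative B.P) (v z)) * wr v z ^ 2) z :=
    ((((v0.fun_mul k2).fun_mul k4).fun_mul e2).fun_sub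
      ((((c2.fun_mul d2).fun_mul k2).fun_mul k4).fun_mul w2)).fun_add
      (((k6.fun_mul k4).fun_sub ((c2.fun_mul k2).fun_mul k8)).fun_mul (w2.fun_pow 2))
  exact ((((x1.fun_mul x3).fun_sub (x2.fun_mul x4)).fun_pow m).fun_mul
    ((w1.fun_mul w2).fun_pow (2 * m))).fun_mul ((u0.fun_mul v0).fun_pow m)

theorem prod_cw {M : ℕ} {P : ℂ[X]} {a : Fin M → ℂ}
    (hP : P = C P.leadingCoeff * ∏ i, (X - C (a i))) (hM : P.natDegree = M) (hP0 : P ≠ 0) (c : ℕ)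
    (u : Fin 2 → ℂ) : ‖hm M P u‖ ^ c = ‖P.leadingCoeff‖ ^ c * ∏ i : Fin (M + 1),
      ‖ell a i u‖ ^ cw c i ∧ 0 < ‖P.leadingCoeff‖ := by
  constructor
  · rw [hm_prod hP hM, norm_mul, mul_pow, norm_prod, Fin.prod_univ_succ, cw_zero, pow_zero, one_mul,
      ← Finset.prod_pow, Algebra.algebraMap_self, RingHom.id_apply]
    rfl
  · exact norm_pos_iff.2 (leadingCoeff_ne_zero.2 hP0)

/-- **The pointwise bound.** -/
theorem Auxf_bound {A B : Dat} (hA : A.Ok) (hB : B.Ok) {a : Fin (A.p + 1) → ℂ}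
    (ha : Function.Injective a) (hPa : A.P = C A.P.leadingCoeff * ∏ i, (X - C (a i)))
    {b : Fin (B.p + 1) → ℂ} (hb : Function.Injective b)
    (hPb : B.P = C B.P.leadingCoeff * ∏ i, (X - C (b i))) {m c c' κ κ' : ℕ}
    (hc : c ≤ 4 * m) (hc' : c' ≤ 4 * m) (hκ : c * (A.p + 1) = m * (A.p + A.d + 10) + κ)
    (hκ' : c' * (B.p + 1) = m * (B.p + B.d + 10) + κ') :
    ∃ C : ℝ, 1 ≤ C ∧ ∀ (u v : ℂ → Fin 2 → ℂ) (z : ℂ) (ε K : ℝ), 0 < ε → ε ≤ 1 → 1 ≤ K →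
      (∀ w ∈ closedBall z ε, ∀ j, AnalyticAt ℂ (fun w => u w j) w) →
      (∀ w ∈ closedBall z ε, ∀ j, AnalyticAt ℂ (fun w => v w j) w) →
      Calm (UU a u) z ε K → Calm (UU b v) z ε K →
      ‖Auxf A B m u v z‖ * sup (UU a u) z ^ κ * sup (UU b v) z ^ κ' ≤
        C * (K / ε) ^ (7 * m) *
          ((∏ i, ‖UU a u i z‖ ^ cw c i) * ∏ i, ‖UU b v i z‖ ^ cw c' i) := by
  have hA0 : A.P ≠ 0 := by
    intro h0
    have := hA.deg
    rw [h0] at this
    simp at this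
  have hB0 : B.P ≠ 0 := by
    intro h0
    have := hB.deg
    rw [h0] at this
    simp at this
  obtain ⟨C1, h1, H1⟩ := block (Nat.succ_pos A.p) ha
  obtain ⟨C2, h2, H2⟩ := block (Nat.succ_pos B.p) hb
  have la := (prod_cw hPa hA.deg hA0 1 0).2
  have lb := (prod_cw hPb hB.deg hB0 1 0).2
  -- a common constant
  set C3 : ℝ := max C1 C2 + (C1 * ‖A.P.leadingCoeff‖⁻¹ + C2 * ‖B.P.leadingCoeff‖⁻¹) with hC3
  have q1 : 0 ≤ C1 * ‖A.P.leadingCoeff‖⁻¹ := by positivity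
  have q2 : 0 ≤ C2 * ‖B.P.leadingCoeff‖⁻¹ := by positivity
  have q3 : C1 ≤ C3 := by linarith [le_max_left C1 C2]
  have q4 : C2 ≤ C3 := by linarith [le_max_right C1 C2]
  have q5 : C1 * ‖A.P.leadingCoeff‖⁻¹ ≤ C3 := by linarith [le_max_left C1 C2]
  have q6 : C2 * ‖B.P.leadingCoeff‖⁻¹ ≤ C3 := by linarith [le_max_left C1 C2]
  have q7 : 1 ≤ C3 := h1.trans q3
  obtain ⟨C4, h4, H4⟩ := Aux_bound A B hc hc' q7
  refine ⟨C4 * ((1 + ‖A.P.leadingCoeff‖) ^ c * (1 + ‖B.P.leadingCoeff‖) ^ c'), ?_, ?_⟩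
  · exact one_le_mul_of_one_le_of_one_le h4 (one_le_mul_of_one_le_of_one_le
      (one_le_pow₀ (by linarith)) (one_le_pow₀ (by linarith)))
  intro u v z ε K hε hε1 hK hu hv hcu hcv
  obtain ⟨lam, δ, hn⟩ := H1 u z ε K hε hε1 hK hu hcu
  obtain ⟨mu, δ', hn'⟩ := H2 v z ε K hε hε1 hK hv hcv
  have hKε : 1 ≤ K / ε := by rw [le_div_iff₀ hε]; linarith
  have hK0 : 0 ≤ K / ε := by linarith
  obtain ⟨s1, s2, s3, s4⟩ := scale_at hn.lam_an hn.lam_ne hn.ut_an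
  obtain ⟨t1, t2, t3, t4⟩ := scale_at hn'.lam_an hn'.lam_ne hn'.ut_an
  have e1 := Aux_scale A B m s1 t1 s2 t2 s3 s4 t3 t4
  have hδ : δ ≤ C3 * ‖A.F (ut u lam z)‖ := by
    have h5 : ‖A.F (ut u lam z)‖ = ‖A.P.leadingCoeff‖ *
        ‖∏ i : Fin (A.p + 1), ell a i.succ (ut u lam z)‖ := by
      unfold Dat.F
      rw [hm_prod hPa hA.deg, norm_mul, Algebra.algebraMap_self, RingHom.id_apply]
    calc δ ≤ C1 * ‖∏ i : Fin (A.p + 1), ell a i.succ (ut u lam z)‖ := hn.δ_le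
      _ = C1 * ‖A.P.leadingCoeff‖⁻¹ * ‖A.F (ut u lam z)‖ := by
        rw [h5]
        field_simp
      _ ≤ _ := mul_le_mul_of_nonneg_right q5 (norm_nonneg _)
  have hδ' : δ' ≤ C3 * ‖B.F (ut v mu z)‖ := by
    have h5 : ‖B.F (ut v mu z)‖ = ‖B.P.leadingCoeff‖ *
        ‖∏ i : Fin (B.p + 1), ell b i.succ (ut v mu z)‖ := by
      unfold Dat.F
      rw [hm_prod hPb hB.deg, norm_mul, Algebra.algebraMap_self, RingHom.id_apply]
    calc δ' ≤ C2 * ‖∏ i : Fin (B.p + 1), ell b i.succ (ut v mu z)‖ := hn'.δ_le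
      _ = C2 * ‖B.P.leadingCoeff‖⁻¹ * ‖B.F (ut v mu z)‖ := by
        rw [h5]
        field_simp
      _ ≤ _ := mul_le_mul_of_nonneg_right q6 (norm_nonneg _)
  have e2 := H4 (ut u lam z) (ut v mu z) (deriv (fun w => ut u lam w 0) z)
    (deriv (fun w => ut v mu w 0) z) (wr (ut u lam) z) (wr (ut v mu) z)
    (deriv (wr (ut u lam)) z) (deriv (wr (ut v mu)) z) (K / ε) δ δ' hKε hn.δ0 hn'.δ0
    (fun j => (hn.ut_le j).trans q3)
    (hn.ut_der.trans (mul_le_mul_of_nonneg_right q3 hK0))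
    (hn.wr_le.trans (mul_le_mul_of_nonneg_right (mul_le_mul_of_nonneg_right q3 hK0) hn.δ0))
    (hn.wr_der.trans (mul_le_mul_of_nonneg_right (mul_le_mul_of_nonneg_right q3 (by positivity))
      hn.δ0)) hδ
    (fun j => (hn'.ut_le j).trans q4)
    (hn'.ut_der.trans (mul_le_mul_of_nonneg_right q4 hK0))
    (hn'.wr_le.trans (mul_le_mul_of_nonneg_right (mul_le_mul_of_nonneg_right q4 hK0) hn'.δ0))
    (hn'.wr_der.trans (mul_le_mul_of_nonneg_right (mul_le_mul_of_nonneg_right q4 (by positivity))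
      hn'.δ0)) hδ'
  have e3 : Auxf A B m u v z = lam z ^ (m * (A.p + A.d + 10)) * mu z ^ (m * (B.p + B.d + 10)) *
      Aux A B m (ut u lam z) (ut v mu z) (deriv (fun w => ut u lam w 0) z)
      (deriv (fun w => ut v mu w 0) z) (wr (ut u lam) z) (wr (ut v mu) z)
      (deriv (wr (ut u lam)) z) (deriv (wr (ut v mu)) z) := e1
  rw [e3, norm_mul, norm_mul, norm_pow, norm_pow, ← hn.lam_sup, ← hn'.lam_sup]
  have f1 : ‖A.F (u z)‖ ^ c = ‖lam z‖ ^ (c * (A.p + 1)) * ‖A.F (ut u lam z)‖ ^ c := by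
    unfold Dat.F
    rw [hm_smul _ _ s1, norm_mul, mul_pow, norm_pow, ← pow_mul, mul_comm c]
  have f2 : ‖B.F (v z)‖ ^ c' = ‖mu z‖ ^ (c' * (B.p + 1)) * ‖B.F (ut v mu z)‖ ^ c' := by
    unfold Dat.F
    rw [hm_smul _ _ t1, norm_mul, mul_pow, norm_pow, ← pow_mul, mul_comm c']
  have g1 : ‖A.F (u z)‖ ^ c ≤ (1 + ‖A.P.leadingCoeff‖) ^ c * ∏ i, ‖UU a u i z‖ ^ cw c i := by
    have := (prod_cw hPa hA.deg hA0 c (u z)).1
    unfold Dat.F
    rw [this]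
    exact mul_le_mul_of_nonneg_right (pow_le_pow_left₀ (norm_nonneg _) (by linarith) _)
      (Finset.prod_nonneg fun i _ => by positivity)
  have g2 : ‖B.F (v z)‖ ^ c' ≤ (1 + ‖B.P.leadingCoeff‖) ^ c' * ∏ i, ‖UU b v i z‖ ^ cw c' i := by
    have := (prod_cw hPb hB.deg hB0 c' (v z)).1
    unfold Dat.F
    rw [this]
    exact mul_le_mul_of_nonneg_right (pow_le_pow_left₀ (norm_nonneg _) (by linarith) _)
      (Finset.prod_nonneg fun i _ => by positivity)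
  set T := ‖Aux A B m (ut u lam z) (ut v mu z) (deriv (fun w => ut u lam w 0) z)
      (deriv (fun w => ut v mu w 0) z) (wr (ut u lam) z) (wr (ut v mu) z)
      (deriv (wr (ut u lam)) z) (deriv (wr (ut v mu)) z)‖ with hT
  calc ‖lam z‖ ^ (m * (A.p + A.d + 10)) * ‖mu z‖ ^ (m * (B.p + B.d + 10)) * T * ‖lam z‖ ^ κ *
        ‖mu z‖ ^ κ'
      = (‖lam z‖ ^ (c * (A.p + 1)) * ‖mu z‖ ^ (c' * (B.p + 1))) * T := by
        rw [hκ, hκ', pow_add, pow_add]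
        ring
    _ ≤ (‖lam z‖ ^ (c * (A.p + 1)) * ‖mu z‖ ^ (c' * (B.p + 1))) *
        (C4 * (K / ε) ^ (7 * m) * (‖A.F (ut u lam z)‖ ^ c * ‖B.F (ut v mu z)‖ ^ c')) :=
        mul_le_mul_of_nonneg_left e2 (by positivity)
    _ = C4 * (K / ε) ^ (7 * m) * (‖A.F (u z)‖ ^ c * ‖B.F (v z)‖ ^ c') := by
        rw [f1, f2]
        ring
    _ ≤ C4 * (K / ε) ^ (7 * m) * (((1 + ‖A.P.leadingCoeff‖) ^ c * ∏ i, ‖UU a u i z‖ ^ cw c i) *
        ((1 + ‖B.P.leadingCoeff‖) ^ c' * ∏ i, ‖UU b v i z‖ ^ cw c' i)) :=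
        mul_le_mul_of_nonneg_left (mul_le_mul g1 g2 (by positivity) (mul_nonneg (by positivity)
          (Finset.prod_nonneg fun i _ => by positivity))) (by positivity)
    _ = _ := by ring

end Pool.Agent.K9h12.SG
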