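import Pool.Agent.K9h12.SG.Loc
import Pool.Agent.K9h12.SG.Psi2
import Pool.Agent.K9h12.SH.Han

/-!
Meromorphic functions near infinity without simple contacts: the main case.
-/

set_option autoImplicit false

open FF Polynomial Filter Metric Set Topology

namespace Pool.Agent.K9h12.SG

open Pool.Agent.W603.LV Pool.Agent.W602.GT Pool.Agent.W603.BP Pool.Agent.W601.PH
  Pool.Agent.W602.NC Pool.Agent.TH152.HY Pool.Agent.Y190.AN Pool.Agent.K9h12.AX
  Pool.Agent.K9h12.SH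

section classes

variable {D : Dm} {u : ℂ → Fin 2 → ℂ} (hu : ∀ j, MeromorphicOn (fun z => u z j) D.U)

theorem cl_fun_sum {ι : Type} (s : Finset ι) {f : ι → ℂ → ℂ}
    (hf : ∀ i, MeromorphicOn (f i) D.U) (h : MeromorphicOn (fun z => ∑ i ∈ s, f i z) D.U) :
    cl (fun z => ∑ i ∈ s, f i z) h = ∑ i ∈ s, cl (f i) (hf i) := by
  classical
  induction s using Finset.induction_on with
  | empty =>
    rw [Finset.sum_empty, ← map_zero (algebraMap ℂ (MK D)), ← cl_const, cl_eq]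
    intro z _
    exact Eventually.of_forall fun w => by simp
  | insert a s ha ih =>
    have h' : MeromorphicOn (fun z => ∑ i ∈ s, f i z) D.U := fun z hz =>
      MeromorphicAt.fun_sum fun i _ => hf i z hz
    rw [Finset.sum_insert ha, ← ih h', ← cl_fun_add (hf a) h' (by
      simpa only [Finset.sum_insert ha] using h), cl_eq]
    intro z _
    exact Eventually.of_forall fun w => by simp [Finset.sum_insert ha]

include hu in
theorem hm_mero (d : ℕ) (K : ℂ[X]) : MeromorphicOn (fun z => hm d K (u z)) D.U := by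
  intro z hz
  unfold hm
  exact MeromorphicAt.fun_sum fun i _ => (MeromorphicAt.const _ z).fun_mul
    (((hu 1 z hz).fun_pow _).fun_mul ((hu 0 z hz).fun_pow _))

theorem cl_hm (d : ℕ) (K : ℂ[X]) (h : MeromorphicOn (fun z => hm d K (u z)) D.U) :
    cl _ h = hm d K (clv hu) := by
  have p1 : ∀ i, MeromorphicOn (fun z => u z 1 ^ i) D.U := fun i z hz => (hu 1 z hz).fun_pow _
  have p0 : ∀ i, MeromorphicOn (fun z => u z 0 ^ (d - i)) D.U := fun i z hz =>
    (hu 0 z hz).fun_pow _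
  have p2 : ∀ i, MeromorphicOn (fun z => u z 1 ^ i * u z 0 ^ (d - i)) D.U := fun i z hz =>
    (p1 i z hz).fun_mul (p0 i z hz)
  have p3 : ∀ i, MeromorphicOn (fun z => algebraMap ℂ ℂ (K.coeff i) *
      (u z 1 ^ i * u z 0 ^ (d - i))) D.U := fun i z hz =>
    (MeromorphicAt.const _ z).fun_mul (p2 i z hz)
  have h1 := cl_fun_sum (Finset.range (d + 1)) p3 h
  rw [show cl (fun z => hm d K (u z)) h = _ from h1]
  unfold hm
  refine Finset.sum_congr rfl fun i _ => ?_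
  rw [cl_fun_mul (MeromorphicOn.const _) (p2 i), cl_fun_const, cl_fun_mul (p1 i) (p0 i),
    cl_fun_pow (hu 1), cl_fun_pow (hu 0)]
  rfl

include hu in
theorem chi_mero (A : Dat) : MeromorphicOn (fun z => A.chi (u z) (wr u z)) D.U := fun z hz =>
  (((hu 0 z hz).fun_mul (hm_mero hu (A.d + 1) A.K z hz)).fun_mul
    (hm_mero hu (A.p + 1) A.P z hz)).fun_mul (wr_mero hu z hz)

theorem cl_chi (A : Dat) (h : MeromorphicOn (fun z => A.chi (u z) (wr u z)) D.U) :
    cl _ h = A.chi (clv hu) (wrA (MDer D) (clv hu)) := by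
  have a1 := hm_mero hu (A.d + 1) A.K
  have a2 := hm_mero hu (A.p + 1) A.P
  have b1 : MeromorphicOn (fun z => u z 0 * hm (A.d + 1) A.K (u z)) D.U := fun z hz =>
    (hu 0 z hz).fun_mul (a1 z hz)
  have b2 : MeromorphicOn (fun z => u z 0 * hm (A.d + 1) A.K (u z) * hm (A.p + 1) A.P (u z)) D.U :=
    fun z hz => (b1 z hz).fun_mul (a2 z hz)
  have h1 := cl_fun_mul b2 (wr_mero hu) h
  rw [show cl (fun z => A.chi (u z) (wr u z)) h = _ from h1, cl_fun_mul b1 a2,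
    cl_fun_mul (hu 0) a1, cl_wr hu, cl_hm hu, cl_hm hu]
  rfl

include hu in
theorem phi_mero (A : Dat) : MeromorphicOn (fun z => A.phi (u z) (deriv (fun w => u w 0) z)
    (wr u z) (deriv (wr u) z)) D.U := fun z hz => by
  have a1 := hm_mero hu (A.d + 1) A.K z hz
  have a2 := hm_mero hu (A.p + 1) A.P z hz
  have a3 := hm_mero hu A.d A.N z hz
  have a4 := hm_mero hu A.p (derivative A.P) z hz
  have c2 : MeromorphicAt (fun _ : ℂ => (2 : ℂ)) z := MeromorphicAt.const _ z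
  have w := wr_mero hu z hz
  have w' : MeromorphicAt (deriv (wr u)) z := w.deriv
  have u' : MeromorphicAt (deriv fun w => u w 0) z := (hu 0 z hz).deriv
  exact (((((hu 0 z hz).fun_mul a1).fun_mul a2).fun_mul w').fun_sub
    ((((c2.fun_mul u').fun_mul a1).fun_mul a2).fun_mul w)).fun_add
    (((a3.fun_mul a2).fun_sub ((c2.fun_mul a1).fun_mul a4)).fun_mul (w.fun_pow 2))

theorem cl_phi (A : Dat) (h : MeromorphicOn (fun z => A.phi (u z) (deriv (fun w => u w 0) z)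
    (wr u z) (deriv (wr u) z)) D.U) :
    cl _ h = A.phi (clv hu) (MDer D (clv hu 0)) (wrA (MDer D) (clv hu))
      (MDer D (wrA (MDer D) (clv hu))) := by
  have a1 := hm_mero hu (A.d + 1) A.K
  have a2 := hm_mero hu (A.p + 1) A.P
  have a3 := hm_mero hu A.d A.N
  have a4 := hm_mero hu A.p (derivative A.P)
  have w := wr_mero hu
  have w' : MeromorphicOn (deriv (wr u)) D.U := w.deriv
  have u' : MeromorphicOn (deriv fun w => u w 0) D.U := (hu 0).deriv
  have c2 : MeromorphicOn (fun _ : ℂ => (2 : ℂ)) D.U := MeromorphicOn.const _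
  -- the first term
  have b1 : MeromorphicOn (fun z => u z 0 * hm (A.d + 1) A.K (u z)) D.U := fun z hz =>
    (hu 0 z hz).fun_mul (a1 z hz)
  have b2 : MeromorphicOn (fun z => u z 0 * hm (A.d + 1) A.K (u z) * hm (A.p + 1) A.P (u z)) D.U :=
    fun z hz => (b1 z hz).fun_mul (a2 z hz)
  have b3 : MeromorphicOn (fun z => u z 0 * hm (A.d + 1) A.K (u z) * hm (A.p + 1) A.P (u z) *
      deriv (wr u) z) D.U := fun z hz => (b2 z hz).fun_mul (w' z hz)
  -- the second term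
  have d1 : MeromorphicOn (fun z => 2 * deriv (fun w => u w 0) z) D.U := fun z hz =>
    (c2 z hz).fun_mul (u' z hz)
  have d2 : MeromorphicOn (fun z => 2 * deriv (fun w => u w 0) z * hm (A.d + 1) A.K (u z)) D.U :=
    fun z hz => (d1 z hz).fun_mul (a1 z hz)
  have d3 : MeromorphicOn (fun z => 2 * deriv (fun w => u w 0) z * hm (A.d + 1) A.K (u z) *
      hm (A.p + 1) A.P (u z)) D.U := fun z hz => (d2 z hz).fun_mul (a2 z hz)
  have d4 : MeromorphicOn (fun z => 2 * deriv (fun w => u w 0) z * hm (A.d + 1) A.K (u z) *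
      hm (A.p + 1) A.P (u z) * wr u z) D.U := fun z hz => (d3 z hz).fun_mul (w z hz)
  -- the third term
  have e1 : MeromorphicOn (fun z => hm A.d A.N (u z) * hm (A.p + 1) A.P (u z)) D.U :=
    fun z hz => (a3 z hz).fun_mul (a2 z hz)
  have e2 : MeromorphicOn (fun z => 2 * hm (A.d + 1) A.K (u z)) D.U :=
    fun z hz => (c2 z hz).fun_mul (a1 z hz)
  have e3 : MeromorphicOn (fun z => 2 * hm (A.d + 1) A.K (u z) *
      hm A.p (derivative A.P) (u z)) D.U := fun z hz => (e2 z hz).fun_mul (a4 z hz)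
  have e4 : MeromorphicOn (fun z => hm A.d A.N (u z) * hm (A.p + 1) A.P (u z) -
      2 * hm (A.d + 1) A.K (u z) * hm A.p (derivative A.P) (u z)) D.U := fun z hz =>
    (e1 z hz).fun_sub (e3 z hz)
  have e5 : MeromorphicOn (fun z => wr u z ^ 2) D.U := fun z hz => (w z hz).fun_pow 2
  have e6 : MeromorphicOn (fun z => (hm A.d A.N (u z) * hm (A.p + 1) A.P (u z) -
      2 * hm (A.d + 1) A.K (u z) * hm A.p (derivative A.P) (u z)) * wr u z ^ 2) D.U :=
    fun z hz => (e4 z hz).fun_mul (e5 z hz)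
  have f1 : MeromorphicOn (fun z => u z 0 * hm (A.d + 1) A.K (u z) * hm (A.p + 1) A.P (u z) *
      deriv (wr u) z - 2 * deriv (fun w => u w 0) z * hm (A.d + 1) A.K (u z) *
      hm (A.p + 1) A.P (u z) * wr u z) D.U := fun z hz => (b3 z hz).fun_sub (d4 z hz)
  have h1 := cl_fun_add f1 e6 h
  rw [show cl (fun z => A.phi (u z) (deriv (fun w => u w 0) z) (wr u z) (deriv (wr u) z)) h = _
    from h1, cl_fun_sub b3 d4, cl_fun_mul b2 w', cl_fun_mul b1 a2, cl_fun_mul (hu 0) a1,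
    cl_fun_mul d3 w, cl_fun_mul d2 a2, cl_fun_mul d1 a1, cl_fun_mul c2 u', cl_fun_mul e4 e5,
    cl_fun_sub e1 e3, cl_fun_mul a3 a2, cl_fun_mul e2 a4, cl_fun_mul c2 a1, cl_fun_pow w,
    cl_fun_const, cl_hm hu, cl_hm hu, cl_hm hu, cl_hm hu, cl_deriv w, cl_deriv (hu 0), cl_wr hu,
    map_ofNat]
  rfl

variable {v : ℂ → Fin 2 → ℂ} (hv : ∀ j, MeromorphicOn (fun z => v z j) D.U)

include hu hv in
theorem Auxf_mero (A B : Dat) (m : ℕ) : MeromorphicOn (Auxf A B m u v) D.U := fun z hz =>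
  (((((chi_mero hv B z hz).fun_mul (phi_mero hu A z hz)).fun_sub
    ((chi_mero hu A z hz).fun_mul (phi_mero hv B z hz))).fun_pow m).fun_mul
    (((wr_mero hu z hz).fun_mul (wr_mero hv z hz)).fun_pow (2 * m))).fun_mul
    (((hu 0 z hz).fun_mul (hv 0 z hz)).fun_pow m)

theorem cl_Auxf (A B : Dat) (m : ℕ) (h : MeromorphicOn (Auxf A B m u v) D.U) :
    cl _ h = AuxA A B m (MDer D) (clv hu) (clv hv) := by
  have x1 := chi_mero hu A
  have x2 := chi_mero hv B
  have y1 := phi_mero hu A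
  have y2 := phi_mero hv B
  have w1 := wr_mero hu
  have w2 := wr_mero hv
  have t1 : MeromorphicOn (fun z => B.chi (v z) (wr v z) *
      A.phi (u z) (deriv (fun w => u w 0) z) (wr u z) (deriv (wr u) z)) D.U := fun z hz =>
    (x2 z hz).fun_mul (y1 z hz)
  have t2 : MeromorphicOn (fun z => A.chi (u z) (wr u z) *
      B.phi (v z) (deriv (fun w => v w 0) z) (wr v z) (deriv (wr v) z)) D.U := fun z hz =>
    (x1 z hz).fun_mul (y2 z hz)
  have t3 : MeromorphicOn (fun z => B.chi (v z) (wr v z) *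
      A.phi (u z) (deriv (fun w => u w 0) z) (wr u z) (deriv (wr u) z) -
      A.chi (u z) (wr u z) *
      B.phi (v z) (deriv (fun w => v w 0) z) (wr v z) (deriv (wr v) z)) D.U := fun z hz =>
    (t1 z hz).fun_sub (t2 z hz)
  have t4 : MeromorphicOn (fun z => (B.chi (v z) (wr v z) *
      A.phi (u z) (deriv (fun w => u w 0) z) (wr u z) (deriv (wr u) z) -
      A.chi (u z) (wr u z) *
      B.phi (v z) (deriv (fun w => v w 0) z) (wr v z) (deriv (wr v) z)) ^ m) D.U := fun z hz =>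
    (t3 z hz).fun_pow m
  have t5 : MeromorphicOn (fun z => wr u z * wr v z) D.U := fun z hz =>
    (w1 z hz).fun_mul (w2 z hz)
  have t6 : MeromorphicOn (fun z => (wr u z * wr v z) ^ (2 * m)) D.U := fun z hz =>
    (t5 z hz).fun_pow _
  have t7 : MeromorphicOn (fun z => u z 0 * v z 0) D.U := fun z hz =>
    (hu 0 z hz).fun_mul (hv 0 z hz)
  have t8 : MeromorphicOn (fun z => (u z 0 * v z 0) ^ m) D.U := fun z hz =>
    (t7 z hz).fun_pow _
  have t9 : MeromorphicOn (fun z => (B.chi (v z) (wr v z) *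
      A.phi (u z) (deriv (fun w => u w 0) z) (wr u z) (deriv (wr u) z) -
      A.chi (u z) (wr u z) *
      B.phi (v z) (deriv (fun w => v w 0) z) (wr v z) (deriv (wr v) z)) ^ m *
      (wr u z * wr v z) ^ (2 * m)) D.U := fun z hz => (t4 z hz).fun_mul (t6 z hz)
  have h1 := cl_fun_mul t9 t8 h
  rw [show cl (Auxf A B m u v) h = _ from h1, cl_fun_mul t4 t6, cl_fun_pow t3, cl_fun_sub t1 t2,
    cl_fun_mul x2 y1, cl_fun_mul x1 y2, cl_chi hu, cl_chi hv, cl_phi hu, cl_phi hv,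
    cl_fun_pow t5, cl_fun_mul w1 w2, cl_wr hu, cl_wr hv, cl_fun_pow t7,
    cl_fun_mul (hu 0) (hv 0)]
  rfl

end classes

/-- the weights of the forms -/
theorem ord_cw {L : Type} [Field L] [Algebra ℂ L] (P : Place ℂ L) {M : ℕ} {R : ℂ[X]}
    {a : Fin M → ℂ} (hR : R = C R.leadingCoeff * ∏ i, (X - C (a i))) (hM : R.natDegree = M)
    (hR0 : R ≠ 0) (c : ℕ) {u : Fin 2 → L} (h : hm M R u ≠ 0) :
    (∀ i : Fin M, ell a i.succ u ≠ 0) ∧
    ∑ i : Fin (M + 1), (cw c i : ℤ) * P.ord (ell a i u) = c * P.ord (hm M R u) := by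
  have h1 := hm_prod hR hM u
  have hne : ∀ i : Fin M, ell a i.succ u ≠ 0 := by
    intro i h0
    apply h
    rw [h1, Finset.prod_eq_zero (Finset.mem_univ i) h0, mul_zero]
  refine ⟨hne, ?_⟩
  have hl : algebraMap ℂ L R.leadingCoeff ≠ 0 :=
    (_root_.map_ne_zero _).2 (leadingCoeff_ne_zero.2 hR0)
  have hp : ∏ i : Fin M, ell a i.succ u ≠ 0 := Finset.prod_ne_zero_iff.2 fun i _ => hne i
  rw [h1, P.ord_mul hl hp, P.ord_const (leadingCoeff_ne_zero.2 hR0), zero_add,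
    Fin.sum_univ_succ, cw_zero, Nat.cast_zero, zero_mul, zero_add]
  have h2 : ∀ s : Finset (Fin M), P.ord (∏ i ∈ s, ell a i.succ u) =
      ∑ i ∈ s, P.ord (ell a i.succ u) := by
    intro s
    classical
    induction s using Finset.induction_on with
    | empty => simp [P.ord_one]
    | insert i s hi ih =>
      rw [Finset.prod_insert hi, Finset.sum_insert hi, P.ord_mul (hne i)
        (Finset.prod_ne_zero_iff.2 fun i _ => hne i), ih]
  rw [h2, Finset.mul_sum]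
  exact Finset.sum_congr rfl fun i _ => by rw [cw_succ]

/-- the numerical conditions on the weights -/
structure Wt (A B : Dat) (m c c' κ κ' : ℕ) : Prop where
  m1 : m ≤ c
  m2 : c ≤ 2 * m
  sum : c + c' = 3 * m
  hκ : c * (A.p + 1) = m * (A.p + A.d + 10) + κ
  hκ' : c' * (B.p + 1) = m * (B.p + B.d + 10) + κ'
  κ0 : 0 < κ
  κ0' : 0 < κ'
  m0 : 0 < m

/-- **The main case.** -/
theorem an_main {A B : Dat} (hA : A.Ok) (hB : B.Ok) {m c c' κ κ' : ℕ} (hW : Wt A B m c c' κ κ')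
    {x y : MK (exD 1 one_pos)} (hx : MDer (exD 1 one_pos) x ≠ 0) (hy : MDer (exD 1 one_pos) y ≠ 0)
    (hJ : Jet1 A B (MDer (exD 1 one_pos)) x y ≠ 0)
    (hst : ∀ (z : ℂ) (hz : z ∈ (exD 1 one_pos).U), Ge (PL hz) 0 x → Ge (PL hz) 0 y →
      (PL hz).ord (aeval x A.P) + (PL hz).ord (aeval y B.P) ≠ 1) :
    x ∈ Minf 1 one_pos ∧ y ∈ Minf 1 one_pos := by
  obtain ⟨a, ha, hPa⟩ : ∃ a : Fin (A.p + 1) → ℂ, Function.Injective a ∧
      A.P = C A.P.leadingCoeff * ∏ i, (X - C (a i)) := by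
    rw [← hA.deg]; exact exists_roots hA.sep
  obtain ⟨b, hb, hPb⟩ : ∃ b : Fin (B.p + 1) → ℂ, Function.Injective b ∧
      B.P = C B.P.leadingCoeff * ∏ i, (X - C (b i)) := by
    rw [← hB.deg]; exact exists_roots hB.sep
  obtain ⟨r1, hr1, u, hu, hu1, hu2, hu0, hux⟩ := prim_vec x
  obtain ⟨r2, hr2, v, hv, hv1, hv2, hv0, hvy⟩ := prim_vec y
  set r : ℝ := max r1 r2 with hr
  have hr0 : 1 < r := lt_of_lt_of_le hr1 (le_max_left _ _)
  have hE1 : Ext r ⊆ Ext r1 := Ext_mono (le_max_left _ _)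
  have hE2 : Ext r ⊆ Ext r2 := Ext_mono (le_max_right _ _)
  have hE0 : Ext r ⊆ (exD 1 one_pos).U := Ext_mono hr0.le
  have hloc : ∀ z (hz : z ∈ Ext r), ∃ e e' : ℤ, A.F (clv hu) ≠ 0 ∧ B.F (clv hv) ≠ 0 ∧
      (PL (hE0 hz)).ord (A.F (clv hu)) = e ∧ (PL (hE0 hz)).ord (B.F (clv hv)) = e' ∧
      AuxA A B m (MDer (exD 1 one_pos)) (clv hu) (clv hv) ≠ 0 ∧ c * e + c' * e' ≤
        (PL (hE0 hz)).ord (AuxA A B m (MDer (exD 1 one_pos)) (clv hu) (clv hv)) := by
    intro z hz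
    obtain ⟨e, ρ, s, h1⟩ := loc_coord (nice_PL (hE0 hz)) hA hu0 hux
      (prim_at hr1 hu1 hu2 (hE1 hz) (hE0 hz)).1 (prim_at hr1 hu1 hu2 (hE1 hz) (hE0 hz)).2.1
      (prim_at hr1 hu1 hu2 (hE1 hz) (hE0 hz)).2.2 hx
    obtain ⟨e', ρ', s', h2⟩ := loc_coord (nice_PL (hE0 hz)) hB hv0 hvy
      (prim_at hr2 hv1 hv2 (hE2 hz) (hE0 hz)).1 (prim_at hr2 hv1 hv2 (hE2 hz) (hE0 hz)).2.1
      (prim_at hr2 hv1 hv2 (hE2 hz) (hE0 hz)).2.2 hy
    obtain ⟨n1, -, n3⟩ := loc_aux (nice_PL (hE0 hz)) hA hB hu0 hv0 hux hvy hx hy hJ hW.m1 hW.m2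
      hW.sum h1 h2
    exact ⟨e, e', h1.Fne, h2.Fne, h1.oF, h2.oF, n1, n3 (hst z (hE0 hz))⟩
  obtain ⟨z1, hz1⟩ := Ext_nonempty r
  obtain ⟨-, -, hF0, hG0, -, -, hAux0, -⟩ := hloc z1 hz1
  obtain ⟨C0, hC1, hC⟩ := Auxf_bound hA hB ha hPa hb hPb (m := m) (c := c) (c' := c')
    (by have := hW.m2; omega) (by have := hW.m1; have := hW.sum; omega) hW.hκ hW.hκ'
  have hPm := Auxf_mero hu hv A B m
  have hPc := cl_Auxf hu hv A B m hPm
  have hpos : 0 < r := by linarith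
  have hUn : ∀ i, ell a i (clv hu) ≠ 0 := by
    intro i
    refine Fin.cases hu0 (fun k => ?_) i
    exact (ord_cw (PL (hE0 hz1)) hPa hA.deg hA.ne c hF0).1 k
  have hVn : ∀ i, ell b i (clv hv) ≠ 0 := by
    intro i
    refine Fin.cases hv0 (fun k => ?_) i
    exact (ord_cw (PL (hE0 hz1)) hPb hB.deg hB.ne c' hG0).1 k
  have hUc : ∀ i, cl _ (UU_mero hu a i) ≠ 0 := fun i => by rw [cl_UU hu]; exact hUn i
  have hVc : ∀ i, cl _ (UU_mero hv b i) ≠ 0 := fun i => by rw [cl_UU hv]; exact hVn i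
  have hsum : ∀ (M k : ℕ), ∑ i : Fin (M + 1 + 1), cw k i = (M + 1) * k := by
    intro M k
    rw [Fin.sum_univ_succ, cw_zero, zero_add]
    simp
  have hc1 : 1 ≤ ∑ i : Fin (A.p + 1 + 1), cw c i := by
    rw [hsum]
    have := hW.m1
    have := hW.m0
    nlinarith [Nat.zero_le A.p]
  have hc1' : 1 ≤ ∑ i : Fin (B.p + 1 + 1), cw c' i := by
    rw [hsum]
    have := hW.m2
    have := hW.m0
    have := hW.sum
    have h9 : 1 ≤ c' := by omega
    nlinarith [Nat.zero_le B.p]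
  have hmain := two_ext (r0 := r) hpos (cw c) (cw c') hc1 hc1'
    (κ := κ) (κ' := κ') (Nn := 7 * m) hW.κ0 hW.κ0' hC1
    (U := UU a u) (V := UU b v) (fun i z hz => UU_an (hu1 z (hE1 hz)) i)
    (fun i z hz => UU_an (hv1 z (hE2 hz)) i)
    (fun i => exists_ne (hUc i) (Ext_open r) hE0 ⟨z1, hz1⟩)
    (fun i => exists_ne (hVc i) (Ext_open r) hE0 ⟨z1, hz1⟩)
    (P := Auxf A B m u v)
    (fun z hz => Auxf_an A B m (hu1 z (hE1 hz)) (hv1 z (hE2 hz)))
    (exists_ne (hf := hPm) (by rw [hPc]; exact hAux0) (Ext_open r) hE0 ⟨z1, hz1⟩) ?_ ?_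
  · constructor
    · obtain ⟨R, hR, R0, hR0⟩ := hmain (0 : Fin (A.p + 1)).succ 0
      exact minf_of_rel hu0 hux (a := a) 0 (UU_mero hv b 0) (hVc 0) hR hR0
    · obtain ⟨R, hR, R0, hR0⟩ := hmain 0 (0 : Fin (B.p + 1)).succ
      refine minf_of_rel hv0 hvy (a := b) 0 (UU_mero hu a 0) (hUc 0) hR
        (R0 := R0) fun z hz => ?_
      have := hR0 z hz
      linear_combination this
  · intro z hz n k hn hk
    obtain ⟨e, e', f1, f2, f3, f4, f5, f6⟩ := hloc z hz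
    apply le_order (hf := hPm) (hE0 hz) (Auxf_an A B m (hu1 z (hE1 hz)) (hv1 z (hE2 hz)))
    rw [hPc]
    refine le_trans (le_of_eq ?_) f6
    have e1 : ∀ i, (PL (hE0 hz)).ord (ell a i (clv hu)) = n i := fun i => by
      rw [← cl_UU hu a i (UU_mero hu a i)]
      exact ord_cl (hE0 hz) (UU_an (hu1 z (hE1 hz)) i) (hn i)
    have e2 : ∀ i, (PL (hE0 hz)).ord (ell b i (clv hv)) = k i := fun i => by
      rw [← cl_UU hv b i (UU_mero hv b i)]
      exact ord_cl (hE0 hz) (UU_an (hv1 z (hE2 hz)) i) (hk i)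
    have g1 := (ord_cw (PL (hE0 hz)) hPa hA.deg hA.ne c f1).2
    have g2 := (ord_cw (PL (hE0 hz)) hPb hB.deg hB.ne c' f2).2
    have f3' : (PL (hE0 hz)).ord (hm (A.p + 1) A.P (clv hu)) = e := f3
    have f4' : (PL (hE0 hz)).ord (hm (B.p + 1) B.P (clv hv)) = e' := f4
    rw [f3'] at g1
    rw [f4'] at g2
    simp only [e1] at g1
    simp only [e2] at g2
    rw [← g1, ← g2]
    push_cast
    rfl
  · intro z ε β hε hε1 hβ hball hcu hcv
    exact hC u v z ε β hε hε1 hβ (fun w hw => hu1 w (hE1 (hball hw)))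
      (fun w hw => hv1 w (hE2 (hball hw))) hcu hcv

end Pool.Agent.K9h12.SG
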