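import Pool.Agent.K9h12.SG.Loc
import Mathlib.LinearAlgebra.Dimension.Constructions

/-!
The order of a polynomial, and the pairs `(K, N)` with `K P'' = N P'` modulo `P`.
-/

set_option autoImplicit false

open Polynomial

namespace Pool.Agent.K9h12.SG

open Pool.Agent.K9h12.SH

/-- The polynomial `P` has order at most `a`: it divides `K P'' - N P'` for some polynomials `K`,
`N` with `K` not zero, of degrees at most `a` and less than `a`. -/
def OrderLe (P : ℂ[X]) (a : ℕ) : Prop :=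
  ∃ K N : ℂ[X], K ≠ 0 ∧ K.natDegree ≤ a ∧ N.natDegree < a ∧
    P ∣ K * derivative (derivative P) - N * derivative P

/-- the pairs of weight at most `w` -/
def Lam (P : ℂ[X]) (w : ℕ) : Submodule ℂ (ℂ[X] × ℂ[X]) where
  carrier := {z | z.1 ∈ degreeLT ℂ (w + 1) ∧ z.2 ∈ degreeLT ℂ w ∧
    P ∣ z.1 * derivative (derivative P) - z.2 * derivative P}
  add_mem' := by
    rintro z z' ⟨h1, h2, h3⟩ ⟨h1', h2', h3'⟩
    refine ⟨add_mem h1 h1', add_mem h2 h2', ?_⟩
    have := dvd_add h3 h3'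
    convert this using 1
    simp only [Prod.fst_add, Prod.snd_add]
    ring
  zero_mem' := ⟨zero_mem _, zero_mem _, by simp⟩
  smul_mem' := by
    rintro c z ⟨h1, h2, h3⟩
    refine ⟨Submodule.smul_mem _ _ h1, Submodule.smul_mem _ _ h2, ?_⟩
    have := h3.mul_left (C c)
    convert this using 1
    simp only [Prod.smul_fst, Prod.smul_snd, smul_eq_C_mul]
    ring

theorem Lam_emb (P : ℂ[X]) (w : ℕ) : ∃ f : Lam P w →ₗ[ℂ] (degreeLT ℂ (w + 1) × degreeLT ℂ w),
    Function.Injective f := by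
  let f : Lam P w →ₗ[ℂ] (degreeLT ℂ (w + 1) × degreeLT ℂ w) :=
    { toFun := fun z => (⟨z.1.1, z.2.1⟩, ⟨z.1.2, z.2.2.1⟩)
      map_add' := fun _ _ => rfl
      map_smul' := fun _ _ => rfl }
  refine ⟨f, fun z z' h => ?_⟩
  have h1 := congrArg (fun t : degreeLT ℂ (w + 1) × degreeLT ℂ w => (t.1 : ℂ[X])) h
  have h2 := congrArg (fun t : degreeLT ℂ (w + 1) × degreeLT ℂ w => (t.2 : ℂ[X])) h
  exact Subtype.ext (Prod.ext h1 h2)

theorem nd {R : ℂ[X]} {n : ℕ} (h : R ∈ degreeLT ℂ (n + 1)) : R.natDegree ≤ n := by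
  rw [mem_degreeLT, degree_lt_iff_coeff_zero] at h
  rw [natDegree_le_iff_coeff_eq_zero]
  exact fun k hk => h k hk

theorem finite_degreeLT (n : ℕ) : Module.Finite ℂ (degreeLT ℂ n) ∧
    Module.finrank ℂ (degreeLT ℂ n) = n := by
  have e := degreeLTEquiv ℂ n
  exact ⟨Module.Finite.equiv e.symm, by rw [e.finrank_eq]; simp⟩

theorem Lam_finite (P : ℂ[X]) (w : ℕ) : Module.Finite ℂ (Lam P w) := by
  have h1 := (finite_degreeLT (w + 1)).1
  have h2 := (finite_degreeLT w).1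
  obtain ⟨f, hf⟩ := Lam_emb P w
  exact Module.Finite.of_injective f hf

theorem Lam_mono (P : ℂ[X]) (w : ℕ) : Lam P w ≤ Lam P (w + 1) := by
  rintro z ⟨h1, h2, h3⟩
  exact ⟨degreeLT_mono (Nat.le_succ _) h1, degreeLT_mono (Nat.le_succ _) h2, h3⟩

/-- divisibility by a separable polynomial -/
theorem dvd_iff {P : ℂ[X]} (hP : P.Separable) (hP0 : P ≠ 0) (F : ℂ[X]) :
    P ∣ F ↔ ∀ c, P.IsRoot c → F.IsRoot c := by
  constructor
  · intro h c hc
    exact hc.dvd h
  · intro h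
    by_cases hF : F = 0
    · rw [hF]; exact dvd_zero _
    rw [(IsAlgClosed.splits P).dvd_iff_roots_le_roots hP0 hF, Multiset.le_iff_subset (nodup_roots hP)]
    intro c hc
    rw [mem_roots hF]
    exact h c (isRoot_of_mem_roots hc)

/-- the lower bound for the dimension -/
theorem le_finrank {P : ℂ[X]} (hP : P.Separable) (hP0 : P ≠ 0) (w : ℕ) :
    2 * w + 1 ≤ P.natDegree + Module.finrank ℂ (Lam P w) := by
  classical
  obtain ⟨f1, r1⟩ := finite_degreeLT (w + 1)
  obtain ⟨f2, r2⟩ := finite_degreeLT w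
  have f3 := Lam_finite P w
  have hcard : Fintype.card P.roots.toFinset = P.natDegree := by
    rw [Fintype.card_coe, Multiset.toFinset_card_of_nodup (nodup_roots hP)]
    exact (IsAlgClosed.splits P).natDegree_eq_card_roots.symm
  let g : (degreeLT ℂ (w + 1) × degreeLT ℂ w) →ₗ[ℂ] (P.roots.toFinset → ℂ) :=
    { toFun := fun z i => ((z.1 : ℂ[X]) * derivative (derivative P) -
        (z.2 : ℂ[X]) * derivative P).eval (i : ℂ)
      map_add' := by
        intro z z'
        funext i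
        simp only [Prod.fst_add, Prod.snd_add, Submodule.coe_add, eval_sub, eval_mul, eval_add,
          Pi.add_apply]
        ring
      map_smul' := by
        intro c z
        funext i
        simp only [Prod.smul_fst, Prod.smul_snd, Submodule.coe_smul, eval_sub, eval_mul,
          eval_smul, Pi.smul_apply, smul_eq_mul, RingHom.id_apply]
        ring }
  have h1 := g.finrank_range_add_finrank_ker
  rw [Module.finrank_prod, r1, r2] at h1
  have h2 : Module.finrank ℂ (LinearMap.range g) ≤ P.natDegree := by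
    have := Submodule.finrank_le (LinearMap.range g)
    rwa [Module.finrank_fintype_fun_eq_card, hcard] at this
  have h3 : Module.finrank ℂ (LinearMap.ker g) ≤ Module.finrank ℂ (Lam P w) := by
    have hmem : ∀ z : LinearMap.ker g, ((z.1.1 : ℂ[X]), (z.1.2 : ℂ[X])) ∈ Lam P w := by
      intro z
      refine ⟨z.1.1.2, z.1.2.2, (dvd_iff hP hP0 _).2 fun c hc => ?_⟩
      have h4 := LinearMap.mem_ker.1 z.2
      exact congrFun h4 ⟨c, by rw [Multiset.mem_toFinset, mem_roots hP0]; exact hc⟩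
    let j : LinearMap.ker g →ₗ[ℂ] Lam P w :=
      { toFun := fun z => ⟨((z.1.1 : ℂ[X]), (z.1.2 : ℂ[X])), hmem z⟩
        map_add' := fun _ _ => rfl
        map_smul' := fun _ _ => rfl }
    refine LinearMap.finrank_le_finrank_of_injective (f := j) fun z z' h => ?_
    have h4 := congrArg (fun t : Lam P w => (t : ℂ[X] × ℂ[X]).1) h
    have h5 := congrArg (fun t : Lam P w => (t : ℂ[X] × ℂ[X]).2) h
    exact Subtype.ext (Prod.ext (Subtype.ext h4) (Subtype.ext h5))
  omega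

/-- the pairs with `K = 0` -/
theorem pair_zero {P : ℂ[X]} (hP : P.Separable) {N : ℂ[X]} (hN : N ∈ degreeLT ℂ P.natDegree)
    (h : P ∣ 0 * derivative (derivative P) - N * derivative P) : N = 0 := by
  by_contra h0
  rw [zero_mul, zero_sub, dvd_neg] at h
  have h1 : P ∣ N := (hP : IsCoprime P (derivative P)).dvd_of_dvd_mul_right h
  have h2 := natDegree_le_of_dvd h1 h0
  rw [mem_degreeLT, degree_eq_natDegree h0] at hN
  have h3 : N.natDegree < P.natDegree := by exact_mod_cast hN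
  omega

theorem lt_of_order {P : ℂ[X]} (hP0 : P ≠ 0) {a : ℕ} (ha : 0 < a) (h : ¬ OrderLe P a) :
    a < P.natDegree := by
  by_contra hcon
  exact h ⟨P, 0, hP0, by omega, by simpa using ha, by simp⟩

theorem Lam_bot {P : ℂ[X]} (hP : P.Separable) (hP0 : P ≠ 0) {a : ℕ} (ha : 0 < a)
    (h : ¬ OrderLe P a) : Lam P a = ⊥ := by
  rw [Submodule.eq_bot_iff]
  rintro ⟨K, N⟩ ⟨h1, h2, h3⟩
  have hlt := lt_of_order hP0 ha h
  have hK : K = 0 := by
    by_contra hK
    refine h ⟨K, N, hK, ?_, ?_, h3⟩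
    · rw [mem_degreeLT, degree_eq_natDegree hK] at h1
      have : K.natDegree < a + 1 := by exact_mod_cast h1
      omega
    · by_cases hN : N = 0
      · rw [hN]; simpa using ha
      · rw [mem_degreeLT, degree_eq_natDegree hN] at h2
        exact_mod_cast h2
  subst hK
  have h4 : N = 0 := pair_zero hP (degreeLT_mono hlt.le h2) h3
  rw [h4]
  rfl

/-- the leading coefficients -/
noncomputable def lead (P : ℂ[X]) (w : ℕ) : Lam P (w + 1) →ₗ[ℂ] (ℂ × ℂ) where
  toFun z := (z.1.1.coeff (w + 1), z.1.2.coeff w)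
  map_add' z z' := by simp
  map_smul' c z := by simp

theorem lead_ker (P : ℂ[X]) (w : ℕ) :
    Module.finrank ℂ (LinearMap.ker (lead P w)) ≤ Module.finrank ℂ (Lam P w) := by
  have f1 := Lam_finite P w
  have red : ∀ (R : ℂ[X]) (n : ℕ), R ∈ degreeLT ℂ (n + 1) → R.coeff n = 0 →
      R ∈ degreeLT ℂ n := by
    intro R n hR hc
    rw [mem_degreeLT] at hR ⊢
    rw [degree_lt_iff_coeff_zero] at hR ⊢
    intro k hk
    rcases hk.eq_or_lt with rfl | hk
    · exact hc
    · exact hR k hk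
  have hmem : ∀ z : LinearMap.ker (lead P w), ((z : Lam P (w + 1)) : ℂ[X] × ℂ[X]) ∈ Lam P w := by
    rintro ⟨⟨⟨K, N⟩, h1, h2, h3⟩, hz⟩
    have h4 : (K.coeff (w + 1), N.coeff w) = (0 : ℂ × ℂ) := hz
    have h5 : K.coeff (w + 1) = 0 := congrArg Prod.fst h4
    have h6 : N.coeff w = 0 := congrArg Prod.snd h4
    exact ⟨red K (w + 1) h1 h5, red N w h2 h6, h3⟩
  have hle : (LinearMap.ker (lead P w)).map (Lam P (w + 1)).subtype ≤ Lam P w := by
    rintro _ ⟨z, hz, rfl⟩
    exact hmem ⟨z, hz⟩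
  rw [← Submodule.finrank_map_subtype_eq (Lam P (w + 1)) (LinearMap.ker (lead P w))]
  exact Submodule.finrank_mono hle

theorem lead_range (P : ℂ[X]) (w : ℕ)
    (hprop : ∀ z ∈ Lam P (w + 1), ∀ z' ∈ Lam P (w + 1), z.1 * z'.2 = z'.1 * z.2) :
    Module.finrank ℂ (LinearMap.range (lead P w)) ≤ 1 := by
  have hpr : ∀ r ∈ LinearMap.range (lead P w), ∀ r' ∈ LinearMap.range (lead P w),
      r.1 * r'.2 = r'.1 * r.2 := by
    rintro r ⟨⟨⟨K, N⟩, h1, h2, h3⟩, rfl⟩ r' ⟨⟨⟨K', N'⟩, h1', h2', h3'⟩, rfl⟩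
    have h4 : K * N' = K' * N := hprop (K, N) ⟨h1, h2, h3⟩ (K', N') ⟨h1', h2', h3'⟩
    have h5 : (K * N').coeff (w + 1 + w) = (K' * N).coeff (w + 1 + w) := by rw [h4]
    rw [coeff_mul_add_eq_of_natDegree_le (nd h1) (nd h2'),
      coeff_mul_add_eq_of_natDegree_le (nd h1') (nd h2)] at h5
    exact h5
  by_cases hz : ∃ r ∈ LinearMap.range (lead P w), r ≠ 0
  · obtain ⟨r, hr, hr0⟩ := hz
    refine finrank_le_one (⟨r, hr⟩ : LinearMap.range (lead P w)) fun w' => ?_
    have h5 := hpr r hr w'.1 w'.2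
    by_cases h6 : r.1 = 0
    · have h7 : r.2 ≠ 0 := fun h7 => hr0 (Prod.ext h6 h7)
      refine ⟨w'.1.2 / r.2, Subtype.ext (Prod.ext ?_ ?_)⟩
      · change w'.1.2 / r.2 * r.1 = w'.1.1
        rw [h6, zero_mul] at h5
        rw [h6, mul_zero]
        exact ((mul_eq_zero.1 h5.symm).resolve_right h7).symm
      · change w'.1.2 / r.2 * r.2 = w'.1.2
        field_simp
    · refine ⟨w'.1.1 / r.1, Subtype.ext (Prod.ext ?_ ?_)⟩
      · change w'.1.1 / r.1 * r.1 = w'.1.1
        field_simp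
      · change w'.1.1 / r.1 * r.2 = w'.1.2
        rw [div_mul_eq_mul_div, div_eq_iff h6, ← h5, mul_comm]
  · push Not at hz
    have h5 : LinearMap.range (lead P w) = ⊥ := by
      rw [Submodule.eq_bot_iff]
      exact hz
    rw [h5]
    simp

/-- the upper bound for the dimension if all pairs are proportional -/
theorem finrank_le {P : ℂ[X]} (hP : P.Separable) (hP0 : P ≠ 0) {a : ℕ} (ha : 0 < a)
    (h : ¬ OrderLe P a) (d : ℕ)
    (hprop : ∀ z ∈ Lam P (a + d), ∀ z' ∈ Lam P (a + d), z.1 * z'.2 = z'.1 * z.2) :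
    Module.finrank ℂ (Lam P (a + d)) ≤ d := by
  induction d with
  | zero =>
    rw [add_zero, Lam_bot hP hP0 ha h]
    simp
  | succ d ih =>
    have f1 := Lam_finite P (a + d)
    have f2 := Lam_finite P (a + d + 1)
    rw [← add_assoc] at hprop ⊢
    have ih' := ih fun z hz z' hz' => hprop z (Lam_mono P _ hz) z' (Lam_mono P _ hz')
    have h1 := (lead P (a + d)).finrank_range_add_finrank_ker
    have h2 := lead_range P (a + d) hprop
    have h3 := lead_ker P (a + d)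
    omega

/-- **Two pairs which are not proportional.** -/
theorem exists_two {P : ℂ[X]} (hP : P.Separable) (hP0 : P ≠ 0) {a : ℕ} (ha : 0 < a)
    (h : ¬ OrderLe P a) : 2 * a < P.natDegree ∧ ∃ K₁ N₁ K₂ N₂ : ℂ[X],
      (K₁ ≠ 0 ∧ K₁.natDegree ≤ P.natDegree - a ∧ N₁.natDegree < P.natDegree - a ∧
        P ∣ K₁ * derivative (derivative P) - N₁ * derivative P) ∧
      (K₂ ≠ 0 ∧ K₂.natDegree ≤ P.natDegree - a ∧ N₂.natDegree < P.natDegree - a ∧
        P ∣ K₂ * derivative (derivative P) - N₂ * derivative P) ∧ N₁ * K₂ ≠ N₂ * K₁ := by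
  have h1 : 2 * a < P.natDegree := by
    have h2 := le_finrank hP hP0 a
    rw [Lam_bot hP hP0 ha h] at h2
    simp at h2
    omega
  refine ⟨h1, ?_⟩
  obtain ⟨d, hd⟩ : ∃ d, P.natDegree - a = a + d := ⟨P.natDegree - a - a, by omega⟩
  by_contra hcon
  have hprop : ∀ z ∈ Lam P (a + d), ∀ z' ∈ Lam P (a + d), z.1 * z'.2 = z'.1 * z.2 := by
    by_contra hne
    push Not at hne
    obtain ⟨z, hz, z', hz', hzz⟩ := hne
    have key : ∀ t ∈ Lam P (a + d), t.1.natDegree ≤ a + d ∧ t.2.natDegree < a + d ∧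
        (t.1 = 0 → t.2 = 0) := by
      rintro ⟨K, N⟩ ⟨t1, t2, t3⟩
      refine ⟨?_, ?_, fun h0 => ?_⟩
      · exact nd t1
      · by_cases hN : N = 0
        · simp only [hN, natDegree_zero]
          omega
        · rw [mem_degreeLT, degree_eq_natDegree hN] at t2
          exact_mod_cast t2
      · simp only at h0
        subst h0
        exact pair_zero hP (degreeLT_mono (by omega) t2) t3
    obtain ⟨a1, a2, a3⟩ := key z hz
    obtain ⟨b1, b2, b3⟩ := key z' hz'
    have n1 : z.1 ≠ 0 := fun h0 => hzz (by rw [h0, a3 h0]; ring)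
    have n2 : z'.1 ≠ 0 := fun h0 => hzz (by rw [h0, b3 h0]; ring)
    refine hcon ⟨z.1, z.2, z'.1, z'.2, ⟨n1, by omega, by omega, hz.2.2⟩,
      ⟨n2, by omega, by omega, hz'.2.2⟩, fun h0 => hzz ?_⟩
    rw [mul_comm z.1, ← h0, mul_comm]
  have h2 := finrank_le hP hP0 ha h d hprop
  have h3 := le_finrank hP hP0 (a + d)
  omega

variable {L : Type} [Field L] [Algebra ℂ L]

/-- **One of the two jet differentials does not vanish.** -/
theorem jet_or {A A' B : Dat} (hA : A.Ok) (hA' : A'.Ok) (hB : B.Ok) (hP : A'.P = A.P)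
    (hne : A.N * A'.K ≠ A'.N * A.K) {D : Derivation ℂ L L} {x y : L} (hx : D x ≠ 0)
    (hy : D y ≠ 0) : Jet1 A B D x y ≠ 0 ∨ Jet1 A' B D x y ≠ 0 := by
  by_contra hcon
  push Not at hcon
  obtain ⟨h1, h2⟩ := hcon
  rw [Jet1_eq hA hB] at h1
  rw [Jet1_eq hA' hB, hP] at h2
  have nz : ∀ {z : L}, D z ≠ 0 → ∀ {R : ℂ[X]}, R ≠ 0 → aeval z R ≠ 0 := by
    intro z hz R hR h0
    obtain ⟨c, hc⟩ := Pool.Agent.W602.GT.const_of_algebraic (⟨R, hR, h0⟩ : IsAlgebraic ℂ z)
    exact const_of_eq hz c hc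
  have e1 : (aeval y B.K * aeval y B.P * D y) * ((aeval x (A.N * A'.K) - aeval x (A'.N * A.K)) *
      aeval x A.P * D x ^ 2) = 0 := by
    simp only [map_mul]
    linear_combination (aeval x A'.K) * h1 - (aeval x A.K) * h2
  have e2 : aeval x (A.N * A'.K) - aeval x (A'.N * A.K) ≠ 0 := by
    rw [← map_sub]
    exact nz hx (sub_ne_zero.2 hne)
  exact mul_ne_zero (mul_ne_zero (mul_ne_zero (nz hy hB.K0) (nz hy hB.ne)) hy)
    (mul_ne_zero (mul_ne_zero e2 (nz hx hA.ne)) (pow_ne_zero _ hx)) e1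

end Pool.Agent.K9h12.SG
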