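import Pool.Agent.K9h12.SG.An
import Pool.Agent.K9h12.SG.Itp
import Pool.Agent.K9h12.SH.Halg

/-!
Two polynomials of different relative orders: maps from the punctured disc and subvarieties.
-/

set_option autoImplicit false

open FF Polynomial

namespace Pool.Agent.K9h12.SG

open Pool.Agent.W603.LV Pool.Agent.W602.GT Pool.Agent.K9h12.SH Pool.Agent.W603.BP
  Pool.Agent.W601.PH Pool.Agent.Y190.AN

/-- the weights -/
theorem exists_wt {A B : Dat}
    (h : (B.p + 1) * (A.d + 9) + (A.p + 1) * (B.d + 9) < (A.p + 1) * (B.p + 1)) :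
    ∃ m c c' κ κ' : ℕ, Wt A B m c c' κ κ' := by
  obtain ⟨t, ht⟩ := Nat.exists_eq_add_of_lt h
  refine ⟨2 * ((A.p + 1) * (B.p + 1)), 2 * (B.p + 1) * (A.p + A.d + 10) + 1,
    2 * ((A.p + 1) * (B.p + 1)) + 2 * ((A.p + 1) * (B.d + 9)) + 1 + 2 * t, A.p + 1,
    (1 + 2 * t) * (B.p + 1), ⟨?_, ?_, ?_, ?_, ?_, Nat.succ_pos _, by positivity, by positivity⟩⟩
  · nlinarith [Nat.zero_le ((B.p + 1) * (A.d + 9))]
  · nlinarith [Nat.zero_le ((A.p + 1) * (B.d + 9))]
  · linarith [ht]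
  · ring
  · ring

variable {L : Type} [Field L] [Algebra ℂ L]

theorem Jet1_smul {A B : Dat} (hA : A.Ok) (hB : B.Ok) (c : L) (D : Derivation ℂ L L) (x y : L) :
    Jet1 A B (c • D) x y = c ^ 3 * Jet1 A B D x y := by
  rw [Jet1_eq hA hB, Jet1_eq hA hB]
  simp only [Derivation.smul_apply, smul_eq_mul, D.leibniz]
  ring

/-- the order of the forms on curves -/
theorem ord_form {P : Place ℂ L} {D : Derivation ℂ L L} (h : Nice P D) {A B : Dat} (hA : A.Ok)
    (hB : B.Ok) {m c c' κ κ' : ℕ} (hW : Wt A B m c c' κ κ') {x y : L} (hD : D x ≠ 0)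
    (hD' : D y ≠ 0) (hJ : Jet1 A B D x y ≠ 0) {j : ℕ} (hj : j ≤ 1) :
    Ge P (-(2 * m)) (Jet1 A B D x y ^ m * (D x * D y) ^ (2 * m) /
      (aeval x A.P ^ c * aeval y B.P ^ c') * x ^ j) ∧
    ((Ge P 0 x → Ge P 0 y → P.ord (aeval x A.P) + P.ord (aeval y B.P) ≠ 1) →
      Ge P 0 (Jet1 A B D x y ^ m * (D x * D y) ^ (2 * m) /
      (aeval x A.P ^ c * aeval y B.P ^ c') * x ^ j)) := by
  have hcx := const_of_eq hD
  have hcy := const_of_eq hD'
  have hx0 : x ≠ 0 := fun h0 => hcx 0 (by rw [h0, map_zero])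
  have hy0 : y ≠ 0 := fun h0 => hcy 0 (by rw [h0, map_zero])
  have hPx := (ord_poly P hcx hA.ne).1
  have hQy := (ord_poly P hcy hB.ne).1
  obtain ⟨u, hu0, hux, hu1, hu2, hu3⟩ := exists_prim P hx0
  obtain ⟨v, hv0, hvy, hv1, hv2, hv3⟩ := exists_prim P hy0
  obtain ⟨e, ρ, s, h1⟩ := loc_coord h hA hu0 hux hu1 hu2 hu3 hD
  obtain ⟨e', ρ', s', h2⟩ := loc_coord h hB hv0 hvy hv1 hv2 hv3 hD'
  obtain ⟨n1, n2, n3⟩ := loc_aux h hA hB hu0 hv0 hux hvy hD hD' hJ hW.m1 hW.m2 hW.sum h1 h2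
  have a1 : Jet1 A B D x y ^ m ≠ 0 := pow_ne_zero _ hJ
  have a2 : (D x * D y) ^ (2 * m) ≠ 0 := pow_ne_zero _ (mul_ne_zero hD hD')
  have a3 : aeval x A.P ^ c * aeval y B.P ^ c' ≠ 0 :=
    mul_ne_zero (pow_ne_zero _ hPx) (pow_ne_zero _ hQy)
  have a4 : u 0 ^ (m * (A.p + A.d + 10)) ≠ 0 := pow_ne_zero _ hu0
  have a5 : v 0 ^ (m * (B.p + B.d + 10)) ≠ 0 := pow_ne_zero _ hv0
  have o1 : P.ord (AuxA A B m D u v) = (m * (A.p + A.d + 10) : ℕ) * s +
      (m * (B.p + B.d + 10) : ℕ) * s' + P.ord (Jet1 A B D x y ^ m * (D x * D y) ^ (2 * m)) := by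
    rw [AuxA_eq A B m D hux hvy, P.ord_mul (mul_ne_zero a4 a5) (mul_ne_zero a1 a2),
      P.ord_mul a4 a5, P.ord_pow, P.ord_pow, h1.os, h2.os]
  have o2 : e = (A.p + 1 : ℕ) * s + P.ord (aeval x A.P) := by
    have h3 := h1.oF
    rw [show A.F u = _ from hm_eq hA.deg.le hux, P.ord_mul (pow_ne_zero _ hu0) hPx, P.ord_pow,
      h1.os] at h3
    exact h3.symm
  have o3 : e' = (B.p + 1 : ℕ) * s' + P.ord (aeval y B.P) := by
    have h3 := h2.oF
    rw [show B.F v = _ from hm_eq hB.deg.le hvy, P.ord_mul (pow_ne_zero _ hv0) hQy, P.ord_pow,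
      h2.os] at h3
    exact h3.symm
  have hx1 : -s ≤ P.ord x := by
    have h3 : P.ord (u 1) = P.ord (u 0) + P.ord x := by rw [hux, P.ord_mul hu0 hx0]
    have h4 := hu2.resolve_left (by rw [hux]; exact mul_ne_zero hu0 hx0)
    rw [h1.os] at h3
    omega
  have o4 : P.ord (Jet1 A B D x y ^ m * (D x * D y) ^ (2 * m) /
      (aeval x A.P ^ c * aeval y B.P ^ c') * x ^ j) =
      P.ord (Jet1 A B D x y ^ m * (D x * D y) ^ (2 * m)) - c * P.ord (aeval x A.P) -
        c' * P.ord (aeval y B.P) + j * P.ord x := by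
    rw [P.ord_mul (div_ne_zero (mul_ne_zero a1 a2) a3) (pow_ne_zero _ hx0),
      P.ord_div (mul_ne_zero a1 a2) a3, P.ord_mul (pow_ne_zero _ hPx) (pow_ne_zero _ hQy),
      P.ord_pow, P.ord_pow, P.ord_pow]
    ring
  have k1 : (c : ℤ) * ((A.p + 1 : ℕ) : ℤ) = (m * (A.p + A.d + 10) : ℕ) + κ := by
    exact_mod_cast hW.hκ
  have k2 : (c' : ℤ) * ((B.p + 1 : ℕ) : ℤ) = (m * (B.p + B.d + 10) : ℕ) + κ' := by
    exact_mod_cast hW.hκ'
  have o5 : P.ord (Jet1 A B D x y ^ m * (D x * D y) ^ (2 * m) /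
      (aeval x A.P ^ c * aeval y B.P ^ c') * x ^ j) =
      (P.ord (AuxA A B m D u v) - (c * e + c' * e')) + (κ * s + κ' * s' + j * P.ord x) := by
    rw [o4, o1]
    have q1 : (c : ℤ) * e = ((m * (A.p + A.d + 10) : ℕ) + κ : ℤ) * s +
        c * P.ord (aeval x A.P) := by rw [← k1, o2]; ring
    have q2 : (c' : ℤ) * e' = ((m * (B.p + B.d + 10) : ℕ) + κ' : ℤ) * s' +
        c' * P.ord (aeval y B.P) := by rw [← k2, o3]; ring
    rw [q1, q2]
    ring
  have hs := h1.s0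
  have hs' := h2.s0
  have hpos : 0 ≤ κ * s + κ' * s' + j * P.ord x := by
    have r1 : 0 ≤ (κ' : ℤ) * s' := mul_nonneg (Int.natCast_nonneg _) hs'
    have r2 : (j : ℤ) ≤ κ := by
      have := hW.κ0
      exact_mod_cast (by omega : j ≤ κ)
    have r3 : 0 ≤ ((κ : ℤ) - j) * s := mul_nonneg (by linarith) hs
    have r4 : 0 ≤ (j : ℤ) * (P.ord x + s) := mul_nonneg (Int.natCast_nonneg _) (by linarith)
    nlinarith
  refine ⟨Or.inr ?_, fun hst => Or.inr ?_⟩
  · rw [o5]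
    linarith
  · rw [o5]
    have := n3 hst
    linarith

/-- curves, the main case -/
theorem cur_main [IsFF ℂ L] {A B : Dat} (hA : A.Ok) (hB : B.Ok) {m c c' κ κ' : ℕ}
    (hW : Wt A B m c c' κ κ') {x y : L} {D0 : Derivation ℂ L L} (hx : D0 x ≠ 0) (hy : D0 y ≠ 0)
    (hJ : Jet1 A B D0 x y ≠ 0) {Bd : Place ℂ L → Prop}
    (hst : ∀ P, ¬ Bd P → Shr A.P B.P P x y) : LogGeneralType ℂ L 1 Bd := by
  have tx := trans_of_der hx
  have ty := trans_of_der hy
  have hcx := const_of_eq hx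
  have hx0 : x ≠ 0 := fun h0 => hcx 0 (by rw [h0, map_zero])
  have hPx : aeval x A.P ≠ 0 := fun h0 => tx ⟨_, hA.ne, h0⟩
  have hQy : aeval y B.P ≠ 0 := fun h0 => ty ⟨_, hB.ne, h0⟩
  have hJne : ∀ {P : Place ℂ L} {D : Derivation ℂ L L}, Nice P D → Jet1 A B D x y ≠ 0 := by
    intro P D hD
    obtain ⟨h, D', hD', heq, -, -⟩ := exists_nice P (D := D0) (by
      rintro rfl
      exact hx rfl)
    have hDne := hD.ne_zero
    -- derivations of a function field of one variable are proportional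
    obtain ⟨g, hg⟩ : ∃ g : L, D0 = g • D := by
      refine ⟨D0 x / D x, ?_⟩
      have hDx : D x ≠ 0 := der_ne_zero hDne tx
      have h1 : D0 - (D0 x / D x) • D = 0 := by
        by_contra hne
        refine der_ne_zero hne tx ?_
        simp only [Derivation.sub_apply, Derivation.smul_apply, smul_eq_mul]
        field_simp
        ring
      exact sub_eq_zero.1 h1
    intro h0
    apply hJ
    rw [hg, Jet1_smul hA hB, h0, mul_zero]
  refine curve_lgt Bd (N := 7 * m) (by have := hW.m0; omega)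
    (fun j D => Jet1 A B D x y ^ m * (D x * D y) ^ (2 * m) /
      (aeval x A.P ^ c * aeval y B.P ^ c') * x ^ (j : ℕ)) (fun j a D => ?_) D0 ?_ tx ?_ ?_ ?_
  · rw [Jet1_smul hA hB, Derivation.smul_apply, Derivation.smul_apply, smul_eq_mul, smul_eq_mul,
      show a * D x * (a * D y) = a ^ 2 * (D x * D y) by ring, mul_pow, mul_pow, ← pow_mul,
      ← pow_mul, show 7 * m = 3 * m + 2 * (2 * m) by ring, pow_add]
    ring
  · exact mul_ne_zero (div_ne_zero (mul_ne_zero (pow_ne_zero _ hJ)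
      (pow_ne_zero _ (mul_ne_zero hx hy))) (mul_ne_zero (pow_ne_zero _ hPx)
      (pow_ne_zero _ hQy))) (pow_ne_zero _ hx0)
  · have h1 : Jet1 A B D0 x y ^ m * (D0 x * D0 y) ^ (2 * m) /
      (aeval x A.P ^ c * aeval y B.P ^ c') ≠ 0 := div_ne_zero (mul_ne_zero (pow_ne_zero _ hJ)
      (pow_ne_zero _ (mul_ne_zero hx hy))) (mul_ne_zero (pow_ne_zero _ hPx) (pow_ne_zero _ hQy))
    rw [show ((1 : Fin 2) : ℕ) = 1 from rfl, show ((0 : Fin 2) : ℕ) = 0 from rfl, pow_one,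
      pow_zero, mul_one, mul_div_cancel_left₀ _ h1]
  · intro P D hD j
    exact (ord_form hD hA hB hW (der_ne_zero hD.ne_zero tx) (der_ne_zero hD.ne_zero ty)
      (hJne hD) (j := j) (by have := j.2; omega)).1.mono (by push_cast; omega)
  · intro P hP D hD j
    exact (ord_form hD hA hB hW (der_ne_zero hD.ne_zero tx) (der_ne_zero hD.ne_zero ty)
      (hJne hD) (j := j) (by have := j.2; omega)).2 fun h1 h2 => hst P hP h1 h2 hPx hQy

/-- the data for a pair of polynomials -/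
structure Pkg (P Q : ℂ[X]) (A A' B : Dat) : Prop where
  hA : A.Ok
  hA' : A'.Ok
  hB : B.Ok
  eP : A.P = P
  eP' : A'.P = P
  eQ : B.P = Q
  ne : A.N * A'.K ≠ A'.N * A.K
  wt : ∃ m c c' κ κ' : ℕ, Wt A B m c c' κ κ'
  wt' : ∃ m c c' κ κ' : ℕ, Wt A' B m c c' κ κ'
  p6 : 6 ≤ P.natDegree
  q6 : 6 ≤ Q.natDegree

theorem exists_pkg {P Q : ℂ[X]} (hP : P.Separable) (hQ : Q.Separable) {a b : ℕ}
    (ha : ¬ OrderLe P a) (hb : OrderLe Q b)
    (hab : P.natDegree * (b + 8) + 8 * Q.natDegree < Q.natDegree * a) :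
    ∃ A A' B : Dat, Pkg P Q A A' B := by
  have hQ0 : 0 < Q.natDegree := by
    rcases Nat.eq_zero_or_pos Q.natDegree with h | h
    · rw [h] at hab; simp at hab
    · exact h
  have ha8 : 8 < a := by
    by_contra h
    have h1 : Q.natDegree * a ≤ Q.natDegree * 8 := Nat.mul_le_mul_left _ (by omega)
    nlinarith [Nat.zero_le (P.natDegree * (b + 8))]
  have hP0 : P ≠ 0 := by
    rintro rfl
    exact ha ⟨1, 0, one_ne_zero, by simp, by simp; omega, by simp⟩
  obtain ⟨h2a, K₁, N₁, K₂, N₂, ⟨k1, k2, k3, k4⟩, ⟨l1, l2, l3, l4⟩, hne⟩ :=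
    exists_two hP hP0 (by omega) ha
  obtain ⟨K, N, b1, b2, b3, b4⟩ := hb
  obtain ⟨p, hp⟩ : ∃ p, P.natDegree = p + 1 := ⟨P.natDegree - 1, by omega⟩
  obtain ⟨q, hq⟩ : ∃ q, Q.natDegree = q + 1 := ⟨Q.natDegree - 1, by omega⟩
  obtain ⟨d, hd⟩ : ∃ d, P.natDegree - a = d + 1 := ⟨P.natDegree - a - 1, by omega⟩
  obtain ⟨b', hb'⟩ : ∃ b', b = b' + 1 := ⟨b - 1, by omega⟩
  have hda : d + 1 + a = p + 1 := by omega
  have hq18 : 18 < Q.natDegree := by
    by_contra h
    have h3 : Q.natDegree * a < Q.natDegree * P.natDegree := by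
      exact Nat.mul_lt_mul_of_pos_left (by omega) hQ0
    have h4 : P.natDegree * 8 ≤ P.natDegree * (b + 8) := Nat.mul_le_mul_left _ (by omega)
    have h5 : 2 * (Q.natDegree * a) ≤ Q.natDegree * P.natDegree := by
      have := Nat.mul_le_mul_left Q.natDegree h2a.le
      nlinarith
    have h6 : Q.natDegree * P.natDegree ≤ 18 * P.natDegree := Nat.mul_le_mul_right _ (by omega)
    nlinarith
  have hkey : (q + 1) * (d + 9) + (p + 1) * (b' + 9) < (p + 1) * (q + 1) := by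
    rw [hp, hq, hb'] at hab
    have h3 : (p + 1) * (q + 1) = (q + 1) * (d + 1) + (q + 1) * a := by
      rw [← hda]; ring
    rw [h3]
    nlinarith
  refine ⟨⟨p, d, P, K₁, N₁⟩, ⟨p, d, P, K₂, N₂⟩, ⟨q, b', Q, K, N⟩,
    ⟨hP, hp, by change K₁.natDegree ≤ d + 1; omega, by change N₁.natDegree ≤ d; omega, k1, k4⟩,
    ⟨hP, hp, by change K₂.natDegree ≤ d + 1; omega, by change N₂.natDegree ≤ d; omega, l1, l4⟩,
    ⟨hQ, hq, by change K.natDegree ≤ b' + 1; omega, by change N.natDegree ≤ b'; omega, b1, b4⟩,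
    rfl, rfl, rfl, hne, exists_wt hkey, exists_wt hkey, by omega, by omega⟩

/-- **Maps from the punctured disc.** -/
theorem han {P Q : ℂ[X]} {A A' B : Dat} (hk : Pkg P Q A A' B)
    (x : Fin 2 → MK (exD 1 one_pos)) (v1 : aeval (x 0) P ≠ 0) (v2 : aeval (x 1) Q ≠ 0)
    (hst : ∀ (z : ℂ) (hz : z ∈ (exD 1 one_pos).U), Shr P Q (PL hz) (x 0) (x 1)) :
    ∀ i, x i ∈ Minf 1 one_pos := by
  have hP : P.Separable := hk.eP ▸ hk.hA.sep
  have hQ : Q.Separable := hk.eQ ▸ hk.hB.sep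
  have hp := hk.p6
  have hq := hk.q6
  suffices h : x 0 ∈ Minf 1 one_pos ∧ x 1 ∈ Minf 1 one_pos by
    intro i
    fin_cases i
    · exact h.1
    · exact h.2
  by_cases hx0 : MDer (exD 1 one_pos) (x 0) = 0
  · obtain ⟨c, hc⟩ := MDer_eq_zero hx0
    have h0 : x 0 ∈ Minf 1 one_pos := by rw [hc]; exact algebraMap_mem _ _
    refine ⟨h0, ?_⟩
    by_cases hx1 : MDer (exD 1 one_pos) (x 1) = 0
    · obtain ⟨d, hd⟩ := MDer_eq_zero hx1
      rw [hd]
      exact algebraMap_mem _ _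
    · refine an_const hQ (by omega) hx1 fun z hz hreg h1 => ?_
      have h2 : (PL hz).ord (aeval (x 0) P) = 0 := by
        rw [hc, aeval_algebraMap_apply] at v1 ⊢
        refine FF.Place.ord_const _ fun h3 => v1 ?_
        rw [h3, map_zero]
      exact hst z hz (by rw [hc]; exact Ge.const c) hreg v1 v2 (by rw [h2, h1, zero_add])
  · by_cases hx1 : MDer (exD 1 one_pos) (x 1) = 0
    · obtain ⟨c, hc⟩ := MDer_eq_zero hx1
      have h0 : x 1 ∈ Minf 1 one_pos := by rw [hc]; exact algebraMap_mem _ _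
      refine ⟨?_, h0⟩
      refine an_const hP (by omega) hx0 fun z hz hreg h1 => ?_
      have h2 : (PL hz).ord (aeval (x 1) Q) = 0 := by
        rw [hc, aeval_algebraMap_apply] at v2 ⊢
        refine FF.Place.ord_const _ fun h3 => v2 ?_
        rw [h3, map_zero]
      exact hst z hz hreg (by rw [hc]; exact Ge.const c) v1 v2 (by rw [h2, h1, add_zero])
    · rcases jet_or hk.hA hk.hA' hk.hB (hk.eP'.trans hk.eP.symm) hk.ne hx0 hx1 with hJ | hJ
      · obtain ⟨m, c, c', κ, κ', hW⟩ := hk.wt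
        refine an_main hk.hA hk.hB hW hx0 hx1 hJ fun z hz h1 h2 => ?_
        rw [hk.eP, hk.eQ]
        exact hst z hz h1 h2 v1 v2
      · obtain ⟨m, c, c', κ, κ', hW⟩ := hk.wt'
        refine an_main hk.hA' hk.hB hW hx0 hx1 hJ fun z hz h1 h2 => ?_
        rw [hk.eP', hk.eQ]
        exact hst z hz h1 h2 v1 v2

/-- **The subvarieties.** -/
theorem halg {P Q : ℂ[X]} {A A' B : Dat} (hk : Pkg P Q A A' B)
    (hess : Algebra.EssFiniteType ℂ L) {d : ℕ}
    {x : Fin 2 → L} {Bd : Place ℂ L → Prop} (hd : 0 < d) (htr : Algebra.trdeg ℂ L = d)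
    (halg : Algebra.IsAlgebraic (IntermediateField.adjoin ℂ (Set.range x)) L)
    (v1 : aeval (x 0) P ≠ 0) (v2 : aeval (x 1) Q ≠ 0)
    (hst : ∀ R, ¬ Bd R → Shr P Q R (x 0) (x 1)) :
    LogGeneralType ℂ L d Bd := by
  have hP : P.Separable := hk.eP ▸ hk.hA.sep
  have hQ : Q.Separable := hk.eQ ▸ hk.hB.sep
  have hp := hk.p6
  have hq := hk.q6
  have halg' : Algebra.IsAlgebraic (Algebra.adjoin ℂ (Set.range x)) L := by
    rw [← IntermediateField.isAlgebraic_adjoin_iff_top]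
    exact halg
  have hle : d ≤ 2 := by
    have h1 := Algebra.IsAlgebraic.trdeg_le_cardinalMk ℂ (A := L) (Set.range x)
    rw [htr] at h1
    have h2 : Cardinal.mk (Set.range x) ≤ (2 : ℕ) := by
      refine Cardinal.mk_range_le.trans ?_
      simp
    exact_mod_cast h1.trans h2
  rcases (by omega : d = 1 ∨ d = 2) with rfl | rfl
  · -- curves
    have : IsFF ℂ L := ⟨hess, by rw [htr]; simp⟩
    obtain ⟨s, hs⟩ := exists_isTranscendenceBasis ℂ L
    obtain ⟨D0, hD0⟩ := exists_der (fun i : s => (i : L)) hs fun _ => (1 : L)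
    have hD : D0 ≠ 0 := by
      rintro rfl
      have hne : s.Nonempty := by
        rw [Set.nonempty_iff_ne_empty]
        rintro rfl
        have h1 := hs.cardinalMk_eq_trdeg
        rw [htr] at h1
        simp at h1
      obtain ⟨t, ht⟩ := hne
      exact zero_ne_one (hD0 ⟨t, ht⟩)
    have hconst : ∀ f, D0 f = 0 → ∃ c : ℂ, f = algebraMap ℂ L c := by
      intro f hf
      by_contra hcon
      have ht : Transcendental ℂ f := fun h => hcon (const_of_algebraic h)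
      exact der_ne_zero hD ht hf
    by_cases hx0 : D0 (x 0) = 0
    · obtain ⟨c, hc⟩ := hconst _ hx0
      by_cases hx1 : D0 (x 1) = 0
      · exfalso
        refine hD (der_eq_zero D0 (Set.range x) halg ?_)
        rintro _ ⟨j, rfl⟩
        fin_cases j
        · exact hx0
        · exact hx1
      · refine cur_const hQ (by omega) hx1 fun R hR hreg h1 => ?_
        have h2 : R.ord (aeval (x 0) P) = 0 := by
          rw [hc, aeval_algebraMap_apply] at v1 ⊢
          refine R.ord_const fun h3 => v1 ?_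
          rw [h3, map_zero]
        exact hst R hR (by rw [hc]; exact Ge.const c) hreg v1 v2 (by rw [h2, h1, zero_add])
    · by_cases hx1 : D0 (x 1) = 0
      · obtain ⟨c, hc⟩ := hconst _ hx1
        refine cur_const hP (by omega) hx0 fun R hR hreg h1 => ?_
        have h2 : R.ord (aeval (x 1) Q) = 0 := by
          rw [hc, aeval_algebraMap_apply] at v2 ⊢
          refine R.ord_const fun h3 => v2 ?_
          rw [h3, map_zero]
        exact hst R hR hreg (by rw [hc]; exact Ge.const c) v1 v2 (by rw [h2, h1, add_zero])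
      · rcases jet_or hk.hA hk.hA' hk.hB (hk.eP'.trans hk.eP.symm) hk.ne hx0 hx1 with hJ | hJ
        · obtain ⟨m, c, c', κ, κ', hW⟩ := hk.wt
          exact cur_main hk.hA hk.hB hW hx0 hx1 hJ (by rw [hk.eP, hk.eQ]; exact hst)
        · obtain ⟨m, c, c', κ, κ', hW⟩ := hk.wt'
          exact cur_main hk.hA' hk.hB hW hx0 hx1 hJ (by rw [hk.eP', hk.eQ]; exact hst)
  · -- surfaces
    refine surf hP hQ (by omega) (by omega) ?_ hst
    refine Algebra.IsAlgebraic.isTranscendenceBasis_of_lift_le_trdeg_of_finite ℂ x ?_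
    rw [htr]
    simp

end Pool.Agent.K9h12.SG
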