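import Pool.Agent.K9h12.SG.Psi
import Pool.Agent.K9h12.SH.Ord

/-!
The orders of the jet differential with separated variables.
-/

set_option autoImplicit false

open FF Polynomial

namespace Pool.Agent.K9h12.SG

open Pool.Agent.W603.LV Pool.Agent.W602.GT Pool.Agent.K9h12.SH

variable {L : Type} [Field L] [Algebra ℂ L] {P : Place ℂ L} {D : Derivation ℂ L L}

/-- the jet differential of a pair of vectors -/
noncomputable def JetA (A B : Dat) (D : Derivation ℂ L L) (u v : Fin 2 → L) : L :=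
  Jet A B u v (D (u 0)) (D (v 0)) (wrA D u) (wrA D v) (D (wrA D u)) (D (wrA D v))

/-- the auxiliary jet differential of a pair of vectors -/
noncomputable def AuxA (A B : Dat) (m : ℕ) (D : Derivation ℂ L L) (u v : Fin 2 → L) : L :=
  Aux A B m u v (D (u 0)) (D (v 0)) (wrA D u) (wrA D v) (D (wrA D u)) (D (wrA D v))

/-- the jet differential of a pair of functions -/
noncomputable def Jet1 (A B : Dat) (D : Derivation ℂ L L) (x y : L) : L :=
  Jet A B ![1, x] ![1, y] 0 0 (D x) (D y) (D (D x)) (D (D y))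

theorem scaleA (D : Derivation ℂ L L) {u : Fin 2 → L} {x : L} (hx : u 1 = u 0 * x) :
    (∀ j, u j = u 0 * (![1, x] : Fin 2 → L) j) ∧
    D (u 0) = D (u 0) * (![1, x] : Fin 2 → L) 0 + u 0 * 0 ∧
    wrA D u = u 0 ^ 2 * D x ∧
    D (wrA D u) = 2 * u 0 * D (u 0) * D x + u 0 ^ 2 * D (D x) := by
  refine ⟨fun j => ?_, by simp, wrA_eq D hx, ?_⟩
  · fin_cases j
    · simp
    · simpa using hx
  · rw [wrA_eq D hx, D.leibniz, D.leibniz_pow]
    simp only [smul_eq_mul, nsmul_eq_mul, Nat.cast_ofNat]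
    ring

theorem JetA_eq (A B : Dat) (D : Derivation ℂ L L) {u v : Fin 2 → L} {x y : L}
    (hx : u 1 = u 0 * x) (hy : v 1 = v 0 * y) :
    JetA A B D u v = u 0 ^ (A.p + A.d + 5) * v 0 ^ (B.p + B.d + 5) * Jet1 A B D x y := by
  obtain ⟨s1, s2, s3, s4⟩ := scaleA D hx
  obtain ⟨t1, t2, t3, t4⟩ := scaleA D hy
  exact Jet_scale A B s1 t1 s2 t2 s3 s4 t3 t4

theorem AuxA_eq (A B : Dat) (m : ℕ) (D : Derivation ℂ L L) {u v : Fin 2 → L} {x y : L}
    (hx : u 1 = u 0 * x) (hy : v 1 = v 0 * y) :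
    AuxA A B m D u v = u 0 ^ (m * (A.p + A.d + 10)) * v 0 ^ (m * (B.p + B.d + 10)) *
      (Jet1 A B D x y ^ m * (D x * D y) ^ (2 * m)) := by
  obtain ⟨s1, s2, s3, s4⟩ := scaleA D hx
  obtain ⟨t1, t2, t3, t4⟩ := scaleA D hy
  rw [show AuxA A B m D u v = _ from Aux_scale A B m s1 t1 s2 t2 s3 s4 t3 t4]
  unfold Aux Jet1
  simp

theorem Jet1_eq {A B : Dat} (hA : A.Ok) (hB : B.Ok) (D : Derivation ℂ L L) (x y : L) :
    Jet1 A B D x y = (aeval y B.K * aeval y B.P * D y) *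
      (aeval x A.K * aeval x A.P * D (D x) + (aeval x A.N * aeval x A.P -
        2 * aeval x A.K * aeval x (derivative A.P)) * D x ^ 2) -
      (aeval x A.K * aeval x A.P * D x) *
      (aeval y B.K * aeval y B.P * D (D y) + (aeval y B.N * aeval y B.P -
        2 * aeval y B.K * aeval y (derivative B.P)) * D y ^ 2) := by
  have h1 : ∀ {C : Dat}, C.Ok → (derivative C.P).natDegree ≤ C.p := by
    intro C hC
    have := natDegree_derivative_le C.P
    have := hC.deg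
    omega
  unfold Jet1 Jet Dat.chi Dat.phi Chi Phi
  rw [hm_one hA.dK, hm_one hB.dK, hm_one hA.deg.le, hm_one hB.deg.le, hm_one hA.dN, hm_one hB.dN,
    hm_one (h1 hA), hm_one (h1 hB)]
  simp

theorem ge_hm (d : ℕ) (K : ℂ[X]) {u : Fin 2 → L} (h0 : Ge P 0 (u 0)) (h1 : Ge P 0 (u 1)) :
    Ge P 0 (hm d K u) := by
  unfold hm
  have hs : ∀ s : Finset ℕ, Ge P 0 (∑ i ∈ s, algebraMap ℂ L (K.coeff i) *
      (u 1 ^ i * u 0 ^ (d - i))) := by
    intro s
    classical
    induction s using Finset.induction_on with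
    | empty => rw [Finset.sum_empty]; exact Ge.zero
    | insert i s hi ih =>
      rw [Finset.sum_insert hi]
      exact (((Ge.const _).mul ((h1.pow i).mul (h0.pow (d - i)))).mono (by simp)).add ih
  exact hs _

theorem ge_poly {x : L} (hx : Ge P 0 x) (R : ℂ[X]) : Ge P 0 (aeval x R) := by
  rw [← hm_one (le_refl R.natDegree) x]
  exact ge_hm _ _ (by simpa using Ge.one) (by simpa using hx)

/-- the derivative is a unit at the roots -/
theorem der_unit {R : ℂ[X]} (hR : R.Separable) {x : L} (hx : Ge P 0 x)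
    (h : 0 < P.ord (aeval x R)) : aeval x (derivative R) ≠ 0 ∧
      P.ord (aeval x (derivative R)) = 0 := by
  obtain ⟨a, b, hab⟩ := hR
  have h1 := congrArg (aeval x) hab
  rw [map_add, map_mul, map_mul, map_one] at h1
  have h2 := ge_poly hx (derivative R)
  have h3 : Ge P 1 (aeval x a * aeval x R) :=
    ((ge_poly hx a).mul (Or.inr h : Ge P 1 (aeval x R))).mono (by omega)
  by_contra hcon
  have h4 : Ge P 1 (aeval x (derivative R)) := by
    rcases h2 with h2 | h2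
    · exact Or.inl h2
    · by_cases h5 : aeval x (derivative R) = 0
      · exact Or.inl h5
      · right
        by_contra h6
        exact hcon ⟨h5, by omega⟩
  have h5 : Ge P 1 (1 : L) := by
    rw [← h1]
    exact h3.add (((ge_poly hx b).mul h4).mono (by omega))
  rcases h5 with h5 | h5
  · exact one_ne_zero h5
  · rw [P.ord_one] at h5
    omega

theorem Dat.Ok.ne {A : Dat} (hA : A.Ok) : A.P ≠ 0 := by
  intro h0
  have := hA.deg
  rw [h0] at this
  simp at this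

/-- the data of one variable at a place -/
structure Cd (P : Place ℂ L) (D : Derivation ℂ L L) (A : Dat) (u : Fin 2 → L) (x : L)
    (e ρ s : ℤ) : Prop where
  Fne : A.F u ≠ 0
  oF : P.ord (A.F u) = e
  ow : P.ord (wrA D u) = ρ
  os : P.ord (u 0) = s
  e0 : 0 ≤ e
  ρ0 : 0 ≤ ρ
  s0 : 0 ≤ s
  ρe : e - 1 ≤ ρ
  es : 0 < e → s = 0
  reg : s = 0 → Ge P 0 x ∧ P.ord (aeval x A.P) = e
  chi : Ge P (s + e + ρ) (A.chi u (wrA D u))
  phi : Ge P 0 (A.phi u (D (u 0)) (wrA D u) (D (wrA D u)))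
  phi' : Ge P (e + ρ - 1) (A.phi u (D (u 0)) (wrA D u) (D (wrA D u)))

theorem loc_coord (h : Nice P D) {A : Dat} (hA : A.Ok) {u : Fin 2 → L} {x : L} (hu : u 0 ≠ 0)
    (hx : u 1 = u 0 * x) (h0 : Ge P 0 (u 0)) (h1 : Ge P 0 (u 1))
    (hp : P.ord (u 0) = 0 ∨ P.ord (u 1) = 0) (hD : D x ≠ 0) :
    ∃ e ρ s : ℤ, Cd P D A u x e ρ s := by
  have hc := const_of_eq hD
  have hP0 := hA.ne
  have hx0 : x ≠ 0 := fun h0 => hc 0 (by rw [h0, map_zero])
  have hu1 : u 1 ≠ 0 := by rw [hx]; exact mul_ne_zero hu hx0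
  have ha := ord_poly P hc hP0
  have hF : A.F u = u 0 ^ (A.p + 1) * aeval x A.P := hm_eq hA.deg.le hx
  have hFne : A.F u ≠ 0 := by rw [hF]; exact mul_ne_zero (pow_ne_zero _ hu) ha.1
  have hoF : P.ord (A.F u) = (A.p + 1 : ℤ) * P.ord (u 0) + P.ord (aeval x A.P) := by
    rw [hF, P.ord_mul (pow_ne_zero _ hu) ha.1, P.ord_pow]
    push_cast
    ring
  have hw := wrA_eq D hx
  have hwne : wrA D u ≠ 0 := by rw [hw]; exact mul_ne_zero (pow_ne_zero _ hu) hD
  have how : P.ord (wrA D u) = 2 * P.ord (u 0) + P.ord (D x) := by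
    rw [hw, P.ord_mul (pow_ne_zero _ hu) hD, P.ord_pow]
    push_cast
    ring
  have hou1 : P.ord (u 1) = P.ord (u 0) + P.ord x := by rw [hx, P.ord_mul hu hx0]
  have h0' := h0.resolve_left hu
  have h1' := h1.resolve_left hu1
  -- the orders
  have key : 0 ≤ P.ord (A.F u) ∧ 0 ≤ P.ord (wrA D u) ∧ P.ord (A.F u) - 1 ≤ P.ord (wrA D u) ∧
      (0 < P.ord (A.F u) → P.ord (u 0) = 0) ∧ (P.ord (u 0) = 0 → Ge P 0 x ∧
        P.ord (aeval x A.P) = P.ord (A.F u)) := by
    rcases h0'.eq_or_lt with hs | hs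
    · -- finite points
      have hxr : Ge P 0 x := Or.inr (by omega)
      have hP1 : 0 ≤ P.ord (aeval x A.P) := (ge_poly hxr _).resolve_left ha.1
      have hDx := (h.reg x hxr).resolve_left hD
      rw [hoF, how, ← hs]
      refine ⟨by omega, by omega, ?_, fun _ => rfl, fun _ => ⟨hxr, by omega⟩⟩
      by_cases he : 0 < P.ord (aeval x A.P)
      · have h2 := der_unit hA.sep hxr he
        have h3 := (h.ord_der ha.1 (by omega)).2
        rw [der_poly, P.ord_mul h2.1 hD, h2.2] at h3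
        omega
      · omega
    · -- poles
      have h2 : P.ord x = -P.ord (u 0) := by omega
      have h3 := ord_poly_inf P hc hP0 h2 hs
      rw [hA.deg] at h3
      push_cast at h3
      have h4 : P.ord (A.F u) = 0 := by rw [hoF, h3]; ring
      have h5 := (h.ord_der hx0 (by omega)).2
      refine ⟨by omega, by omega, by omega, fun h6 => by omega, fun h6 => by omega⟩
  obtain ⟨k1, k2, k3, k4, k5⟩ := key
  have gF : Ge P (P.ord (A.F u)) (A.F u) := ge_ord P _
  have gw : Ge P (P.ord (wrA D u)) (wrA D u) := ge_ord P _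
  have gu : Ge P (P.ord (u 0)) (u 0) := ge_ord P _
  have gK : Ge P 0 (hm (A.d + 1) A.K u) := ge_hm _ _ h0 h1
  have gN : Ge P 0 (hm A.d A.N u) := ge_hm _ _ h0 h1
  have gP : Ge P 0 (hm A.p (derivative A.P) u) := ge_hm _ _ h0 h1
  have gF0 : Ge P 0 (A.F u) := gF.mono k1
  have gw0 : Ge P 0 (wrA D u) := gw.mono k2
  have gDw := h.ge_der gw
  have gDw0 := h.reg _ gw0
  have gDu := h.reg _ h0
  have g2 : Ge P 0 (2 : L) := by
    have := Ge.const (P := P) (2 : ℂ)
    rwa [map_ofNat] at this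
  refine ⟨_, _, _, hFne, rfl, rfl, rfl, k1, k2, h0', k3, k4, k5, ?_, ?_, ?_⟩
  · have e1 : A.chi u (wrA D u) = u 0 * hm (A.d + 1) A.K u * A.F u * wrA D u := rfl
    rw [e1]
    exact (((gu.mul gK).mul gF).mul gw).mono (by omega)
  · have e1 : A.phi u (D (u 0)) (wrA D u) (D (wrA D u)) =
        u 0 * hm (A.d + 1) A.K u * A.F u * D (wrA D u) -
        2 * D (u 0) * hm (A.d + 1) A.K u * A.F u * wrA D u +
        (hm A.d A.N u * A.F u - 2 * hm (A.d + 1) A.K u * hm A.p (derivative A.P) u) *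
          wrA D u ^ 2 := rfl
    rw [e1]
    have t1 : Ge P 0 (u 0 * hm (A.d + 1) A.K u * A.F u * D (wrA D u)) :=
      (((h0.mul gK).mul gF0).mul gDw0).mono (by omega)
    have t2 : Ge P 0 (2 * D (u 0) * hm (A.d + 1) A.K u * A.F u * wrA D u) :=
      ((((g2.mul gDu).mul gK).mul gF0).mul gw0).mono (by omega)
    have t3 : Ge P 0 (hm A.d A.N u * A.F u -
        2 * hm (A.d + 1) A.K u * hm A.p (derivative A.P) u) :=
      ((gN.mul gF0).mono (by omega)).sub (((g2.mul gK).mul gP).mono (by omega))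
    have t4 : Ge P 0 ((hm A.d A.N u * A.F u -
        2 * hm (A.d + 1) A.K u * hm A.p (derivative A.P) u) * wrA D u ^ 2) :=
      (t3.mul (gw0.pow 2)).mono (by simp)
    exact (t1.sub t2).add t4
  · have e1 : A.phi u (D (u 0)) (wrA D u) (D (wrA D u)) =
        u 0 * hm (A.d + 1) A.K u * A.F u * D (wrA D u) -
        2 * D (u 0) * hm (A.d + 1) A.K u * A.F u * wrA D u +
        (hm A.d A.N u * A.F u - 2 * hm (A.d + 1) A.K u * hm A.p (derivative A.P) u) *
          wrA D u ^ 2 := rfl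
    rw [e1]
    have t1 : Ge P (P.ord (A.F u) + P.ord (wrA D u) - 1)
        (u 0 * hm (A.d + 1) A.K u * A.F u * D (wrA D u)) :=
      (((h0.mul gK).mul gF).mul gDw).mono (by omega)
    have t2 : Ge P (P.ord (A.F u) + P.ord (wrA D u) - 1)
        (2 * D (u 0) * hm (A.d + 1) A.K u * A.F u * wrA D u) :=
      ((((g2.mul gDu).mul gK).mul gF).mul gw).mono (by omega)
    have t3 : Ge P 0 (hm A.d A.N u * A.F u -
        2 * hm (A.d + 1) A.K u * hm A.p (derivative A.P) u) :=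
      ((gN.mul gF0).mono (by omega)).sub (((g2.mul gK).mul gP).mono (by omega))
    have t4 : Ge P (P.ord (A.F u) + P.ord (wrA D u) - 1) ((hm A.d A.N u * A.F u -
        2 * hm (A.d + 1) A.K u * hm A.p (derivative A.P) u) * wrA D u ^ 2) :=
      (t3.mul (gw.pow 2)).mono (by push_cast; omega)
    exact (t1.sub t2).add t4

/-- the contact of order one with both -/
theorem loc_one (h : Nice P D) {A B : Dat} (hA : A.Ok) (hB : B.Ok) {x y : L}
    (hx : Ge P 0 x) (hy : Ge P 0 y) (hPx : aeval x A.P ≠ 0) (hPy : aeval y B.P ≠ 0)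
    (h1 : P.ord (aeval x A.P) = 1) (h2 : P.ord (aeval y B.P) = 1) :
    Ge P 3 (Jet1 A B D x y) := by
  obtain ⟨M, hM⟩ := hA.dvd
  obtain ⟨M', hM'⟩ := hB.dvd
  have r1 := congrArg (aeval x) hM
  have r2 := congrArg (aeval y) hM'
  simp only [map_sub, map_mul] at r1 r2
  have u1 := der_unit hA.sep hx (by omega : 0 < P.ord (aeval x A.P))
  have u2 := der_unit hB.sep hy (by omega : 0 < P.ord (aeval y B.P))
  have hW := h.W_one (inv_ne_zero hPx) (by rw [P.ord_inv, h1]) (g := (aeval y B.P)⁻¹)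
    (Or.inr (by rw [P.ord_inv, h2]))
  have hV := Va_W D hPx hPy
  unfold Va at hV
  have d1 : D (aeval x A.P) = aeval x (derivative A.P) * D x := der_poly D x _
  have d2 : D (aeval y B.P) = aeval y (derivative B.P) * D y := der_poly D y _
  have d3 : D (aeval x (derivative A.P) * D x) = aeval x (derivative (derivative A.P)) * D x ^ 2 +
      aeval x (derivative A.P) * D (D x) := by
    rw [D.leibniz, der_poly]
    simp only [smul_eq_mul]
    ring
  have d4 : D (aeval y (derivative B.P) * D y) = aeval y (derivative (derivative B.P)) * D y ^ 2 +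
      aeval y (derivative B.P) * D (D y) := by
    rw [D.leibniz, der_poly]
    simp only [smul_eq_mul]
    ring
  rw [d1, d2, d3, d4] at hV
  rw [Jet1_eq hA hB]
  set a := aeval x A.P with ha
  set b := aeval y B.P with hb
  set a1 := aeval x (derivative A.P) with ha1
  set b1 := aeval y (derivative B.P) with hb1
  set W0 := W D a⁻¹ b⁻¹ with hW0
  have hid : a1 * b1 * ((aeval y B.K * b * D y) * (aeval x A.K * a * D (D x) + (aeval x A.N * a -
        2 * aeval x A.K * a1) * D x ^ 2) - (aeval x A.K * a * D x) *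
      (aeval y B.K * b * D (D y) + (aeval y B.N * b - 2 * aeval y B.K * b1) * D y ^ 2)) =
      -(aeval x A.K * aeval y B.K * (a * b) ^ 3 * W0) -
      aeval y B.K * b1 * aeval x M * a ^ 2 * b * (D x ^ 2 * D y) +
      aeval x A.K * a1 * aeval y M' * a * b ^ 2 * (D x * D y ^ 2) := by
    linear_combination (-(aeval x A.K * aeval y B.K)) * hV -
      (aeval y B.K * b1 * a * b * (D x ^ 2 * D y)) * r1 +
      (aeval x A.K * a1 * a * b * (D x * D y ^ 2)) * r2
  have ga : Ge P 1 a := Or.inr h1.ge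
  have gb : Ge P 1 b := Or.inr h2.ge
  have gK := ge_poly hx A.K
  have gK' := ge_poly hy B.K
  have gM := ge_poly hx M
  have gM' := ge_poly hy M'
  have ga1 : Ge P 0 a1 := ge_poly hx _
  have gb1 : Ge P 0 b1 := ge_poly hy _
  have gx := h.reg x hx
  have gy := h.reg y hy
  have hge : Ge P 3 (a1 * b1 * ((aeval y B.K * b * D y) * (aeval x A.K * a * D (D x) +
      (aeval x A.N * a - 2 * aeval x A.K * a1) * D x ^ 2) - (aeval x A.K * a * D x) *
      (aeval y B.K * b * D (D y) + (aeval y B.N * b - 2 * aeval y B.K * b1) * D y ^ 2))) := by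
    rw [hid]
    refine ((((((gK.mul gK').mul ((ga.mul gb).pow 3)).mul hW).neg).mono (by norm_num)).sub
      ((((((gK'.mul gb1).mul gM).mul (ga.pow 2)).mul gb).mul ((gx.pow 2).mul gy)).mono
        (by norm_num))).add
      ((((((gK.mul ga1).mul gM').mul ga).mul (gb.pow 2)).mul (gx.mul (gy.pow 2))).mono
        (by norm_num))
  have hab : a1 * b1 ≠ 0 := mul_ne_zero u1.1 u2.1
  have hab0 : P.ord (a1 * b1) = 0 := by rw [P.ord_mul u1.1 u2.1, u1.2, u2.2, add_zero]
  have h3 := ge_div (P := P) hab (n := 3) hge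
  rw [hab0, mul_div_cancel_left₀ _ hab] at h3
  exact h3.mono (by norm_num)

/-- **The order of the jet differential.** -/
theorem loc_jet (h : Nice P D) {A B : Dat} (hA : A.Ok) (hB : B.Ok) {u v : Fin 2 → L} {x y : L}
    (hux : u 1 = u 0 * x) (hvy : v 1 = v 0 * y) (hD : D x ≠ 0) (hD' : D y ≠ 0)
    {e ρ s e' ρ' s' : ℤ} (h1 : Cd P D A u x e ρ s) (h2 : Cd P D B v y e' ρ' s') :
    Ge P 0 (JetA A B D u v) ∧ Ge P (e + ρ + (e' + ρ') - 1) (JetA A B D u v) ∧
    (∀ n, n ≤ s + e + ρ → n ≤ s' + e' + ρ' → Ge P n (JetA A B D u v)) ∧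
    (e = 1 → e' = 1 → Ge P 3 (JetA A B D u v)) := by
  have c0 : Ge P 0 (A.chi u (wrA D u)) := h1.chi.mono (by
    have := h1.e0; have := h1.ρ0; have := h1.s0; omega)
  have c0' : Ge P 0 (B.chi v (wrA D v)) := h2.chi.mono (by
    have := h2.e0; have := h2.ρ0; have := h2.s0; omega)
  have s1 := h1.s0
  have s2 := h2.s0
  refine ⟨?_, ?_, fun n hn hn' => ?_, fun he he' => ?_⟩
  · exact ((c0'.mul h1.phi).mono (by omega)).sub ((c0.mul h2.phi).mono (by omega))
  · exact ((h2.chi.mul h1.phi').mono (by omega)).sub ((h1.chi.mul h2.phi').mono (by omega))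
  · exact ((h2.chi.mul h1.phi).mono (by omega)).sub ((h1.chi.mul h2.phi).mono (by omega))
  · have z1 := h1.es (by omega)
    have z2 := h2.es (by omega)
    obtain ⟨r1, o1⟩ := h1.reg z1
    obtain ⟨r2, o2⟩ := h2.reg z2
    have n1 := (ord_poly P (const_of_eq hD) hA.ne).1
    have n2 := (ord_poly P (const_of_eq hD') hB.ne).1
    have h3 := loc_one h hA hB r1 r2 n1 n2 (by omega) (by omega)
    rw [JetA_eq A B D hux hvy]
    have g1 : Ge P 0 (u 0) := Or.inr (by rw [h1.os, z1])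
    have g2 : Ge P 0 (v 0) := Or.inr (by rw [h2.os, z2])
    exact (((g1.pow _).mul (g2.pow _)).mul h3).mono (by simp)

/-- **The order of the auxiliary jet differential.** -/
theorem loc_aux (h : Nice P D) {A B : Dat} (hA : A.Ok) (hB : B.Ok) {u v : Fin 2 → L} {x y : L}
    (hu : u 0 ≠ 0) (hv : v 0 ≠ 0)
    (hux : u 1 = u 0 * x) (hvy : v 1 = v 0 * y) (hD : D x ≠ 0) (hD' : D y ≠ 0)
    (hJ : Jet1 A B D x y ≠ 0) {m c c' : ℕ} (hc : m ≤ c) (hc2 : c ≤ 2 * m) (hcc : c + c' = 3 * m)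
    {e ρ s e' ρ' s' : ℤ} (h1 : Cd P D A u x e ρ s) (h2 : Cd P D B v y e' ρ' s') :
    AuxA A B m D u v ≠ 0 ∧ c * e + c' * e' - 2 * m ≤ P.ord (AuxA A B m D u v) ∧
    ((Ge P 0 x → Ge P 0 y → P.ord (aeval x A.P) + P.ord (aeval y B.P) ≠ 1) →
      c * e + c' * e' ≤ P.ord (AuxA A B m D u v)) := by
  obtain ⟨j0, j1, j2, j3⟩ := loc_jet h hA hB hux hvy hD hD' h1 h2
  have hJne : JetA A B D u v ≠ 0 := by
    rw [JetA_eq A B D hux hvy]
    exact mul_ne_zero (mul_ne_zero (pow_ne_zero _ hu) (pow_ne_zero _ hv)) hJ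
  have hw1 : wrA D u ≠ 0 := by
    rw [wrA_eq D hux]; exact mul_ne_zero (pow_ne_zero _ hu) hD
  have hw2 : wrA D v ≠ 0 := by
    rw [wrA_eq D hvy]; exact mul_ne_zero (pow_ne_zero _ hv) hD'
  have hA1 : AuxA A B m D u v = JetA A B D u v ^ m * (wrA D u * wrA D v) ^ (2 * m) *
      (u 0 * v 0) ^ m := rfl
  have n1 : JetA A B D u v ^ m ≠ 0 := pow_ne_zero _ hJne
  have n2 : (wrA D u * wrA D v) ^ (2 * m) ≠ 0 := pow_ne_zero _ (mul_ne_zero hw1 hw2)
  have n3 : (u 0 * v 0) ^ m ≠ 0 := pow_ne_zero _ (mul_ne_zero hu hv)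
  have hne : AuxA A B m D u v ≠ 0 := by
    rw [hA1]
    exact mul_ne_zero (mul_ne_zero n1 n2) n3
  have hord : P.ord (AuxA A B m D u v) = m * (P.ord (JetA A B D u v) + 2 * (ρ + ρ') +
      (s + s')) := by
    rw [hA1, P.ord_mul (mul_ne_zero n1 n2) n3, P.ord_mul n1 n2, P.ord_pow, P.ord_pow, P.ord_pow,
      P.ord_mul hw1 hw2, P.ord_mul hu hv, h1.ow, h2.ow, h1.os, h2.os]
    push_cast
    ring
  rw [hord]
  set j := P.ord (JetA A B D u v) with hj
  have i0 := j0.resolve_left hJne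
  have i1 := j1.resolve_left hJne
  have i2 : ∀ n, n ≤ s + e + ρ → n ≤ s' + e' + ρ' → n ≤ j := fun n hn hn' =>
    (j2 n hn hn').resolve_left hJne
  have i3 : e = 1 → e' = 1 → 3 ≤ j := fun he he' => (j3 he he').resolve_left hJne
  rw [← hj] at i0 i1
  have a1 := h1.e0; have a2 := h1.ρ0; have a3 := h1.s0; have a4 := h1.ρe; have a5 := h1.es
  have b1 := h2.e0; have b2 := h2.ρ0; have b3 := h2.s0; have b4 := h2.ρe; have b5 := h2.es
  have hm0 : (0 : ℤ) ≤ m := Int.natCast_nonneg m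
  have hc' : (m : ℤ) ≤ c := by exact_mod_cast hc
  have hc2' : (c : ℤ) ≤ 2 * m := by exact_mod_cast hc2
  have hcc' : (c' : ℤ) = 3 * m - c := by
    have : (c : ℤ) + c' = 3 * m := by exact_mod_cast hcc
    linarith
  rw [hcc']
  refine ⟨hne, ?_, fun hst => ?_⟩
  · -- the weak estimate
    have hX : ∀ X : ℤ, 0 ≤ X → 0 ≤ (m : ℤ) * X := fun X hX => mul_nonneg hm0 hX
    rcases (by omega : e = 0 ∧ e' = 0 ∨ e = 0 ∧ 1 ≤ e' ∨ 1 ≤ e ∧ e' = 0 ∨ e = 1 ∧ e' = 1 ∨
      1 ≤ e ∧ 1 ≤ e' ∧ 3 ≤ e + e') with ⟨h3, h4⟩ | ⟨h3, h4⟩ | ⟨h3, h4⟩ | ⟨h3, h4⟩ | ⟨h3, h4, h5⟩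
    · rw [h3, h4]
      have := hX (j + 2 * (ρ + ρ') + (s + s')) (by omega)
      nlinarith
    · rw [h3]
      have := hX (j + 2 * (ρ + ρ') + (s + s') - 4 * (e' - 1)) (by omega)
      nlinarith [mul_nonneg hm0 (by omega : (0 : ℤ) ≤ e' - 1),
        mul_nonneg (by linarith : (0 : ℤ) ≤ c - m) (by omega : (0 : ℤ) ≤ e')]
    · rw [h4]
      have := hX (j + 2 * (ρ + ρ') + (s + s') - 4 * (e - 1)) (by omega)
      nlinarith [mul_nonneg hm0 (by omega : (0 : ℤ) ≤ e - 1),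
        mul_nonneg (by linarith : (0 : ℤ) ≤ 2 * m - c) (by omega : (0 : ℤ) ≤ e)]
    · rw [h3, h4]
      have := hX (j + 2 * (ρ + ρ') + (s + s') - 3) (by have := i3 h3 h4; omega)
      nlinarith
    · have := hX (j + 2 * (ρ + ρ') + (s + s') - (4 * (e + e') - 7)) (by omega)
      nlinarith [mul_nonneg (by linarith : (0 : ℤ) ≤ 2 * m - c) (by omega : (0 : ℤ) ≤ e - 1),
        mul_nonneg (by linarith : (0 : ℤ) ≤ c - m) (by omega : (0 : ℤ) ≤ e' - 1),
        mul_nonneg hm0 (by omega : (0 : ℤ) ≤ e + e' - 3)]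
  · -- the strong estimate
    have hX : ∀ X : ℤ, 0 ≤ X → 0 ≤ (m : ℤ) * X := fun X hX => mul_nonneg hm0 hX
    have hbad : ¬ (s = 0 ∧ s' = 0 ∧ e + e' = 1) := by
      rintro ⟨z1, z2, z3⟩
      have r1 := h1.reg z1
      have r2 := h2.reg z2
      exact hst r1.1 r2.1 (by rw [r1.2, r2.2]; exact z3)
    rcases (by omega : e = 0 ∧ e' = 0 ∨ e = 0 ∧ 1 ≤ e' ∨ 1 ≤ e ∧ e' = 0 ∨ e = 1 ∧ e' = 1 ∨
      1 ≤ e ∧ 1 ≤ e' ∧ 3 ≤ e + e') with ⟨h3, h4⟩ | ⟨h3, h4⟩ | ⟨h3, h4⟩ | ⟨h3, h4⟩ | ⟨h3, h4, h5⟩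
    · rw [h3, h4]
      have := hX (j + 2 * (ρ + ρ') + (s + s')) (by omega)
      nlinarith
    · rw [h3]
      rcases (by omega : e' = 1 ∨ 2 ≤ e') with h5 | h5
      · have h6 := i2 1 (by omega) (by omega)
        have := hX (j + 2 * (ρ + ρ') + (s + s') - 2) (by omega)
        rw [h5]
        nlinarith
      · have := hX (j + 2 * (ρ + ρ') + (s + s') - 4 * (e' - 1)) (by omega)
        nlinarith [mul_nonneg hm0 (by omega : (0 : ℤ) ≤ e' - 2),
          mul_nonneg (by linarith : (0 : ℤ) ≤ c - m) (by omega : (0 : ℤ) ≤ e')]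
    · rw [h4]
      rcases (by omega : e = 1 ∨ 2 ≤ e) with h5 | h5
      · have h6 := i2 1 (by omega) (by omega)
        have := hX (j + 2 * (ρ + ρ') + (s + s') - 2) (by omega)
        rw [h5]
        nlinarith
      · have := hX (j + 2 * (ρ + ρ') + (s + s') - 4 * (e - 1)) (by omega)
        nlinarith [mul_nonneg hm0 (by omega : (0 : ℤ) ≤ e - 2),
          mul_nonneg (by linarith : (0 : ℤ) ≤ 2 * m - c) (by omega : (0 : ℤ) ≤ e)]
    · rw [h3, h4]
      have := hX (j + 2 * (ρ + ρ') + (s + s') - 3) (by have := i3 h3 h4; omega)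
      nlinarith
    · have := hX (j + 2 * (ρ + ρ') + (s + s') - (4 * (e + e') - 7)) (by omega)
      nlinarith [mul_nonneg (by linarith : (0 : ℤ) ≤ 2 * m - c) (by omega : (0 : ℤ) ≤ e - 1),
        mul_nonneg (by linarith : (0 : ℤ) ≤ c - m) (by omega : (0 : ℤ) ≤ e' - 1),
        mul_nonneg hm0 (by omega : (0 : ℤ) ≤ e + e' - 3)]

end Pool.Agent.K9h12.SG
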