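import Pool.Agent.K9h12.FR.Frm

/-!
Pairs of rational functions without simple contacts with a union of lines.
-/

set_option autoImplicit false

open Polynomial Pool.Agent.K9h12.FR

namespace Pool.Agent.K9h12.SG

/-- The rational map `(x, y)` from the quasi-projective variety `X - D`, with generic point `a`, to
the plane never meets the curve `P(x) Q(y) = 0` with total contact order one: there are forms `g 0`,
`g 1`, `g 2` of the same degree with `x = g 1 / g 0`, `y = g 2 / g 0` and a form `G0` which does not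
vanish on `X` such that for all points `a'` of `X` over a field `L`, outside `G0 = 0` and `g 0 = 0`,
and all places `v` of `L` whose centre is not in `D` and at which the values `x'`, `y'` of `x` and
`y` at `a'` are regular, the sum of the orders of `P(x')` and `Q(y')` at `v` is not one (if these
are not zero). -/
def NoSimpleContact (P Q : ℂ[X]) {N : ℕ} (X D : PSet N) {K : Type} [Field K] [Algebra ℂ K]
    (a : Fin (N + 1) → K) (x y : K) : Prop :=
  ∃ (δ : ℕ) (g : Fin 3 → MvPolynomial (Fin (N + 1)) ℂ) (G0 : MvPolynomial (Fin (N + 1)) ℂ),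
    (∀ i, (g i).IsHomogeneous δ) ∧ (∃ E : ℕ, G0.IsHomogeneous E) ∧
    MvPolynomial.aeval a G0 ≠ 0 ∧ MvPolynomial.aeval a (g 0) ≠ 0 ∧
    x = MvPolynomial.aeval a (g 1) / MvPolynomial.aeval a (g 0) ∧
    y = MvPolynomial.aeval a (g 2) / MvPolynomial.aeval a (g 0) ∧
    ∀ (L : Type) [Field L] [Algebra ℂ L] (a' : Fin (N + 1) → L) (x' y' : L),
      x' = MvPolynomial.aeval a' (g 1) / MvPolynomial.aeval a' (g 0) →
      y' = MvPolynomial.aeval a' (g 2) / MvPolynomial.aeval a' (g 0) →
      X.Mem a' → MvPolynomial.aeval a' G0 ≠ 0 → MvPolynomial.aeval a' (g 0) ≠ 0 →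
      ∀ v : FF.Place ℂ L, ¬ CentreIn D a' v → v.Reg x' → v.Reg y' →
        aeval x' P ≠ 0 → aeval y' Q ≠ 0 → v.ord (aeval x' P) + v.ord (aeval y' Q) ≠ 1

/-- If `w ^ m = P(x) ^ k * Q(y) ^ l`, then there are no simple contacts. -/
theorem noSimple_of_root {P Q : ℂ[X]} {N : ℕ} {X D : PSet N} {K : Type} [Field K] [Algebra ℂ K]
    {a : Fin (N + 1) → K} (hK : X.FunctionField K a) {x y w : K} {m k l : ℕ} (hk : ¬ m ∣ k)
    (hl : ¬ m ∣ l) (hw : w ^ m = aeval x P ^ k * aeval y Q ^ l) :
    NoSimpleContact P Q X D a x y := by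
  obtain ⟨δ, g, hg, hg0, hgw⟩ := exists_common hK ![x, y, w]
  have ex : x = MvPolynomial.aeval a (g 1) / MvPolynomial.aeval a (g 0) := hgw 0
  have ey : y = MvPolynomial.aeval a (g 2) / MvPolynomial.aeval a (g 0) := hgw 1
  have ew : w = MvPolynomial.aeval a (g 3) / MvPolynomial.aeval a (g 0) := hgw 2
  refine ⟨δ, ![g 0, g 1, g 2], 1, ?_, ⟨0, MvPolynomial.isHomogeneous_one _ _⟩, by simp, hg0, ex, ey,
    ?_⟩
  · intro i
    fin_cases i
    · exact hg 0
    · exact hg 1
    · exact hg 2
  · intro L _ _ a' x' y' hx' hy' ha' _ hg0' v _ hrx hry hPx hQy hone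
    change MvPolynomial.aeval a' (g 0) ≠ 0 at hg0'
    change x' = MvPolynomial.aeval a' (g 1) / MvPolynomial.aeval a' (g 0) at hx'
    change y' = MvPolynomial.aeval a' (g 2) / MvPolynomial.aeval a' (g 0) at hy'
    set w' := MvPolynomial.aeval a' (g 3) / MvPolynomial.aeval a' (g 0) with hw'
    let F : MvPolynomial (Fin 3) ℂ := MvPolynomial.X 2 ^ m -
      (aeval (MvPolynomial.X 0) P) ^ k * (aeval (MvPolynomial.X 1) Q) ^ l
    have hval : ∀ {M : Type} [Field M] [Algebra ℂ M] (z : Fin 3 → M),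
        MvPolynomial.aeval z F = z 2 ^ m - aeval (z 0) P ^ k * aeval (z 1) Q ^ l := by
      intro M _ _ z
      simp only [F, map_sub, map_mul, map_pow, MvPolynomial.aeval_X]
      rw [← Polynomial.aeval_algHom_apply, ← Polynomial.aeval_algHom_apply,
        MvPolynomial.aeval_X, MvPolynomial.aeval_X]
    have hF : MvPolynomial.aeval (fun i : Fin 3 => MvPolynomial.aeval a (g i.succ) /
        MvPolynomial.aeval a (g 0)) F = 0 := by
      rw [hval]
      have h1 : MvPolynomial.aeval a (g (0 : Fin 3).succ) / MvPolynomial.aeval a (g 0) = x :=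
        ex.symm
      have h2 : MvPolynomial.aeval a (g (1 : Fin 3).succ) / MvPolynomial.aeval a (g 0) = y :=
        ey.symm
      have h3 : MvPolynomial.aeval a (g (2 : Fin 3).succ) / MvPolynomial.aeval a (g 0) = w :=
        ew.symm
      rw [h1, h2, h3, hw, sub_self]
    have hF' := spec_rel hK hg hg0 hF ha' hg0'
    rw [hval] at hF'
    have hrel : w' ^ m = aeval x' P ^ k * aeval y' Q ^ l := by
      rw [hx', hy', hw']
      exact sub_eq_zero.1 hF'
    have hreg : ∀ {z : L} (_ : v.Reg z) (R : ℂ[X]), v.Reg (aeval z R) := by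
      intro z hz R
      have h1 : z ∈ v.O := hz
      have h2 : aeval z R ∈ v.O := by
        induction R using Polynomial.induction_on' with
        | add p q hp hq => rw [map_add]; exact add_mem hp hq
        | monomial n c =>
          rw [aeval_monomial]
          exact mul_mem (v.reg_const c) (pow_mem h1 n)
      exact h2
    have hs := (v.reg_iff hPx).1 (hreg hrx P)
    have ht := (v.reg_iff hQy).1 (hreg hry Q)
    have hord := congrArg v.ord hrel
    rw [v.ord_mul (pow_ne_zero _ hPx) (pow_ne_zero _ hQy), v.ord_pow, v.ord_pow, v.ord_pow] at hord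
    rcases (by omega : (v.ord (aeval x' P) = 1 ∧ v.ord (aeval y' Q) = 0) ∨
      (v.ord (aeval x' P) = 0 ∧ v.ord (aeval y' Q) = 1)) with ⟨h1, h2⟩ | ⟨h1, h2⟩
    · rw [h1, h2, mul_one, mul_zero, add_zero] at hord
      exact hk (Int.natCast_dvd_natCast.1 ⟨_, hord.symm⟩)
    · rw [h1, h2, mul_one, mul_zero, zero_add] at hord
      exact hl (Int.natCast_dvd_natCast.1 ⟨_, hord.symm⟩)

end Pool.Agent.K9h12.SG
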