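import Pool.Agent.K9h12.SG.Itp

/-!
The order of generic polynomials, and of polynomials with few critical points.
-/

set_option autoImplicit false

open Polynomial

namespace Pool.Agent.K9h12.SG

/-- polynomials without terms of small degree -/
theorem split_zero {f g : ℂ[X]} {s : ℕ} (hf : f.natDegree < s) (h : f + X ^ s * g = 0) :
    f = 0 ∧ g = 0 := by
  have h1 : f = 0 := by
    ext i
    rw [coeff_zero]
    by_cases hi : i < s
    · have h2 := congrArg (fun R => R.coeff i) h
      simp only [coeff_add, coeff_zero, coeff_X_pow_mul', if_neg (not_le.2 hi), add_zero] at h2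
      exact h2
    · exact coeff_eq_zero_of_natDegree_lt (by omega)
  refine ⟨h1, ?_⟩
  rw [h1, zero_add] at h
  exact (mul_eq_zero.1 h).resolve_left (pow_ne_zero _ X_ne_zero)

/-- a trinomial with large gaps -/
theorem trinomial {a n : ℕ} (hn : 2 * (a + 1) + 2 ≤ n) {K N M : ℂ[X]}
    (hK : K.natDegree ≤ a + 1) (hN : N.natDegree ≤ a) (hM : M = 0 ∨ M.natDegree < a)
    (h : K * derivative (derivative (X ^ n + X ^ (a + 2) + 1)) -
      N * derivative (X ^ n + X ^ (a + 2) + 1) - M * (X ^ n + X ^ (a + 2) + 1) = 0) :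
    K = 0 ∧ N = 0 ∧ M = 0 := by
  -- the three blocks
  let al : ℕ → ℂ[X] := fun m => C ((m : ℂ) * (m - 1)) * K - C (m : ℂ) * (X * N) - X ^ 2 * M
  have hal : ∀ m, (al m).natDegree ≤ a + 1 := by
    intro m
    have h1 : (C ((m : ℂ) * (m - 1)) * K).natDegree ≤ a + 1 :=
      (natDegree_C_mul_le _ _).trans hK
    have h2 : (C (m : ℂ) * (X * N)).natDegree ≤ a + 1 := by
      refine (natDegree_C_mul_le _ _).trans (natDegree_mul_le.trans ?_)
      rw [natDegree_X]
      omega
    have h3 : (X ^ 2 * M : ℂ[X]).natDegree ≤ a + 1 := by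
      rcases hM with rfl | hM
      · simp
      · refine natDegree_mul_le.trans ?_
        rw [natDegree_X_pow]
        omega
    exact (natDegree_sub_le_of_le (natDegree_sub_le_of_le h1 h2) h3).trans (by simp)
  have d1 : ∀ m : ℕ, X * derivative (X ^ m : ℂ[X]) = C (m : ℂ) * X ^ m := by
    intro m
    rw [derivative_X_pow]
    cases m with
    | zero => simp
    | succ m => rw [Nat.add_sub_cancel]; ring
  have d2 : ∀ m : ℕ, X ^ 2 * derivative (derivative (X ^ m : ℂ[X])) =
      C ((m : ℂ) * (m - 1)) * X ^ m := by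
    intro m
    have h1 := congrArg derivative (d1 m)
    rw [derivative_mul, derivative_X, one_mul, derivative_C_mul] at h1
    have h2 : X ^ 2 * derivative (derivative (X ^ m : ℂ[X])) =
        C (m : ℂ) * (X * derivative (X ^ m)) - X * derivative (X ^ m) := by
      linear_combination X * h1
    rw [h2, d1, C_mul, C_sub, C_1]
    ring
  have hid : al 0 + X ^ (a + 2) * (al (a + 2) + X ^ (n - (a + 2)) * al n) = 0 := by
    have e1 : (X : ℂ[X]) ^ (a + 2) * X ^ (n - (a + 2)) = X ^ n := by
      rw [← pow_add]; congr 1; omega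
    have e2 : al 0 = -(X ^ 2 * M) := by simp [al]
    have h2 : X ^ 2 * (K * derivative (derivative (X ^ n + X ^ (a + 2) + 1)) -
      N * derivative (X ^ n + X ^ (a + 2) + 1) - M * (X ^ n + X ^ (a + 2) + 1)) = 0 := by
      rw [h, mul_zero]
    simp only [derivative_add, derivative_one, add_zero] at h2
    rw [e2]
    simp only [al]
    linear_combination h2 - K * d2 n - K * d2 (a + 2) + X * N * d1 n + X * N * d1 (a + 2) +
      (C ((n : ℂ) * (n - 1)) * K - C (n : ℂ) * (X * N) - X ^ 2 * M) * e1
  obtain ⟨z0, h3⟩ := split_zero (by have := hal 0; omega) hid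
  obtain ⟨z1, z2⟩ := split_zero (by have := hal (a + 2); omega) h3
  have hM0 : M = 0 := by
    have e2 : al 0 = -(X ^ 2 * M) := by simp [al]
    rw [e2, neg_eq_zero] at z0
    exact (mul_eq_zero.1 z0).resolve_left (pow_ne_zero _ X_ne_zero)
  have hs : ((a + 2 : ℕ) : ℂ) ≠ 0 := Nat.cast_ne_zero.2 (by omega)
  have hn0 : (n : ℂ) ≠ 0 := Nat.cast_ne_zero.2 (by omega)
  have hns : (n : ℂ) - ((a + 2 : ℕ) : ℂ) ≠ 0 := by
    rw [sub_ne_zero]
    exact fun h => absurd (Nat.cast_injective h) (by omega)
  simp only [al, hM0, mul_zero, sub_zero] at z1 z2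
  have hK0 : K = 0 := by
    have h4 : C ((n : ℂ) * ((a + 2 : ℕ) : ℂ) * ((n : ℂ) - ((a + 2 : ℕ) : ℂ))) * K = 0 := by
      simp only [C_mul, C_sub, C_1] at z1 z2 ⊢
      linear_combination C ((a + 2 : ℕ) : ℂ) * z2 - C (n : ℂ) * z1
    exact (mul_eq_zero.1 h4).resolve_left fun h5 =>
      mul_ne_zero (mul_ne_zero hn0 hs) hns (C_eq_zero.1 h5)
  refine ⟨hK0, ?_, hM0⟩
  rw [hK0, mul_zero, zero_sub, neg_eq_zero] at z2
  exact (mul_eq_zero.1 ((mul_eq_zero.1 z2).resolve_left fun h5 =>
    hn0 (C_eq_zero.1 h5))).resolve_left X_ne_zero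

/-- injectivity of matrices is an open condition -/
theorem open_inj {n k l : ℕ} (T : Matrix (Fin l) (Fin k) (MvPolynomial (Fin n) ℂ))
    (c0 : Fin n → ℂ)
    (h0 : ∀ v : Fin k → ℂ, (T.map (MvPolynomial.eval c0)).mulVec v = 0 → v = 0) :
    ∃ H : MvPolynomial (Fin n) ℂ, H ≠ 0 ∧ ∀ c, MvPolynomial.eval c H ≠ 0 →
      ∀ v : Fin k → ℂ, (T.map (MvPolynomial.eval c)).mulVec v = 0 → v = 0 := by
  classical
  have hker : LinearMap.ker (Matrix.toLin' (T.map (MvPolynomial.eval c0))) = ⊥ := by
    rw [Submodule.eq_bot_iff]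
    intro v hv
    exact h0 v (by rwa [LinearMap.mem_ker, Matrix.toLin'_apply] at hv)
  obtain ⟨g, hg⟩ := LinearMap.exists_leftInverse_of_injective _ hker
  set S : Matrix (Fin k) (Fin l) ℂ := LinearMap.toMatrix' g with hS
  have hST : S * T.map (MvPolynomial.eval c0) = 1 := by
    have h1 := congrArg LinearMap.toMatrix' hg
    rw [LinearMap.toMatrix'_comp, LinearMap.toMatrix'_toLin', LinearMap.toMatrix'_id] at h1
    exact h1
  let S' : Matrix (Fin k) (Fin l) (MvPolynomial (Fin n) ℂ) :=
    Matrix.of fun i j => MvPolynomial.C (S i j)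
  have hev : ∀ c : Fin n → ℂ, MvPolynomial.eval c (S' * T).det =
      (S * T.map (MvPolynomial.eval c)).det := by
    intro c
    rw [RingHom.map_det]
    congr 1
    ext i j
    simp [Matrix.mul_apply, S']
  refine ⟨(S' * T).det, ?_, fun c hc v hv => ?_⟩
  · intro h
    have h1 := hev c0
    rw [h, hST, map_zero, Matrix.det_one] at h1
    exact zero_ne_one h1
  · rw [hev] at hc
    have h1 : (S * T.map (MvPolynomial.eval c)).mulVec v = 0 := by
      rw [← Matrix.mulVec_mulVec, hv, Matrix.mulVec_zero]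
    exact Matrix.eq_zero_of_mulVec_eq_zero hc h1

/-- the generic monic polynomial -/
noncomputable def Gn (n : ℕ) : (MvPolynomial (Fin n) ℂ)[X] :=
  X ^ n + ∑ i : Fin n, C (MvPolynomial.X i) * X ^ (i : ℕ)

/-- the monic polynomial with given coefficients -/
noncomputable def Mn {n : ℕ} (c : Fin n → ℂ) : ℂ[X] := X ^ n + ∑ i : Fin n, C (c i) * X ^ (i : ℕ)

theorem Gn_map {n : ℕ} (c : Fin n → ℂ) : (Gn n).map (MvPolynomial.eval c) = Mn c := by
  unfold Gn Mn
  simp [Polynomial.map_sum]

theorem Mn_natDegree {n : ℕ} (c : Fin n → ℂ) : (Mn c).natDegree = n ∧ (Mn c).leadingCoeff = 1 := by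
  have h1 : (∑ i : Fin n, C (c i) * X ^ (i : ℕ) : ℂ[X]).degree < n := by
    refine (degree_sum_le _ _).trans_lt ?_
    rw [Finset.sup_lt_iff (by exact WithBot.bot_lt_coe n)]
    intro i _
    exact (degree_C_mul_X_pow_le _ _).trans_lt (by exact_mod_cast i.2)
  have h2 : (Mn c).degree = n := by
    unfold Mn
    rw [degree_add_eq_left_of_degree_lt (by rwa [degree_X_pow]), degree_X_pow]
  have h3 : (Mn c).natDegree = n := natDegree_eq_of_degree_eq_some h2
  refine ⟨h3, ?_⟩
  unfold Polynomial.leadingCoeff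
  rw [h3]
  unfold Mn
  rw [coeff_add, coeff_X_pow_self, coeff_eq_zero_of_degree_lt h1, add_zero]

/-- the polynomial with given coefficients in degrees less than `k` -/
noncomputable def Lw {R : Type} [CommRing R] {k : ℕ} (v : Fin k → R) : R[X] :=
  ∑ i : Fin k, C (v i) * X ^ (i : ℕ)

theorem Lw_coeff {k : ℕ} (v : Fin k → ℂ) (i : Fin k) : (Lw v).coeff i = v i := by
  unfold Lw
  rw [finsetSum_coeff]
  simp only [coeff_C_mul, coeff_X_pow]
  rw [Finset.sum_eq_single i]
  · simp
  · intro j _ hj
    rw [if_neg (fun h => hj (Fin.ext h.symm)), mul_zero]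
  · simp

theorem Lw_degree {k : ℕ} (v : Fin k → ℂ) : (Lw v).degree < k := by
  unfold Lw
  refine (degree_sum_le _ _).trans_lt ?_
  rw [Finset.sup_lt_iff (by exact WithBot.bot_lt_coe k)]
  intro i _
  exact (degree_C_mul_X_pow_le _ _).trans_lt (by exact_mod_cast i.2)

theorem Lw_of {k : ℕ} {R : ℂ[X]} (hR : R.degree < k) : Lw (fun i : Fin k => R.coeff i) = R := by
  ext j
  by_cases hj : j < k
  · exact Lw_coeff (fun i : Fin k => R.coeff i) ⟨j, hj⟩
  · have h1 := coeff_eq_zero_of_degree_lt (lt_of_lt_of_le (Lw_degree fun i : Fin k => R.coeff i)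
      (by exact_mod_cast not_lt.1 hj : (k : WithBot ℕ) ≤ j))
    have h2 := coeff_eq_zero_of_degree_lt (lt_of_lt_of_le hR
      (by exact_mod_cast not_lt.1 hj : (k : WithBot ℕ) ≤ j))
    rw [h1, h2]

/-- **Generic polynomials have large order.** -/
theorem generic_order {n a : ℕ} (hn : 2 * a + 2 ≤ n) : ∃ H : MvPolynomial (Fin n) ℂ, H ≠ 0 ∧
    ∀ c, MvPolynomial.eval c H ≠ 0 → ¬ OrderLe (Mn c) a := by
  rcases Nat.eq_zero_or_pos a with rfl | ha
  · exact ⟨1, one_ne_zero, fun c _ => by
      rintro ⟨K, N, -, -, h, -⟩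
      omega⟩
  obtain ⟨a', rfl⟩ : ∃ a', a = a' + 1 := ⟨a - 1, by omega⟩
  -- the matrix
  let e : Fin ((a' + 2) + ((a' + 1) + a')) ≃ Fin (a' + 2) ⊕ (Fin (a' + 1) ⊕ Fin a') :=
    finSumFinEquiv.symm.trans (Equiv.sumCongr (Equiv.refl _) finSumFinEquiv.symm)
  let col : Fin (a' + 2) ⊕ (Fin (a' + 1) ⊕ Fin a') → (MvPolynomial (Fin n) ℂ)[X] := fun j =>
    match j with
    | Sum.inl j => X ^ (j : ℕ) * derivative (derivative (Gn n))
    | Sum.inr (Sum.inl j) => -(X ^ (j : ℕ) * derivative (Gn n))
    | Sum.inr (Sum.inr j) => -(X ^ (j : ℕ) * Gn n)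
  let T : Matrix (Fin (n + a' + 3)) (Fin ((a' + 2) + ((a' + 1) + a'))) (MvPolynomial (Fin n) ℂ) :=
    Matrix.of fun i j => (col (e j)).coeff i
  -- the meaning of the matrix
  have hT : ∀ (c : Fin n → ℂ) (v : Fin ((a' + 2) + ((a' + 1) + a')) → ℂ),
      (T.map (MvPolynomial.eval c)).mulVec v = 0 ↔
      Lw (fun j => v (e.symm (Sum.inl j))) * derivative (derivative (Mn c)) -
        Lw (fun j => v (e.symm (Sum.inr (Sum.inl j)))) * derivative (Mn c) -
        Lw (fun j => v (e.symm (Sum.inr (Sum.inr j)))) * Mn c = 0 := by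
    intro c v
    set R : ℂ[X] := Lw (fun j => v (e.symm (Sum.inl j))) * derivative (derivative (Mn c)) -
        Lw (fun j => v (e.symm (Sum.inr (Sum.inl j)))) * derivative (Mn c) -
        Lw (fun j => v (e.symm (Sum.inr (Sum.inr j)))) * Mn c with hR
    have hcol : ∀ i : ℕ, ∑ j, MvPolynomial.eval c ((col (e j)).coeff i) * v j = R.coeff i := by
      intro i
      rw [← Equiv.sum_comp e.symm, Fintype.sum_sum_type, Fintype.sum_sum_type]
      simp only [Equiv.apply_symm_apply, col]
      have g1 : ∀ j : ℕ, MvPolynomial.eval c ((X ^ j * derivative (derivative (Gn n))).coeff i) =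
          (X ^ j * derivative (derivative (Mn c))).coeff i := by
        intro j
        rw [← coeff_map, Polynomial.map_mul, Polynomial.map_pow, map_X, ← derivative_map,
          ← derivative_map, Gn_map]
      have g2 : ∀ j : ℕ, MvPolynomial.eval c ((-(X ^ j * derivative (Gn n))).coeff i) =
          -(X ^ j * derivative (Mn c)).coeff i := by
        intro j
        rw [coeff_neg, map_neg, ← coeff_map, Polynomial.map_mul, Polynomial.map_pow, map_X,
          ← derivative_map, Gn_map]
      have g3 : ∀ j : ℕ, MvPolynomial.eval c ((-(X ^ j * Gn n)).coeff i) =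
          -(X ^ j * Mn c).coeff i := by
        intro j
        rw [coeff_neg, map_neg, ← coeff_map, Polynomial.map_mul, Polynomial.map_pow, map_X,
          Gn_map]
      simp only [g1, g2, g3]
      have g4 : ∀ {k : ℕ} (w : Fin k → ℂ) (S : ℂ[X]), (Lw w * S).coeff i =
          ∑ j : Fin k, (X ^ (j : ℕ) * S).coeff i * w j := by
        intro k w S
        unfold Lw
        rw [Finset.sum_mul, finsetSum_coeff]
        refine Finset.sum_congr rfl fun j _ => ?_
        rw [mul_assoc, coeff_C_mul, mul_comm]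
      rw [hR, coeff_sub, coeff_sub, g4, g4, g4]
      simp only [neg_mul, Finset.sum_neg_distrib]
      ring
    have hdeg : R.natDegree < n + a' + 3 := by
      have m1 := (Mn_natDegree c).1
      have m2 := natDegree_derivative_le (Mn c)
      have m3 := natDegree_derivative_le (derivative (Mn c))
      have l1 : ∀ {k : ℕ} (w : Fin k → ℂ), (Lw w).natDegree ≤ k := fun w =>
        natDegree_le_of_degree_le (Lw_degree w).le
      have t1 : (Lw (fun j => v (e.symm (Sum.inl j))) *
          derivative (derivative (Mn c))).natDegree ≤ n + a' + 2 := by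
        refine natDegree_mul_le.trans ?_
        have := l1 (fun j => v (e.symm (Sum.inl j)))
        omega
      have t2 : (Lw (fun j => v (e.symm (Sum.inr (Sum.inl j)))) *
          derivative (Mn c)).natDegree ≤ n + a' + 2 := by
        refine natDegree_mul_le.trans ?_
        have := l1 (fun j => v (e.symm (Sum.inr (Sum.inl j))))
        omega
      have t3 : (Lw (fun j => v (e.symm (Sum.inr (Sum.inr j)))) *
          Mn c).natDegree ≤ n + a' + 2 := by
        refine natDegree_mul_le.trans ?_
        have := l1 (fun j => v (e.symm (Sum.inr (Sum.inr j))))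
        omega
      have := natDegree_sub_le_of_le (natDegree_sub_le_of_le t1 t2) t3
      rw [← hR] at this
      simp only [max_self] at this
      omega
    constructor
    · intro h
      ext i
      rw [coeff_zero]
      by_cases hi : i < n + a' + 3
      · have h1 := congrFun h ⟨i, hi⟩
        rw [← hcol i]
        exact h1
      · exact coeff_eq_zero_of_natDegree_lt (by omega)
    · intro h
      funext i
      have h1 := hcol i
      rw [h, coeff_zero] at h1
      exact h1
  -- the vector vanishes if its three parts vanish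
  have hvec : ∀ v : Fin ((a' + 2) + ((a' + 1) + a')) → ℂ,
      Lw (fun j => v (e.symm (Sum.inl j))) = 0 →
      Lw (fun j => v (e.symm (Sum.inr (Sum.inl j)))) = 0 →
      Lw (fun j => v (e.symm (Sum.inr (Sum.inr j)))) = 0 → v = 0 := by
    intro v h1 h2 h3
    funext j
    rw [← e.symm_apply_apply j]
    rcases e j with j | j | j
    · have := Lw_coeff (fun j => v (e.symm (Sum.inl j))) j
      rw [h1, coeff_zero] at this
      exact this.symm
    · have := Lw_coeff (fun j => v (e.symm (Sum.inr (Sum.inl j)))) j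
      rw [h2, coeff_zero] at this
      exact this.symm
    · have := Lw_coeff (fun j => v (e.symm (Sum.inr (Sum.inr j)))) j
      rw [h3, coeff_zero] at this
      exact this.symm
  -- the base point
  let c0 : Fin n → ℂ := fun i => if (i : ℕ) = a' + 2 then 1 else if (i : ℕ) = 0 then 1 else 0
  have hc0 : Mn c0 = X ^ n + X ^ (a' + 2) + 1 := by
    unfold Mn
    have h1 : ∑ i : Fin n, C (c0 i) * X ^ (i : ℕ) = X ^ (a' + 2) + 1 := by
      ext j
      have h2 : (∑ i : Fin n, C (c0 i) * X ^ (i : ℕ) : ℂ[X]) = Lw c0 := rfl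
      rw [h2]
      by_cases hj : j < n
      · rw [show (Lw c0).coeff j = c0 ⟨j, hj⟩ from Lw_coeff c0 ⟨j, hj⟩]
        simp only [c0, coeff_add, coeff_X_pow, coeff_one]
        split_ifs <;> first | omega | simp
      · rw [coeff_eq_zero_of_degree_lt (lt_of_lt_of_le (Lw_degree c0)
          (by exact_mod_cast not_lt.1 hj : (n : WithBot ℕ) ≤ j)), coeff_add, coeff_X_pow,
          coeff_one, if_neg (by omega), if_neg (by omega), add_zero]
    rw [h1]
    ring
  obtain ⟨H, hH, hH'⟩ := open_inj T c0 (by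
    intro v hv
    rw [hT, hc0] at hv
    have l1 : ∀ {k : ℕ} (w : Fin (k + 1) → ℂ), (Lw w).natDegree ≤ k := fun {k} w => by
      have := Lw_degree w
      by_cases h0 : Lw w = 0
      · rw [h0]; simp
      · rw [degree_eq_natDegree h0] at this
        have h1 : (Lw w).natDegree < k + 1 := by exact_mod_cast this
        omega
    obtain ⟨z1, z2, z3⟩ := trinomial (a := a') (by omega) (l1 _) (l1 _) (by
      by_cases h0 : Lw (fun j => v (e.symm (Sum.inr (Sum.inr j)))) = 0
      · exact Or.inl h0
      · right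
        have := Lw_degree (fun j => v (e.symm (Sum.inr (Sum.inr j))))
        rw [degree_eq_natDegree h0] at this
        exact_mod_cast this) hv
    exact hvec v z1 z2 z3)
  refine ⟨H, hH, fun c hc => ?_⟩
  rintro ⟨K, N, hK0, hK, hN, M, hM⟩
  obtain ⟨m1, m2⟩ := Mn_natDegree c
  have hMn0 : Mn c ≠ 0 := by
    intro h0
    rw [h0, leadingCoeff_zero] at m2
    exact zero_ne_one m2
  have dK : K.degree < (a' + 2 : ℕ) := by
    rw [degree_eq_natDegree hK0]
    exact_mod_cast (by omega : K.natDegree < a' + 2)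
  have dN : N.degree < (a' + 1 : ℕ) := by
    by_cases h0 : N = 0
    · rw [h0, degree_zero]; exact WithBot.bot_lt_coe _
    · rw [degree_eq_natDegree h0]
      exact_mod_cast hN
  have dM : M.degree < (a' : ℕ) := by
    by_cases h0 : M = 0
    · rw [h0, degree_zero]; exact WithBot.bot_lt_coe _
    · have h1 : (Mn c * M).natDegree = n + M.natDegree := by
        rw [natDegree_mul hMn0 h0, m1]
      have m3 := natDegree_derivative_le (Mn c)
      have m4 := natDegree_derivative_le (derivative (Mn c))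
      have t1 : (K * derivative (derivative (Mn c))).natDegree ≤ n + a' - 1 := by
        refine natDegree_mul_le.trans ?_
        omega
      have t2 : (N * derivative (Mn c)).natDegree ≤ n + a' - 1 := by
        refine natDegree_mul_le.trans ?_
        omega
      have h2 := natDegree_sub_le_of_le t1 t2
      rw [hM, h1, max_self] at h2
      rw [degree_eq_natDegree h0]
      exact_mod_cast (by omega : M.natDegree < a')
  let w : Fin (a' + 2) ⊕ (Fin (a' + 1) ⊕ Fin a') → ℂ := fun j =>
    match j with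
    | Sum.inl j => K.coeff j
    | Sum.inr (Sum.inl j) => N.coeff j
    | Sum.inr (Sum.inr j) => M.coeff j
  have hv := hH' c hc (fun j => w (e j)) (by
    rw [hT]
    simp only [Equiv.apply_symm_apply, w]
    rw [Lw_of dK, Lw_of dN, Lw_of dM, hM]
    ring)
  apply hK0
  rw [← Lw_of dK]
  have h3 : (fun i : Fin (a' + 2) => K.coeff i) = fun _ => 0 := by
    funext i
    have := congrFun hv (e.symm (Sum.inl i))
    simp only [Equiv.apply_symm_apply, w] at this
    exact this
  rw [h3]
  unfold Lw
  simp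

/-- the logarithmic derivative of a product of linear factors -/
theorem logder_prod (S : Finset ℂ) (μ : ℂ → ℕ) (hμ : ∀ c ∈ S, 1 ≤ μ c) :
    (∏ c ∈ S, (X - C c)) * derivative (∏ c ∈ S, (X - C c) ^ μ c) =
      (∑ c ∈ S, C (μ c : ℂ) * ∏ e ∈ S.erase c, (X - C e)) * ∏ c ∈ S, (X - C c) ^ μ c := by
  classical
  induction S using Finset.induction_on with
  | empty => simp
  | insert a S ha ih =>
    have ih' := ih fun c hc => hμ c (Finset.mem_insert_of_mem hc)
    obtain ⟨k, hk⟩ : ∃ k, μ a = k + 1 := ⟨μ a - 1, by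
      have := hμ a (Finset.mem_insert_self a S)
      omega⟩
    have e1 : ∀ c ∈ S, ∏ e ∈ (insert a S).erase c, (X - C e) =
        (X - C a) * ∏ e ∈ S.erase c, (X - C e) := by
      intro c hc
      have hac : a ≠ c := fun h => ha (h ▸ hc)
      rw [Finset.erase_insert_of_ne hac, Finset.prod_insert (fun h => ha (Finset.mem_of_mem_erase h))]
    have e2 : ∑ c ∈ insert a S, C (μ c : ℂ) * ∏ e ∈ (insert a S).erase c, (X - C e) =
        C (μ a : ℂ) * ∏ e ∈ S, (X - C e) +
          (X - C a) * ∑ c ∈ S, C (μ c : ℂ) * ∏ e ∈ S.erase c, (X - C e) := by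
      rw [Finset.sum_insert ha, Finset.erase_insert ha, Finset.mul_sum]
      congr 1
      refine Finset.sum_congr rfl fun c hc => ?_
      rw [e1 c hc]
      ring
    have e3 : derivative ((X - C a) ^ μ a : ℂ[X]) = C (μ a : ℂ) * (X - C a) ^ k := by
      rw [derivative_X_sub_C_pow, hk, Nat.add_sub_cancel]
    rw [e2, Finset.prod_insert ha, Finset.prod_insert ha, derivative_mul, e3]
    have e4 : (X - C a : ℂ[X]) ^ μ a = (X - C a) ^ k * (X - C a) := by rw [hk, pow_succ]
    rw [e4]
    generalize (∑ c ∈ S, C (μ c : ℂ) * ∏ e ∈ S.erase c, (X - C e) : ℂ[X]) = B1 at ih' ⊢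
    generalize (∏ c ∈ S, (X - C c) ^ μ c : ℂ[X]) = B2 at ih' ⊢
    generalize (∏ c ∈ S, (X - C c) : ℂ[X]) = B3 at ih' ⊢
    linear_combination ((X - C a) ^ k * (X - C a) ^ 2) * ih'

/-- **Polynomials with few critical points have small order.** -/
theorem crit_order {Q : ℂ[X]} (hQ : 2 ≤ Q.natDegree) :
    OrderLe Q (derivative Q).roots.toFinset.card := by
  classical
  have hQ0 : derivative Q ≠ 0 := by
    intro h
    have := derivative_eq_zero.1 h
    omega
  set S := (derivative Q).roots.toFinset with hS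
  set μ : ℂ → ℕ := fun c => (derivative Q).rootMultiplicity c with hμ
  have hfac : derivative Q = C (derivative Q).leadingCoeff * ∏ c ∈ S, (X - C c) ^ μ c := by
    have hcard : (derivative Q).roots.card = (derivative Q).natDegree :=
      (IsAlgClosed.splits _).natDegree_eq_card_roots.symm
    conv_lhs => rw [← C_leadingCoeff_mul_prod_multiset_X_sub_C hcard]
    congr 1
    rw [Finset.prod_multiset_map_count]
    refine Finset.prod_congr rfl fun c _ => ?_
    rw [count_roots]
  have hdeg1 : 1 ≤ (derivative Q).natDegree := by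
    by_contra h
    have h1 : (derivative Q).natDegree = 0 := by omega
    have h2 := Pool.Agent.K9h12.SH.natDegree_der hQ0
    omega
  have hne : S.Nonempty := by
    obtain ⟨c, hc⟩ := IsAlgClosed.exists_root (derivative Q) (by
      rw [degree_eq_natDegree hQ0]
      intro h
      have : (derivative Q).natDegree = 0 := by exact_mod_cast h
      omega)
    exact ⟨c, by rw [hS, Multiset.mem_toFinset, mem_roots hQ0]; exact hc⟩
  refine ⟨∏ c ∈ S, (X - C c), ∑ c ∈ S, C (μ c : ℂ) * ∏ e ∈ S.erase c, (X - C e), ?_, ?_, ?_, ?_⟩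
  · exact Finset.prod_ne_zero_iff.2 fun c _ => X_sub_C_ne_zero c
  · rw [natDegree_prod _ _ fun c _ => X_sub_C_ne_zero c]
    simp
  · refine lt_of_le_of_lt (natDegree_sum_le_of_forall_le (n := S.card - 1) _ _ fun c hc => ?_)
      (by have := hne.card_pos; omega)
    refine (natDegree_C_mul_le _ _).trans ?_
    rw [natDegree_prod _ _ fun c _ => X_sub_C_ne_zero c]
    simp [Finset.card_erase_of_mem hc]
  · have h1 : (∏ c ∈ S, (X - C c)) * derivative (derivative Q) =
        (∑ c ∈ S, C (μ c : ℂ) * ∏ e ∈ S.erase c, (X - C e)) * derivative Q := by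
      have hμ1 : ∀ c ∈ S, 1 ≤ μ c := by
        intro c hc
        rw [hS, Multiset.mem_toFinset] at hc
        exact (rootMultiplicity_pos hQ0).2 (isRoot_of_mem_roots hc)
      have h2 := logder_prod S μ hμ1
      generalize (derivative Q).leadingCoeff = l at hfac
      rw [hfac, derivative_C_mul, mul_left_comm, h2]
      ring
    rw [h1, sub_self]
    exact dvd_zero _

end Pool.Agent.K9h12.SG
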