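import Pool.Agent.K9h12.SG.Hm

/-!
The pointwise bounds for a block of linear forms in two functions: the normalised vector.
-/

set_option autoImplicit false

open Filter Metric Set Topology Pool.Agent.W602.NC Pool.Agent.TH152.HY Pool.Agent.K9h12.AX

namespace Pool.Agent.K9h12.SG

open Pool.Agent.K9h12.SH

variable {M : ℕ}

/-- the vector divided by a function -/
noncomputable def ut (u : ℂ → Fin 2 → ℂ) (lam : ℂ → ℂ) (w : ℂ) (j : Fin 2) : ℂ := u w j / lam w

/-- the data of a block at a point -/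
structure Nrm (a : Fin M → ℂ) (C K : ℝ) (u : ℂ → Fin 2 → ℂ) (z : ℂ) (lam : ℂ → ℂ) (δ : ℝ) :
    Prop where
  lam_an : AnalyticAt ℂ lam z
  lam_sup : ‖lam z‖ = sup (UU a u) z
  lam_ne : lam z ≠ 0
  δ0 : 0 ≤ δ
  ut_an : ∀ j, AnalyticAt ℂ (fun w => ut u lam w j) z
  ut_le : ∀ j, ‖ut u lam z j‖ ≤ C
  ut_der : ‖deriv (fun w => ut u lam w 0) z‖ ≤ C * K
  wr_le : ‖wr (ut u lam) z‖ ≤ C * K * δ
  wr_der : ‖deriv (wr (ut u lam)) z‖ ≤ C * K ^ 2 * δ
  δ_le : δ ≤ C * ‖∏ i : Fin M, ell a i.succ (ut u lam z)‖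

theorem block (hM : 0 < M) {a : Fin M → ℂ} (ha : Function.Injective a) :
    ∃ C : ℝ, 1 ≤ C ∧ ∀ (u : ℂ → Fin 2 → ℂ) (z : ℂ) (ε B : ℝ), 0 < ε → ε ≤ 1 → 1 ≤ B →
      (∀ w ∈ closedBall z ε, ∀ j, AnalyticAt ℂ (fun w => u w j) w) → Calm (UU a u) z ε B →
      ∃ (lam : ℂ → ℂ) (δ : ℝ), Nrm a C (B / ε) u z lam δ := by
  classical
  -- the constants
  choose α β hαβ using fun (i j l : Fin (M + 1)) (hij : i ≠ j) => ell_comb ha hij l
  choose κ hκ0 hκ using fun (i j : Fin (M + 1)) (hij : i ≠ j) => ell_wr ha hij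
  obtain ⟨C0, hC0, hsep⟩ : ∃ C0 : ℝ, 1 ≤ C0 ∧ ∀ i j l : Fin (M + 1), i ≠ j → ∀ u : Fin 2 → ℂ,
      ‖ell a l u‖ ≤ C0 * (‖ell a i u‖ + ‖ell a j u‖) := by
    refine ⟨1 + ∑ i, ∑ j, ∑ l, (if h : i ≠ j then ‖α i j l h‖ + ‖β i j l h‖ else 0), ?_, ?_⟩
    · refine le_add_of_nonneg_right (Finset.sum_nonneg fun i _ => Finset.sum_nonneg fun j _ =>
        Finset.sum_nonneg fun l _ => ?_)
      split_ifs <;> positivity
    · intro i j l hij u
      have h1 : ‖α i j l hij‖ + ‖β i j l hij‖ ≤ 1 + ∑ i, ∑ j, ∑ l,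
          (if h : i ≠ j then ‖α i j l h‖ + ‖β i j l h‖ else 0) := by
        have hnn : ∀ i j l, 0 ≤ (if h : i ≠ j then ‖α i j l h‖ + ‖β i j l h‖ else 0) := by
          intro i j l
          split_ifs <;> positivity
        have h2 : (if h : i ≠ j then ‖α i j l h‖ + ‖β i j l h‖ else 0) ≤ ∑ i, ∑ j, ∑ l,
            (if h : i ≠ j then ‖α i j l h‖ + ‖β i j l h‖ else 0) := by
          refine le_trans ?_ (Finset.single_le_sum (f := fun i => ∑ j, ∑ l,
            (if h : i ≠ j then ‖α i j l h‖ + ‖β i j l h‖ else 0))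
            (fun i _ => Finset.sum_nonneg fun j _ => Finset.sum_nonneg fun l _ => hnn i j l)
            (Finset.mem_univ i))
          refine le_trans ?_ (Finset.single_le_sum (f := fun j => ∑ l,
            (if h : i ≠ j then ‖α i j l h‖ + ‖β i j l h‖ else 0))
            (fun j _ => Finset.sum_nonneg fun l _ => hnn i j l) (Finset.mem_univ j))
          exact Finset.single_le_sum (f := fun l =>
            (if h : i ≠ j then ‖α i j l h‖ + ‖β i j l h‖ else 0))
            (fun l _ => hnn i j l) (Finset.mem_univ l)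
        rw [dif_pos hij] at h2
        linarith
      rw [hαβ i j l hij u]
      calc ‖α i j l hij * ell a i u + β i j l hij * ell a j u‖
          ≤ ‖α i j l hij‖ * ‖ell a i u‖ + ‖β i j l hij‖ * ‖ell a j u‖ := by
            rw [← norm_mul, ← norm_mul]; exact norm_add_le _ _
        _ ≤ (‖α i j l hij‖ + ‖β i j l hij‖) * ‖ell a i u‖ +
            (‖α i j l hij‖ + ‖β i j l hij‖) * ‖ell a j u‖ :=
            add_le_add (mul_le_mul_of_nonneg_right (le_add_of_nonneg_right (norm_nonneg _))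
              (norm_nonneg _)) (mul_le_mul_of_nonneg_right
              (le_add_of_nonneg_left (norm_nonneg _)) (norm_nonneg _))
        _ = (‖α i j l hij‖ + ‖β i j l hij‖) * (‖ell a i u‖ + ‖ell a j u‖) := by ring
        _ ≤ _ := mul_le_mul_of_nonneg_right h1 (by positivity)
  obtain ⟨C1, hC1, hk⟩ : ∃ C1 : ℝ, 1 ≤ C1 ∧ ∀ i j (hij : i ≠ j), ‖(κ i j hij)⁻¹‖ ≤ C1 := by
    refine ⟨1 + ∑ i, ∑ j, (if h : i ≠ j then ‖(κ i j h)⁻¹‖ else 0), ?_, ?_⟩
    · refine le_add_of_nonneg_right (Finset.sum_nonneg fun i _ => Finset.sum_nonneg fun j _ => ?_)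
      split_ifs <;> positivity
    · intro i j hij
      have hnn : ∀ i j, 0 ≤ (if h : i ≠ j then ‖(κ i j h)⁻¹‖ else 0) := by
        intro i j
        split_ifs <;> positivity
      have h2 : (if h : i ≠ j then ‖(κ i j h)⁻¹‖ else 0) ≤ ∑ i, ∑ j,
          (if h : i ≠ j then ‖(κ i j h)⁻¹‖ else 0) := by
        refine le_trans ?_ (Finset.single_le_sum (f := fun i => ∑ j,
          (if h : i ≠ j then ‖(κ i j h)⁻¹‖ else 0))
          (fun i _ => Finset.sum_nonneg fun j _ => hnn i j) (Finset.mem_univ i))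
        exact Finset.single_le_sum (f := fun j =>
          (if h : i ≠ j then ‖(κ i j h)⁻¹‖ else 0)) (fun j _ => hnn i j) (Finset.mem_univ j)
      rw [dif_pos hij] at h2
      linarith
  set C : ℝ := 2 * C1 + ((2 * C0) ^ (M + 1) + (1 + ‖a ⟨0, hM⟩‖)) with hC
  have hC2 : 1 ≤ (2 * C0) ^ (M + 1) := one_le_pow₀ (by linarith)
  have hC3 : 0 ≤ ‖a ⟨0, hM⟩‖ := norm_nonneg _
  have hCb : 2 * C1 ≤ C := by linarith
  have hCc : (2 * C0) ^ (M + 1) ≤ C := by linarith
  have hCd : 1 + ‖a ⟨0, hM⟩‖ ≤ C := by linarith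
  have hC1C : C1 ≤ C := by linarith
  have hC1' : 1 ≤ C := by linarith
  refine ⟨C, hC1', ?_⟩
  intro u z ε B hε hε1 hB hu hcalm
  have hzb : z ∈ closedBall z ε := mem_closedBall_self hε.le
  have hBε : 1 ≤ B / ε := by rw [le_div_iff₀ hε]; linarith
  obtain ⟨i0, hi0⟩ := sup_attained (UU a u) z
  -- the normalised forms
  let V : Fin (M + 1) → ℂ → ℂ := fun i w => UU a u i w / UU a u i0 w
  have hne : ∀ i, ∀ w ∈ closedBall z ε, UU a u i w ≠ 0 := hcalm.1
  have hVan : ∀ i, ∀ w ∈ closedBall z ε, AnalyticAt ℂ (V i) w := fun i w hw =>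
    (UU_an (hu w hw) i).fun_div (UU_an (hu w hw) i0) (hne i0 w hw)
  have hVle : ∀ i, ‖V i z‖ ≤ 1 := by
    intro i
    simp only [V, norm_div]
    rw [div_le_one (norm_pos_iff.2 (hne i0 z hzb)), ← hi0]
    exact le_sup _ _ _
  have hVdc : ∀ i, DiffContOnCl ℂ (V i) (ball z ε) := by
    intro i
    refine DifferentiableOn.diffContOnCl fun w hw => ?_
    rw [closure_ball z hε.ne'] at hw
    exact (hVan i w hw).differentiableAt.differentiableWithinAt
  have hVb : ∀ i, ∀ w ∈ sphere z ε, ‖V i w‖ ≤ B * ‖V i z‖ := fun i w hw =>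
    hcalm.2 i0 i w (sphere_subset_closedBall hw)
  have hd1 : ∀ i, ‖deriv (V i) z‖ ≤ B / ε * ‖V i z‖ := by
    intro i
    have := Complex.norm_deriv_le_of_forall_mem_sphere_norm_le hε (hVdc i) (hVb i)
    refine this.trans (le_of_eq ?_)
    ring
  have hd2 : ∀ i, ‖deriv (deriv (V i)) z‖ ≤ 2 * (B / ε) ^ 2 * ‖V i z‖ := by
    intro i
    have := Complex.norm_iteratedDeriv_le_of_forall_mem_sphere_norm_le 2 hε (hVdc i) (hVb i)
    rw [iteratedDeriv_succ, iteratedDeriv_one] at this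
    refine this.trans ?_
    have h1 : ((2 : ℕ).factorial : ℝ) = 2 := by norm_num [Nat.factorial]
    rw [h1]
    have h2 : 2 * (B * ‖V i z‖) / ε ^ 2 = 2 * (B / ε ^ 2) * ‖V i z‖ := by ring
    rw [h2]
    refine mul_le_mul_of_nonneg_right ?_ (norm_nonneg _)
    refine mul_le_mul_of_nonneg_left ?_ (by norm_num)
    rw [div_pow]
    refine div_le_div_of_nonneg_right ?_ (by positivity)
    nlinarith
  have hLB : ∀ i, LB (B / ε) (V i) z := fun i => ⟨hVan i z hzb, hd1 i⟩
  -- the smallest form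
  obtain ⟨j0, hj0, hmin⟩ := Finset.exists_min_image (Finset.univ.filter fun j => j ≠ i0)
    (fun j => ‖V j z‖) (by
      obtain ⟨j, hj⟩ : ∃ j : Fin (M + 1), j ≠ i0 := by
        by_cases h : i0 = 0
        · refine ⟨Fin.last M, ?_⟩
          rw [h]
          intro h'
          have h'' := congrArg Fin.val h'
          simp at h''
          omega
        · exact ⟨0, fun h' => h h'.symm⟩
      exact ⟨j, Finset.mem_filter.2 ⟨Finset.mem_univ _, hj⟩⟩)
  have hj0' : j0 ≠ i0 := (Finset.mem_filter.1 hj0).2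
  set δ : ℝ := ‖V j0 z‖ with hδ
  have hδ0 : 0 ≤ δ := norm_nonneg _
  have hδ1 : δ ≤ 1 := hVle j0
  let ω : ℂ → ℂ := fun w => (κ i0 j0 hj0'.symm)⁻¹ * deriv (V j0) w
  -- the Wronskian
  have hwr : ∀ w ∈ closedBall z ε, wr u w = UU a u i0 w ^ 2 * ω w := by
    intro w hw
    have h0 := hne i0 w hw
    have h1 : deriv (V j0) w = (deriv (UU a u j0) w * UU a u i0 w -
        UU a u j0 w * deriv (UU a u i0) w) / UU a u i0 w ^ 2 :=
      deriv_fun_div (UU_an (hu w hw) j0).differentiableAt (UU_an (hu w hw) i0).differentiableAt h0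
    rw [UU_deriv (hu w hw), UU_deriv (hu w hw)] at h1
    have h2 := hκ i0 j0 hj0'.symm (u w) fun j => deriv (fun w => u w j) w
    have h3 : ell a j0 (fun j => deriv (fun w => u w j) w) * UU a u i0 w -
        UU a u j0 w * ell a i0 (fun j => deriv (fun w => u w j) w) =
        κ i0 j0 hj0'.symm * wr u w := by
      unfold wr UU
      rw [← h2]
      ring
    rw [h3] at h1
    simp only [ω]
    rw [h1]
    have h4 := hκ0 i0 j0 hj0'.symm
    field_simp
  have hωan : AnalyticAt ℂ ω z := analyticAt_const.fun_mul (hVan j0 z hzb).deriv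
  have hω1 : ‖ω z‖ ≤ C1 * (B / ε) * δ := by
    simp only [ω, norm_mul]
    calc ‖(κ i0 j0 hj0'.symm)⁻¹‖ * ‖deriv (V j0) z‖ ≤ C1 * (B / ε * δ) :=
          mul_le_mul (hk _ _ _) (hd1 j0) (norm_nonneg _) (by linarith)
      _ = _ := by ring
  have hω2 : ‖deriv ω z‖ ≤ 2 * C1 * (B / ε) ^ 2 * δ := by
    have h1 : deriv ω z = (κ i0 j0 hj0'.symm)⁻¹ * deriv (deriv (V j0)) z :=
      deriv_const_mul _ (hVan j0 z hzb).deriv.differentiableAt
    rw [h1, norm_mul]
    calc ‖(κ i0 j0 hj0'.symm)⁻¹‖ * ‖deriv (deriv (V j0)) z‖ ≤ C1 * (2 * (B / ε) ^ 2 * δ) :=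
          mul_le_mul (hk _ _ _) (hd2 j0) (norm_nonneg _) (by linarith)
      _ = _ := by ring
  have hlow : ∀ i, i ≠ j0 → (2 * C0)⁻¹ ≤ ‖V i z‖ := by
    intro i hij
    have h1 := hsep i j0 i0 hij (u z)
    have h0 := hne i0 z hzb
    have h2 : 1 ≤ C0 * (‖V i z‖ + δ) := by
      have h3 : 0 < ‖UU a u i0 z‖ := norm_pos_iff.2 h0
      have h4 : C0 * (‖V i z‖ + δ) = C0 * (‖UU a u i z‖ + ‖UU a u j0 z‖) / ‖UU a u i0 z‖ := by
        simp only [hδ, V, norm_div]
        field_simp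
      rw [h4, le_div_iff₀ h3, one_mul]
      exact h1
    have h3 : δ ≤ ‖V i z‖ := by
      by_cases hi : i = i0
      · rw [hi]
        have h4 : ‖V i0 z‖ = 1 := by
          simp only [V]
          rw [div_self h0, norm_one]
        rw [h4]
        exact hδ1
      · exact hmin i (Finset.mem_filter.2 ⟨Finset.mem_univ _, hi⟩)
    rw [inv_le_iff_one_le_mul₀ (by positivity)]
    nlinarith
  have hnear : ∀ᶠ w in 𝓝 z, w ∈ closedBall z ε := closedBall_mem_nhds z hε
  have hell : ∀ i, ∀ w, UU a u i0 w ≠ 0 → V i w = ell a i (ut u (UU a u i0) w) := by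
    intro i w hw
    refine Fin.cases ?_ (fun k => ?_) i
    · rfl
    · simp only [V]
      rw [show UU a u k.succ w = u w 1 - a k * u w 0 from rfl, ell_succ]
      simp only [ut, Algebra.algebraMap_self, RingHom.id_apply]
      field_simp
  have hut0 : ∀ w, ut u (UU a u i0) w 0 = V 0 w := fun w => rfl
  have hut1 : ∀ w, UU a u i0 w ≠ 0 → ut u (UU a u i0) w 1 =
      V (⟨0, hM⟩ : Fin M).succ w + a ⟨0, hM⟩ * V 0 w := by
    intro w hw
    rw [hell _ w hw, hell 0 w hw]
    simp only [ell_succ, ell_zero, Algebra.algebraMap_self, RingHom.id_apply]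
    ring
  have hutan : ∀ j, AnalyticAt ℂ (fun w => ut u (UU a u i0) w j) z := fun j =>
    (hu z hzb j).fun_div (UU_an (hu z hzb) i0) (hne i0 z hzb)
  have hKpos : 0 ≤ B / ε := by positivity
  -- the Wronskian of the normalised vector
  have hwt : ∀ᶠ w in 𝓝 z, wr (ut u (UU a u i0)) w = ω w := by
    filter_upwards [isOpen_ball.mem_nhds (mem_ball_self hε)] with w hw
    have hwc : w ∈ closedBall z ε := ball_subset_closedBall hw
    have h0 := hne i0 w hwc
    have h1 : ∀ j, AnalyticAt ℂ (fun w => ut u (UU a u i0) w j) w := fun j =>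
      (hu w hwc j).fun_div (UU_an (hu w hwc) i0) h0
    have h2 := hκ i0 j0 hj0'.symm (ut u (UU a u i0) w) fun j =>
      deriv (fun w => ut u (UU a u i0) w j) w
    have h3 : V j0 =ᶠ[𝓝 w] UU a (ut u (UU a u i0)) j0 := by
      filter_upwards [isOpen_ball.mem_nhds hw] with t ht
      exact hell _ t (hne i0 t (ball_subset_closedBall ht))
    have h4 : (fun _ => (1 : ℂ)) =ᶠ[𝓝 w] UU a (ut u (UU a u i0)) i0 := by
      filter_upwards [isOpen_ball.mem_nhds hw] with t ht
      have h5 := hell i0 t (hne i0 t (ball_subset_closedBall ht))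
      unfold UU
      unfold UU at h5
      rw [← h5]
      simp only [V, UU]
      exact (div_self (hne i0 t (ball_subset_closedBall ht))).symm
    have h6 := h3.deriv_eq
    have h7 := h4.deriv_eq
    rw [UU_deriv h1] at h6 h7
    rw [deriv_const] at h7
    have h8 := h4.self_of_nhds
    unfold UU at h8
    rw [← h6, ← h7, mul_zero, sub_zero] at h2
    rw [show ell a i0 (ut u (UU a u i0) w) = 1 from h8.symm, one_mul] at h2
    simp only [ω]
    rw [h2]
    unfold wr
    have h9 := hκ0 i0 j0 hj0'.symm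
    field_simp
  refine ⟨UU a u i0, δ, UU_an (hu z hzb) i0, hi0.symm, hne i0 z hzb, hδ0, hutan, ?_, ?_, ?_, ?_,
    ?_⟩
  · intro j
    fin_cases j
    · change ‖ut u (UU a u i0) z 0‖ ≤ C
      rw [hut0]
      exact (hVle 0).trans hC1'
    · change ‖ut u (UU a u i0) z 1‖ ≤ C
      rw [hut1 z (hne i0 z hzb)]
      calc ‖V (⟨0, hM⟩ : Fin M).succ z + a ⟨0, hM⟩ * V 0 z‖
          ≤ ‖V (⟨0, hM⟩ : Fin M).succ z‖ + ‖a ⟨0, hM⟩‖ * ‖V 0 z‖ := by
            rw [← norm_mul]; exact norm_add_le _ _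
        _ ≤ 1 + ‖a ⟨0, hM⟩‖ * 1 := add_le_add (hVle _) (mul_le_mul_of_nonneg_left (hVle 0) hC3)
        _ ≤ C := by linarith
  · change ‖deriv (V 0) z‖ ≤ C * (B / ε)
    calc ‖deriv (V 0) z‖ ≤ B / ε * ‖V 0 z‖ := hd1 0
      _ ≤ B / ε * C := mul_le_mul_of_nonneg_left ((hVle 0).trans hC1') hKpos
      _ = _ := mul_comm _ _
  · rw [hwt.self_of_nhds]
    exact hω1.trans (mul_le_mul_of_nonneg_right (mul_le_mul_of_nonneg_right hC1C
      (by positivity)) hδ0)
  · rw [Filter.EventuallyEq.deriv_eq hwt]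
    exact hω2.trans (mul_le_mul_of_nonneg_right (mul_le_mul_of_nonneg_right hCb
      (by positivity)) hδ0)
  · have hVn : ∀ i : Fin M, ‖V i.succ z‖ = ‖ell a i.succ (ut u (UU a u i0) z)‖ := fun i => by
      rw [hell _ z (hne i0 z hzb)]
    rw [norm_prod]
    simp only [← hVn]
    have hinv : (2 * C0)⁻¹ ≤ 1 := inv_le_one_of_one_le₀ (by linarith)
    have hinv0 : 0 ≤ (2 * C0)⁻¹ := by positivity
    have h1 : ∏ i : Fin M, (if i.succ = j0 then δ * (2 * C0)⁻¹ else (2 * C0)⁻¹) ≤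
        ∏ i : Fin M, ‖V i.succ z‖ := by
      refine Finset.prod_le_prod (fun i _ => ?_) fun i _ => ?_
      · split_ifs <;> positivity
      · split_ifs with h
        · rw [h]
          exact mul_le_of_le_one_right hδ0 hinv
        · exact hlow _ h
    have h2 : δ * ((2 * C0)⁻¹) ^ M ≤
        ∏ i : Fin M, (if i.succ = j0 then δ * (2 * C0)⁻¹ else (2 * C0)⁻¹) := by
      by_cases h : ∃ k : Fin M, k.succ = j0
      · obtain ⟨k, hk⟩ := h
        have h3 : ∀ i : Fin M, (if i.succ = j0 then δ * (2 * C0)⁻¹ else (2 * C0)⁻¹) =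
            (if i = k then δ else 1) * (2 * C0)⁻¹ := by
          intro i
          by_cases hi : i = k
          · rw [if_pos (by rw [hi, hk]), if_pos hi]
          · rw [if_neg (fun h => hi (Fin.succ_injective _ (h.trans hk.symm))), if_neg hi]
            ring
        simp only [h3]
        rw [Finset.prod_mul_distrib, Finset.prod_ite_eq' Finset.univ k (fun _ => δ),
          if_pos (Finset.mem_univ _), Finset.prod_const, Finset.card_univ, Fintype.card_fin]
      · push Not at h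
        have h3 : ∀ i : Fin M, (if i.succ = j0 then δ * (2 * C0)⁻¹ else (2 * C0)⁻¹) =
            (2 * C0)⁻¹ := fun i => if_neg (h i)
        simp only [h3]
        rw [Finset.prod_const, Finset.card_univ, Fintype.card_fin]
        exact mul_le_of_le_one_left (by positivity) hδ1
    have h3 : δ = (2 * C0) ^ M * (δ * ((2 * C0)⁻¹) ^ M) := by
      rw [inv_pow]
      field_simp
    have h4 : (2 * C0) ^ M ≤ C := le_trans (pow_le_pow_right₀ (by linarith) (Nat.le_succ M)) hCc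
    calc δ = (2 * C0) ^ M * (δ * ((2 * C0)⁻¹) ^ M) := h3
      _ ≤ C * ∏ i : Fin M, ‖V i.succ z‖ :=
        mul_le_mul h4 (h2.trans h1) (by positivity) (by positivity)

end Pool.Agent.K9h12.SG
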