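import Pool.Agent.K9h12.SH.Blk
import Mathlib.RingTheory.Polynomial.Basic

/-!
Homogeneous polynomials in two variables and the parts of the jet differential.
-/

set_option autoImplicit false

open Polynomial

namespace Pool.Agent.K9h12.SG

open Pool.Agent.K9h12.SH

/-- the form of degree `d` attached to a polynomial -/
noncomputable def hm (d : ℕ) (K : ℂ[X]) {R : Type} [CommRing R] [Algebra ℂ R] (u : Fin 2 → R) : R :=
  ∑ i ∈ Finset.range (d + 1), algebraMap ℂ R (K.coeff i) * (u 1 ^ i * u 0 ^ (d - i))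

section

variable {R : Type} [CommRing R] [Algebra ℂ R]

theorem hm_eq {d : ℕ} {K : ℂ[X]} (hK : K.natDegree ≤ d) {u : Fin 2 → R} {x : R}
    (hx : u 1 = u 0 * x) : hm d K u = u 0 ^ d * aeval x K := by
  unfold hm
  rw [aeval_eq_sum_range' (Nat.lt_succ_of_le hK), Finset.mul_sum]
  refine Finset.sum_congr rfl fun i hi => ?_
  have h1 : i ≤ d := Nat.lt_succ_iff.1 (Finset.mem_range.1 hi)
  have h2 : u 0 ^ d = u 0 ^ i * u 0 ^ (d - i) := by rw [← pow_add, Nat.add_sub_cancel' h1]
  rw [hx, h2, mul_pow, Algebra.smul_def]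
  ring

theorem hm_one {d : ℕ} {K : ℂ[X]} (hK : K.natDegree ≤ d) (x : R) :
    hm d K ![1, x] = aeval x K := by
  rw [hm_eq hK (x := x) (by simp)]
  simp

theorem hm_smul (d : ℕ) (K : ℂ[X]) {u u' : Fin 2 → R} {t : R} (h : ∀ j, u j = t * u' j) :
    hm d K u = t ^ d * hm d K u' := by
  unfold hm
  rw [Finset.mul_sum]
  refine Finset.sum_congr rfl fun i hi => ?_
  have h1 : i ≤ d := Nat.lt_succ_iff.1 (Finset.mem_range.1 hi)
  have h2 : t ^ d = t ^ i * t ^ (d - i) := by rw [← pow_add, Nat.add_sub_cancel' h1]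
  rw [h 0, h 1, h2, mul_pow, mul_pow]
  ring

theorem hm_zero {d : ℕ} {K : ℂ[X]} {u : Fin 2 → R} (h : u 0 = 0) :
    hm d K u = algebraMap ℂ R (K.coeff d) * u 1 ^ d := by
  unfold hm
  rw [Finset.sum_eq_single d]
  · simp
  · intro i hi hid
    have h1 : i ≤ d := Nat.lt_succ_iff.1 (Finset.mem_range.1 hi)
    rw [h, zero_pow (by omega)]
    ring
  · intro h1
    exact absurd (Finset.mem_range.2 (Nat.lt_succ_self d)) h1

/-- the part of the first order -/
noncomputable def Chi (p d : ℕ) (P K : ℂ[X]) (u : Fin 2 → R) (w : R) : R :=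
  u 0 * hm (d + 1) K u * hm (p + 1) P u * w

/-- the part of the second order -/
noncomputable def Phi (p d : ℕ) (P K N : ℂ[X]) (u : Fin 2 → R) (u' w w' : R) : R :=
  u 0 * hm (d + 1) K u * hm (p + 1) P u * w' - 2 * u' * hm (d + 1) K u * hm (p + 1) P u * w +
    (hm d N u * hm (p + 1) P u - 2 * hm (d + 1) K u * hm p (derivative P) u) * w ^ 2

theorem Chi_scale (p d : ℕ) (P K : ℂ[X]) {u v : Fin 2 → R} {t w w1 : R} (h : ∀ j, u j = t * v j)
    (hw : w = t ^ 2 * w1) : Chi p d P K u w = t ^ (p + d + 5) * Chi p d P K v w1 := by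
  unfold Chi
  rw [hm_smul _ _ h, hm_smul _ _ h, h 0, hw]
  ring

theorem Phi_scale (p d : ℕ) (P K N : ℂ[X]) {u v : Fin 2 → R} {t t' u' v' w w1 w' w1' : R}
    (h : ∀ j, u j = t * v j) (hu' : u' = t' * v 0 + t * v') (hw : w = t ^ 2 * w1)
    (hw' : w' = 2 * t * t' * w1 + t ^ 2 * w1') :
    Phi p d P K N u u' w w' = t ^ (p + d + 5) * Phi p d P K N v v' w1 w1' := by
  unfold Phi
  rw [hm_smul (d + 1) K h, hm_smul (p + 1) P h, hm_smul d N h, hm_smul p (derivative P) h,
    h 0, hu', hw, hw']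
  ring

end

/-- factorisation of the form -/
theorem hm_prod {L : Type} [Field L] [Algebra ℂ L] {M : ℕ} {P : ℂ[X]} {a : Fin M → ℂ}
    (hP : P = C P.leadingCoeff * ∏ i, (X - C (a i))) (hM : P.natDegree = M) (u : Fin 2 → L) :
    hm M P u = algebraMap ℂ L P.leadingCoeff * ∏ i : Fin M, ell a i.succ u := by
  by_cases h0 : u 0 = 0
  · rw [hm_zero h0]
    have h1 : P.coeff M = P.leadingCoeff := by rw [← hM]; rfl
    rw [h1]
    congr 1
    simp only [ell_succ, h0, mul_zero, sub_zero]
    rw [Finset.prod_const, Finset.card_univ, Fintype.card_fin]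
  · have hx : u 1 = u 0 * (u 1 / u 0) := by field_simp
    rw [hm_eq hM.le hx]
    have h2 : aeval (u 1 / u 0) P = algebraMap ℂ L P.leadingCoeff *
        ∏ i, (u 1 / u 0 - algebraMap ℂ L (a i)) := by
      conv_lhs => rw [hP]
      simp only [map_mul, map_prod, map_sub, aeval_X, aeval_C]
    rw [h2]
    have h3 : ∏ i : Fin M, ell a i.succ u = u 0 ^ M *
        ∏ i, (u 1 / u 0 - algebraMap ℂ L (a i)) := by
      have h4 : ∀ i : Fin M, ell a i.succ u = u 0 * (u 1 / u 0 - algebraMap ℂ L (a i)) := by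
        intro i
        rw [ell_succ]
        field_simp
      rw [Finset.prod_congr rfl fun i _ => h4 i, Finset.prod_mul_distrib, Finset.prod_const,
        Finset.card_univ, Fintype.card_fin]
    rw [h3]
    ring

/-- enumeration of the roots -/
theorem exists_roots {P : ℂ[X]} (hP : P.Separable) : ∃ a : Fin P.natDegree → ℂ,
    Function.Injective a ∧ P = C P.leadingCoeff * ∏ i, (X - C (a i)) := by
  classical
  have hcard : P.roots.card = P.natDegree := (IsAlgClosed.splits P).natDegree_eq_card_roots.symm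
  have hnd := nodup_roots hP
  have h1 := C_leadingCoeff_mul_prod_multiset_X_sub_C hcard
  have h2 : P.roots.toFinset.card = P.natDegree := by
    rw [Multiset.toFinset_card_of_nodup hnd, hcard]
  let e := P.roots.toFinset.equivFinOfCardEq h2
  refine ⟨fun i => (e.symm i : ℂ), fun i j h => e.symm.injective (Subtype.ext h), ?_⟩
  conv_lhs => rw [← h1]
  congr 1
  have h3 : (P.roots.map fun c => X - C c).prod = ∏ c ∈ P.roots.toFinset, (X - C c) := by
    rw [Finset.prod, Multiset.toFinset_val, hnd.dedup]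
  rw [h3, ← Finset.prod_coe_sort]
  exact (e.symm.prod_comp fun c : P.roots.toFinset => (X - C (c : ℂ))).symm

end Pool.Agent.K9h12.SG
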