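import Pool.Agent.K9h12.SG.Blk
import Pool.Agent.K9h12.SH.Psi

/-!
The pointwise bound for the jet differential with separated variables.
-/

set_option autoImplicit false

open Filter Metric Set Topology Polynomial Pool.Agent.W602.NC Pool.Agent.TH152.HY
  Pool.Agent.K9h12.AX

namespace Pool.Agent.K9h12.SG

open Pool.Agent.K9h12.SH

/-- a polynomial `P` of degree `p + 1` with an equation `K P'' = N P'` modulo `P` -/
structure Dat where
  p : ℕ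
  d : ℕ
  P : ℂ[X]
  K : ℂ[X]
  N : ℂ[X]

/-- the conditions -/
structure Dat.Ok (A : Dat) : Prop where
  sep : A.P.Separable
  deg : A.P.natDegree = A.p + 1
  dK : A.K.natDegree ≤ A.d + 1
  dN : A.N.natDegree ≤ A.d
  K0 : A.K ≠ 0
  dvd : A.P ∣ A.K * derivative (derivative A.P) - A.N * derivative A.P

section

variable {R : Type} [CommRing R] [Algebra ℂ R]

/-- the value of the polynomial -/
noncomputable def Dat.F (A : Dat) (u : Fin 2 → R) : R := hm (A.p + 1) A.P u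

/-- the part of the first order -/
noncomputable def Dat.chi (A : Dat) (u : Fin 2 → R) (w : R) : R := Chi A.p A.d A.P A.K u w

/-- the part of the second order -/
noncomputable def Dat.phi (A : Dat) (u : Fin 2 → R) (u' w w' : R) : R :=
  Phi A.p A.d A.P A.K A.N u u' w w'

/-- the jet differential -/
noncomputable def Jet (A B : Dat) (u v : Fin 2 → R) (u' v' w x w' x' : R) : R :=
  B.chi v x * A.phi u u' w w' - A.chi u w * B.phi v v' x x'

/-- the auxiliary jet differential -/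
noncomputable def Aux (A B : Dat) (m : ℕ) (u v : Fin 2 → R) (u' v' w x w' x' : R) : R :=
  Jet A B u v u' v' w x w' x' ^ m * (w * x) ^ (2 * m) * (u 0 * v 0) ^ m

theorem Jet_scale (A B : Dat) {u v u1 v1 : Fin 2 → R}
    {s s' t t' u' v' w x w' x' u1' v1' w1 x1 w1' x1' : R} (hu : ∀ j, u j = s * u1 j)
    (hv : ∀ j, v j = t * v1 j) (hu' : u' = s' * u1 0 + s * u1') (hv' : v' = t' * v1 0 + t * v1')
    (hw : w = s ^ 2 * w1) (hw' : w' = 2 * s * s' * w1 + s ^ 2 * w1')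
    (hx : x = t ^ 2 * x1) (hx' : x' = 2 * t * t' * x1 + t ^ 2 * x1') :
    Jet A B u v u' v' w x w' x' =
      s ^ (A.p + A.d + 5) * t ^ (B.p + B.d + 5) * Jet A B u1 v1 u1' v1' w1 x1 w1' x1' := by
  unfold Jet Dat.chi Dat.phi
  rw [Chi_scale _ _ _ _ hu hw, Chi_scale _ _ _ _ hv hx, Phi_scale _ _ _ _ _ hu hu' hw hw',
    Phi_scale _ _ _ _ _ hv hv' hx hx']
  ring

theorem Aux_scale (A B : Dat) (m : ℕ) {u v u1 v1 : Fin 2 → R}
    {s s' t t' u' v' w x w' x' u1' v1' w1 x1 w1' x1' : R} (hu : ∀ j, u j = s * u1 j)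
    (hv : ∀ j, v j = t * v1 j) (hu' : u' = s' * u1 0 + s * u1') (hv' : v' = t' * v1 0 + t * v1')
    (hw : w = s ^ 2 * w1) (hw' : w' = 2 * s * s' * w1 + s ^ 2 * w1')
    (hx : x = t ^ 2 * x1) (hx' : x' = 2 * t * t' * x1 + t ^ 2 * x1') :
    Aux A B m u v u' v' w x w' x' =
      s ^ (m * (A.p + A.d + 10)) * t ^ (m * (B.p + B.d + 10)) *
        Aux A B m u1 v1 u1' v1' w1 x1 w1' x1' := by
  unfold Aux
  rw [Jet_scale A B hu hv hu' hv' hw hw' hx hx', hu 0, hv 0, hw, hx, mul_comm m (A.p + A.d + 10),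
    mul_comm m (B.p + B.d + 10), pow_mul, pow_mul, pow_mul, pow_mul]
  simp only [← mul_pow]
  congr 1
  ring

end

theorem hm_le (d : ℕ) (K : ℂ[X]) {C1 : ℝ} (hC1 : 0 ≤ C1) : ∃ C : ℝ, 1 ≤ C ∧ ∀ u : Fin 2 → ℂ,
    (∀ j, ‖u j‖ ≤ C1) → ‖hm d K u‖ ≤ C := by
  refine ⟨1 + ∑ i ∈ Finset.range (d + 1), ‖K.coeff i‖ * (C1 ^ i * C1 ^ (d - i)),
    le_add_of_nonneg_right (Finset.sum_nonneg fun i _ => by positivity), fun u hu => ?_⟩
  unfold hm
  refine le_trans (norm_sum_le _ _) (le_trans (Finset.sum_le_sum fun i _ => ?_)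
    (le_add_of_nonneg_left zero_le_one))
  rw [norm_mul, norm_mul, norm_pow, norm_pow, Algebra.algebraMap_self, RingHom.id_apply]
  exact mul_le_mul_of_nonneg_left (mul_le_mul (pow_le_pow_left₀ (norm_nonneg _) (hu 1) _)
    (pow_le_pow_left₀ (norm_nonneg _) (hu 0) _) (by positivity) (by positivity)) (norm_nonneg _)

/-- the bounds for one variable -/
theorem coord_bound (A : Dat) {C1 : ℝ} (hC1 : 1 ≤ C1) : ∃ C : ℝ, 1 ≤ C ∧
    ∀ (u : Fin 2 → ℂ) (u' w w' : ℂ) (K δ : ℝ), 1 ≤ K → 0 ≤ δ → (∀ j, ‖u j‖ ≤ C1) →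
      ‖u'‖ ≤ C1 * K → ‖w‖ ≤ C1 * K * δ → ‖w'‖ ≤ C1 * K ^ 2 * δ → δ ≤ C1 * ‖A.F u‖ →
      ‖A.chi u w‖ ≤ C * K * (‖A.F u‖ * δ) ∧ ‖A.phi u u' w w'‖ ≤ C * K ^ 2 * (‖A.F u‖ * δ) ∧
        ‖A.F u‖ ≤ C := by
  obtain ⟨a1, h1, ha1⟩ := hm_le (A.d + 1) A.K (C1 := C1) (by linarith)
  obtain ⟨a2, h2, ha2⟩ := hm_le A.d A.N (C1 := C1) (by linarith)
  obtain ⟨a3, h3, ha3⟩ := hm_le (A.p + 1) A.P (C1 := C1) (by linarith)
  obtain ⟨a4, h4, ha4⟩ := hm_le A.p (derivative A.P) (C1 := C1) (by linarith)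
  set C : ℝ := C1 * a1 * C1 + 2 * C1 * a1 * C1 + a2 * C1 ^ 2 * (C1 * a3) +
    2 * a1 * a4 * C1 ^ 2 * C1 + a3 with hC
  have p1 : 0 ≤ C1 * a1 * C1 := by positivity
  have p2 : 0 ≤ a2 * C1 ^ 2 * (C1 * a3) := by positivity
  have p3 : 0 ≤ 2 * a1 * a4 * C1 ^ 2 * C1 := by positivity
  refine ⟨C, by linarith, fun u u' w w' K δ hK hδ hu hu' hw hw' hF => ?_⟩
  have b1 := ha1 u hu
  have b2 := ha2 u hu
  have b3 := ha3 u hu
  have b4 := ha4 u hu
  have b3' : ‖A.F u‖ ≤ a3 := b3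
  have hF0 : 0 ≤ ‖A.F u‖ := norm_nonneg _
  have hK0 : 0 ≤ K := by linarith
  have e1 : ‖A.chi u w‖ ≤ C1 * a1 * C1 * K * (‖A.F u‖ * δ) := by
    have : A.chi u w = u 0 * hm (A.d + 1) A.K u * A.F u * w := rfl
    rw [this, norm_mul, norm_mul, norm_mul]
    calc ‖u 0‖ * ‖hm (A.d + 1) A.K u‖ * ‖A.F u‖ * ‖w‖
        ≤ C1 * a1 * ‖A.F u‖ * (C1 * K * δ) := by
          refine mul_le_mul (mul_le_mul_of_nonneg_right (mul_le_mul (hu 0) b1 (norm_nonneg _)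
            (by linarith)) hF0) hw (norm_nonneg _) (by positivity)
      _ = _ := by ring
  refine ⟨e1.trans ?_, ?_, by linarith⟩
  · refine mul_le_mul_of_nonneg_right (mul_le_mul_of_nonneg_right ?_ hK0) (by positivity)
    have : 0 ≤ 2 * C1 * a1 * C1 := by positivity
    linarith
  · have e2 : A.phi u u' w w' = u 0 * hm (A.d + 1) A.K u * A.F u * w' -
        2 * u' * hm (A.d + 1) A.K u * A.F u * w +
        (hm A.d A.N u * A.F u - 2 * hm (A.d + 1) A.K u * hm A.p (derivative A.P) u) * w ^ 2 := rfl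
    have t1 : ‖u 0 * hm (A.d + 1) A.K u * A.F u * w'‖ ≤ C1 * a1 * C1 * (K ^ 2 * (‖A.F u‖ * δ)) := by
      rw [norm_mul, norm_mul, norm_mul]
      calc ‖u 0‖ * ‖hm (A.d + 1) A.K u‖ * ‖A.F u‖ * ‖w'‖
          ≤ C1 * a1 * ‖A.F u‖ * (C1 * K ^ 2 * δ) := by
            refine mul_le_mul (mul_le_mul_of_nonneg_right (mul_le_mul (hu 0) b1 (norm_nonneg _)
              (by linarith)) hF0) hw' (norm_nonneg _) (by positivity)
        _ = _ := by ring
    have t2 : ‖2 * u' * hm (A.d + 1) A.K u * A.F u * w‖ ≤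
        2 * C1 * a1 * C1 * (K ^ 2 * (‖A.F u‖ * δ)) := by
      rw [norm_mul, norm_mul, norm_mul, norm_mul, Complex.norm_ofNat]
      calc 2 * ‖u'‖ * ‖hm (A.d + 1) A.K u‖ * ‖A.F u‖ * ‖w‖
          ≤ 2 * (C1 * K) * a1 * ‖A.F u‖ * (C1 * K * δ) := by
            refine mul_le_mul (mul_le_mul_of_nonneg_right (mul_le_mul
              (mul_le_mul_of_nonneg_left hu' (by norm_num)) b1 (norm_nonneg _)
              (by positivity)) hF0) hw (norm_nonneg _) (by positivity)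
        _ = _ := by ring
    have t3 : ‖w ^ 2‖ ≤ C1 ^ 2 * K ^ 2 * (δ * δ) := by
      rw [norm_pow]
      calc ‖w‖ ^ 2 ≤ (C1 * K * δ) ^ 2 := pow_le_pow_left₀ (norm_nonneg _) hw 2
        _ = _ := by ring
    have t4 : ‖hm A.d A.N u * A.F u * w ^ 2‖ ≤
        a2 * C1 ^ 2 * (C1 * a3) * (K ^ 2 * (‖A.F u‖ * δ)) := by
      rw [norm_mul, norm_mul]
      calc ‖hm A.d A.N u‖ * ‖A.F u‖ * ‖w ^ 2‖
          ≤ a2 * ‖A.F u‖ * (C1 ^ 2 * K ^ 2 * (δ * δ)) := by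
            refine mul_le_mul (mul_le_mul_of_nonneg_right b2 hF0) t3 (norm_nonneg _)
              (by positivity)
        _ ≤ a2 * ‖A.F u‖ * (C1 ^ 2 * K ^ 2 * (δ * (C1 * a3))) := by
            have : δ ≤ C1 * a3 := hF.trans (mul_le_mul_of_nonneg_left b3' (by linarith))
            gcongr
        _ = _ := by ring
    have t5 : ‖2 * hm (A.d + 1) A.K u * hm A.p (derivative A.P) u * w ^ 2‖ ≤
        2 * a1 * a4 * C1 ^ 2 * C1 * (K ^ 2 * (‖A.F u‖ * δ)) := by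
      rw [norm_mul, norm_mul, norm_mul, Complex.norm_ofNat]
      calc 2 * ‖hm (A.d + 1) A.K u‖ * ‖hm A.p (derivative A.P) u‖ * ‖w ^ 2‖
          ≤ 2 * a1 * a4 * (C1 ^ 2 * K ^ 2 * (δ * δ)) := by
            refine mul_le_mul (mul_le_mul (mul_le_mul_of_nonneg_left b1 (by norm_num)) b4
              (norm_nonneg _) (by positivity)) t3 (norm_nonneg _) (by positivity)
        _ ≤ 2 * a1 * a4 * (C1 ^ 2 * K ^ 2 * (δ * (C1 * ‖A.F u‖))) := by gcongr
        _ = _ := by ring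
    have e3 : A.phi u u' w w' = (u 0 * hm (A.d + 1) A.K u * A.F u * w' -
        2 * u' * hm (A.d + 1) A.K u * A.F u * w) +
        (hm A.d A.N u * A.F u * w ^ 2 -
          2 * hm (A.d + 1) A.K u * hm A.p (derivative A.P) u * w ^ 2) := by
      rw [e2]; ring
    rw [e3]
    have X0 : 0 ≤ K ^ 2 * (‖A.F u‖ * δ) := by positivity
    calc _ ≤ (‖u 0 * hm (A.d + 1) A.K u * A.F u * w'‖ +
          ‖2 * u' * hm (A.d + 1) A.K u * A.F u * w‖) + (‖hm A.d A.N u * A.F u * w ^ 2‖ +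
          ‖2 * hm (A.d + 1) A.K u * hm A.p (derivative A.P) u * w ^ 2‖) :=
          (norm_add_le _ _).trans (add_le_add (norm_sub_le _ _) (norm_sub_le _ _))
      _ ≤ (C1 * a1 * C1 + 2 * C1 * a1 * C1 + a2 * C1 ^ 2 * (C1 * a3) +
          2 * a1 * a4 * C1 ^ 2 * C1) * (K ^ 2 * (‖A.F u‖ * δ)) := by linarith
      _ ≤ C * (K ^ 2 * (‖A.F u‖ * δ)) := mul_le_mul_of_nonneg_right (by linarith) X0
      _ = _ := by ring

/-- the bound for normalised vectors -/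
theorem Aux_bound (A B : Dat) {m c c' : ℕ} (hc2 : c ≤ 4 * m) (hc2' : c' ≤ 4 * m) {C1 : ℝ} (hC1 : 1 ≤ C1) : ∃ C : ℝ, 1 ≤ C ∧
    ∀ (u v : Fin 2 → ℂ) (u' v' w x w' x' : ℂ) (K δ δ' : ℝ), 1 ≤ K → 0 ≤ δ → 0 ≤ δ' →
      (∀ j, ‖u j‖ ≤ C1) → ‖u'‖ ≤ C1 * K → ‖w‖ ≤ C1 * K * δ → ‖w'‖ ≤ C1 * K ^ 2 * δ →
      δ ≤ C1 * ‖A.F u‖ →
      (∀ j, ‖v j‖ ≤ C1) → ‖v'‖ ≤ C1 * K → ‖x‖ ≤ C1 * K * δ' → ‖x'‖ ≤ C1 * K ^ 2 * δ' →
      δ' ≤ C1 * ‖B.F v‖ →
      ‖Aux A B m u v u' v' w x w' x'‖ ≤ C * K ^ (7 * m) * (‖A.F u‖ ^ c * ‖B.F v‖ ^ c') := by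
  obtain ⟨a1, h1, H1⟩ := coord_bound A hC1
  obtain ⟨a2, h2, H2⟩ := coord_bound B hC1
  refine ⟨(2 * a1 * a2) ^ m * (C1 * C1) ^ (2 * m) * (C1 * C1) ^ m *
    (C1 ^ (3 * m) * a1 ^ (4 * m - c)) * (C1 ^ (3 * m) * a2 ^ (4 * m - c')), ?_, ?_⟩
  · have q1 : 1 ≤ (2 * a1 * a2) ^ m := one_le_pow₀ (by nlinarith)
    have q2 : 1 ≤ (C1 * C1) ^ (2 * m) := one_le_pow₀ (by nlinarith)
    have q3 : 1 ≤ (C1 * C1) ^ m := one_le_pow₀ (by nlinarith)
    have q4 : 1 ≤ C1 ^ (3 * m) * a1 ^ (4 * m - c) :=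
      one_le_mul_of_one_le_of_one_le (one_le_pow₀ hC1) (one_le_pow₀ h1)
    have q5 : 1 ≤ C1 ^ (3 * m) * a2 ^ (4 * m - c') :=
      one_le_mul_of_one_le_of_one_le (one_le_pow₀ hC1) (one_le_pow₀ h2)
    exact one_le_mul_of_one_le_of_one_le (one_le_mul_of_one_le_of_one_le
      (one_le_mul_of_one_le_of_one_le (one_le_mul_of_one_le_of_one_le q1 q2) q3) q4) q5
  · intro u v u' v' w x w' x' K δ δ' hK hδ hδ' hu hu' hw hw' hF hv hv' hx hx' hG
    obtain ⟨k1, k2, k3⟩ := H1 u u' w w' K δ hK hδ hu hu' hw hw' hF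
    obtain ⟨l1, l2, l3⟩ := H2 v v' x x' K δ' hK hδ' hv hv' hx hx' hG
    have hK0 : 0 ≤ K := by linarith
    have hC0 : 0 ≤ C1 := by linarith
    set E := ‖A.F u‖ with hE
    set G := ‖B.F v‖ with hGd
    have hE0 : 0 ≤ E := norm_nonneg _
    have hG0 : 0 ≤ G := norm_nonneg _
    have j1 : ‖Jet A B u v u' v' w x w' x'‖ ≤ 2 * a1 * a2 * K ^ 3 * ((E * δ) * (G * δ')) := by
      unfold Jet
      refine (norm_sub_le _ _).trans ?_
      rw [norm_mul, norm_mul]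
      calc ‖B.chi v x‖ * ‖A.phi u u' w w'‖ + ‖A.chi u w‖ * ‖B.phi v v' x x'‖
          ≤ (a2 * K * (G * δ')) * (a1 * K ^ 2 * (E * δ)) +
            (a1 * K * (E * δ)) * (a2 * K ^ 2 * (G * δ')) :=
            add_le_add (mul_le_mul l1 k2 (norm_nonneg _) (by positivity))
              (mul_le_mul k1 l2 (norm_nonneg _) (by positivity))
        _ = _ := by ring
    have j2 : ‖w * x‖ ≤ (C1 * C1) * K ^ 2 * (δ * δ') := by
      rw [norm_mul]
      calc ‖w‖ * ‖x‖ ≤ (C1 * K * δ) * (C1 * K * δ') :=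
            mul_le_mul hw hx (norm_nonneg _) (by positivity)
        _ = _ := by ring
    have j3 : ‖u 0 * v 0‖ ≤ C1 * C1 := by
      rw [norm_mul]
      exact mul_le_mul (hu 0) (hv 0) (norm_nonneg _) hC0
    have d1 : E ^ m * δ ^ (3 * m) ≤ C1 ^ (3 * m) * a1 ^ (4 * m - c) * E ^ c := by
      calc E ^ m * δ ^ (3 * m) ≤ E ^ m * (C1 * E) ^ (3 * m) :=
            mul_le_mul_of_nonneg_left (pow_le_pow_left₀ hδ hF _) (by positivity)
        _ = C1 ^ (3 * m) * (E ^ (4 * m - c) * E ^ c) := by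
            rw [mul_pow, ← pow_add E (4 * m - c) c, Nat.sub_add_cancel hc2,
              show 4 * m = m + 3 * m by ring, pow_add E m (3 * m)]
            ring
        _ ≤ C1 ^ (3 * m) * (a1 ^ (4 * m - c) * E ^ c) := by
            have := pow_le_pow_left₀ hE0 k3 (4 * m - c)
            gcongr
        _ = _ := by ring
    have d2 : G ^ m * δ' ^ (3 * m) ≤ C1 ^ (3 * m) * a2 ^ (4 * m - c') * G ^ c' := by
      calc G ^ m * δ' ^ (3 * m) ≤ G ^ m * (C1 * G) ^ (3 * m) :=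
            mul_le_mul_of_nonneg_left (pow_le_pow_left₀ hδ' hG _) (by positivity)
        _ = C1 ^ (3 * m) * (G ^ (4 * m - c') * G ^ c') := by
            rw [mul_pow, ← pow_add G (4 * m - c') c', Nat.sub_add_cancel hc2',
              show 4 * m = m + 3 * m by ring, pow_add G m (3 * m)]
            ring
        _ ≤ C1 ^ (3 * m) * (a2 ^ (4 * m - c') * G ^ c') := by
            have := pow_le_pow_left₀ hG0 l3 (4 * m - c')
            gcongr
        _ = _ := by ring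
    unfold Aux
    rw [norm_mul, norm_mul, norm_pow, norm_pow, norm_pow]
    calc ‖Jet A B u v u' v' w x w' x'‖ ^ m * ‖w * x‖ ^ (2 * m) * ‖u 0 * v 0‖ ^ m
        ≤ (2 * a1 * a2 * K ^ 3 * ((E * δ) * (G * δ'))) ^ m *
          ((C1 * C1) * K ^ 2 * (δ * δ')) ^ (2 * m) * (C1 * C1) ^ m := by
          refine mul_le_mul (mul_le_mul (pow_le_pow_left₀ (norm_nonneg _) j1 _)
            (pow_le_pow_left₀ (norm_nonneg _) j2 _) (by positivity) (by positivity))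
            (pow_le_pow_left₀ (norm_nonneg _) j3 _) (by positivity) (by positivity)
      _ = (2 * a1 * a2) ^ m * (C1 * C1) ^ (2 * m) * (C1 * C1) ^ m * K ^ (7 * m) *
          ((E ^ m * δ ^ (3 * m)) * (G ^ m * δ' ^ (3 * m))) := by
          rw [show 7 * m = 3 * m + 2 * (2 * m) by ring, show 3 * m = m + 2 * m by ring]
          simp only [mul_pow, pow_add, ← pow_mul]
          ring
      _ ≤ (2 * a1 * a2) ^ m * (C1 * C1) ^ (2 * m) * (C1 * C1) ^ m * K ^ (7 * m) *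
          ((C1 ^ (3 * m) * a1 ^ (4 * m - c) * E ^ c) *
            (C1 ^ (3 * m) * a2 ^ (4 * m - c') * G ^ c')) := by
          refine mul_le_mul_of_nonneg_left (mul_le_mul d1 d2 (by positivity) (by positivity))
            (by positivity)
      _ = _ := by ring

end Pool.Agent.K9h12.SG
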